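import Pool.Agent.N976.EC.Def

/-!
# Euler equations on the torus: uniqueness, conservation of energy, bounded vorticity
-/

open Set Filter Topology MeasureTheory
open scoped ContDiff

set_option autoImplicit false

namespace Pool.Agent.N976.EC

open Pool.Agent.N976.SC

namespace U7

/-! ### The scalar product -/

/-- the scalar product -/
def dot (a b : V) : ℝ := ∑ i, a i * b i

theorem ipT_eq (v w : V → V) : ipT v w = ∫ x in Q, dot (v x) (w x) := rfl

theorem dot_comm (a b : V) : dot a b = dot b a :=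
  Finset.sum_congr rfl fun i _ => mul_comm _ _

theorem dot_add_left (a b c : V) : dot (a + b) c = dot a c + dot b c := by
  simp [dot, add_mul, Finset.sum_add_distrib]

theorem dot_sub_left (a b c : V) : dot (a - b) c = dot a c - dot b c := by
  simp [dot, sub_mul, Finset.sum_sub_distrib]

theorem abs_dot_le (a b : V) : |dot a b| ≤ 3 * (‖a‖ * ‖b‖) := by
  unfold dot
  refine (Finset.abs_sum_le_sum_abs _ _).trans ?_
  calc ∑ i, |a i * b i| ≤ ∑ _i : Fin 3, ‖a‖ * ‖b‖ := by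
        refine Finset.sum_le_sum fun i _ => ?_
        rw [abs_mul]
        have h1 : |a i| ≤ ‖a‖ := norm_le_pi_norm a i
        have h2 : |b i| ≤ ‖b‖ := norm_le_pi_norm b i
        exact mul_le_mul h1 h2 (abs_nonneg _) (norm_nonneg _)
    _ = 3 * (‖a‖ * ‖b‖) := by simp

theorem dot_self_nonneg (a : V) : 0 ≤ dot a a :=
  Finset.sum_nonneg fun i _ => mul_self_nonneg _

theorem sq_norm_le (a : V) : ‖a‖ ^ 2 ≤ dot a a := by
  have h1 : ‖a‖ ≤ Real.sqrt (dot a a) := by
    refine (pi_norm_le_iff_of_nonneg (Real.sqrt_nonneg _)).2 fun i => ?_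
    refine Real.abs_le_sqrt ?_
    rw [sq]
    exact Finset.single_le_sum (f := fun i => a i * a i) (fun j _ => mul_self_nonneg _)
      (Finset.mem_univ i)
  calc ‖a‖ ^ 2 ≤ Real.sqrt (dot a a) ^ 2 := pow_le_pow_left₀ (norm_nonneg _) h1 2
    _ = dot a a := Real.sq_sqrt (dot_self_nonneg a)

theorem dot_cont {X : Type} [TopologicalSpace X] {f g : X → V} (hf : Continuous f)
    (hg : Continuous g) : Continuous fun x => dot (f x) (g x) := by
  unfold dot
  exact continuous_finsetSum _ fun i _ =>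
    ((continuous_apply i).comp hf).mul ((continuous_apply i).comp hg)

theorem dot_contOn {X : Type} [TopologicalSpace X] {f g : X → V} {s : Set X}
    (hf : ContinuousOn f s) (hg : ContinuousOn g s) :
    ContinuousOn (fun x => dot (f x) (g x)) s := by
  have h := (dot_cont (X := V × V) continuous_fst continuous_snd).comp_continuousOn (hf.prodMk hg)
  exact h

/-! ### Integrals over the cube -/

theorem Q_compact : IsCompact Q := isCompact_Icc

theorem Q_meas : MeasurableSet Q := measurableSet_Icc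

theorem Q_fin : volume Q < ⊤ := Q_compact.measure_lt_top

theorem int_dot {f g : V → V} (hf : Continuous f) (hg : Continuous g) :
    IntegrableOn (fun x => dot (f x) (g x)) Q :=
  (dot_cont hf hg).continuousOn.integrableOn_compact Q_compact

theorem ipT_nonneg (v : V → V) : 0 ≤ ipT v v :=
  integral_nonneg fun _ => dot_self_nonneg _

theorem ipT_sub {a b c : V → V} (ha : Continuous a) (hb : Continuous b) (hc : Continuous c) :
    ipT (fun x => a x - b x) c = ipT a c - ipT b c := by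
  simp only [ipT_eq, dot_sub_left]
  exact integral_sub (int_dot ha hc) (int_dot hb hc)

theorem ipT_add {a b c : V → V} (ha : Continuous a) (hb : Continuous b) (hc : Continuous c) :
    ipT (fun x => a x + b x) c = ipT a c + ipT b c := by
  simp only [ipT_eq, dot_add_left]
  exact integral_add (int_dot ha hc) (int_dot hb hc)

/-! ### The divergence theorem -/

theorem div_int {F : V → V} (hF : ContDiff ℝ 1 F) (hp : Per F) : ∫ x in Q, divT F x = 0 := by
  have hpi : (-Real.pi : ℝ) ≤ Real.pi := by linarith [Real.pi_pos]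
  have hcf : Continuous (fderiv ℝ F) := hF.continuous_fderiv (by simp)
  have h := integral_divergence_of_hasFDerivAt_off_countable (n := 2)
    (a := fun _ : Fin 3 => -Real.pi) (b := fun _ : Fin 3 => Real.pi) (fun _ => hpi) F
    (fun x => fderiv ℝ F x) ∅ countable_empty hF.continuous.continuousOn
    (fun x _ => (hF.differentiable (by simp) x).hasFDerivAt) ?_
  · unfold divT Q
    rw [h]
    refine Finset.sum_eq_zero fun i _ => ?_
    rw [sub_eq_zero]
    refine integral_congr_ae (ae_of_all _ fun x => ?_)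
    have h1 : (Fin.insertNth i Real.pi x : Fin 3 → ℝ) =
        (Fin.insertNth i (-Real.pi) x : Fin 3 → ℝ) + Pi.single i (2 * Real.pi) := by
      funext j
      rcases Fin.eq_self_or_eq_succAbove i j with hj | ⟨k, hk⟩
      · subst hj
        simp
        ring
      · subst hk
        simp
    show F (Fin.insertNth i Real.pi x) i = F (Fin.insertNth i (-Real.pi) x) i
    rw [h1, hp i]
  · refine ContinuousOn.integrableOn_compact isCompact_Icc (Continuous.continuousOn ?_)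
    exact continuous_finsetSum _ fun i _ =>
      (continuous_apply i).comp (hcf.clm_apply continuous_const)

theorem sum_single (a : V) : ∑ i, (a i) • (Pi.single i 1 : V) = a := by
  funext j
  simp [Finset.sum_apply, Pi.single_apply]

/-- `∫ ((b · ∇) c) · c = 0` for `div b = 0` -/
theorem adv_orth {b c : V → V} (hb : ContDiff ℝ 1 b) (hc : ContDiff ℝ 1 c) (hbp : Per b)
    (hcp : Per c) (hdiv : ∀ x, divT b x = 0) : ipT (advT b c) c = 0 := by
  have hg : ∀ x, HasFDerivAt (fun z => dot (c z) (c z))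
      (∑ i, ((c x i) • (ContinuousLinearMap.proj (R := ℝ) i : V →L[ℝ] ℝ).comp (fderiv ℝ c x) +
        (c x i) • (ContinuousLinearMap.proj (R := ℝ) i : V →L[ℝ] ℝ).comp (fderiv ℝ c x))) x := by
    intro x
    have h1 : ∀ i : Fin 3, HasFDerivAt (fun z => c z i)
        ((ContinuousLinearMap.proj (R := ℝ) i : V →L[ℝ] ℝ).comp (fderiv ℝ c x)) x := fun i =>
      (ContinuousLinearMap.proj (R := ℝ) i : V →L[ℝ] ℝ).hasFDerivAt.comp x
        (hc.differentiable (by simp) x).hasFDerivAt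
    exact HasFDerivAt.fun_sum fun i _ => (h1 i).mul (h1 i)
  have hgf : ∀ x v, fderiv ℝ (fun z => dot (c z) (c z)) x v = 2 * dot (fderiv ℝ c x v) (c x) := by
    intro x v
    rw [(hg x).fderiv]
    simp only [dot, Finset.mul_sum, _root_.sum_apply, _root_.add_apply, _root_.smul_apply,
      ContinuousLinearMap.comp_apply, ContinuousLinearMap.proj_apply, smul_eq_mul]
    exact Finset.sum_congr rfl fun i _ => by ring
  have hgc : ContDiff ℝ 1 (fun z => dot (c z) (c z)) := by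
    unfold dot
    refine ContDiff.sum fun i _ => ?_
    have : ContDiff ℝ 1 fun z => c z i := contDiff_pi.1 hc i
    exact this.mul this
  set F : V → V := fun x => (dot (c x) (c x)) • b x with hF
  have hF1 : ContDiff ℝ 1 F := hgc.smul hb
  have hFp : Per F := by
    intro i x
    simp only [hF]
    rw [hbp i x, hcp i x]
  have hFd : ∀ x, divT F x = 2 * dot (advT b c x) (c x) := by
    intro x
    have h1 : HasFDerivAt F (dot (c x) (c x) • fderiv ℝ b x +
        (fderiv ℝ (fun z => dot (c z) (c z)) x).smulRight (b x)) x :=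
      (hgc.differentiable (by simp) x).hasFDerivAt.smul (hb.differentiable (by simp) x).hasFDerivAt
    have h2 : divT F x = dot (c x) (c x) * divT b x +
        fderiv ℝ (fun z => dot (c z) (c z)) x (∑ i, (b x i) • (Pi.single i 1 : V)) := by
      unfold divT
      rw [h1.fderiv, map_sum, Finset.mul_sum, ← Finset.sum_add_distrib]
      refine Finset.sum_congr rfl fun i _ => ?_
      rw [map_smul]
      simp
      ring
    rw [h2, hdiv x, sum_single, hgf, mul_zero, zero_add]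
    rfl
  have h3 := div_int hF1 hFp
  simp only [hFd] at h3
  rw [integral_const_mul] at h3
  rw [ipT_eq]
  have : (2 : ℝ) ≠ 0 := by norm_num
  exact (mul_eq_zero.1 h3).resolve_left this

/-! ### Time derivatives -/

/-- `C¹` in time and space -/
def Tm (T : ℝ) (w : ℝ → V → V) : Prop :=
  ContDiffOn ℝ 1 (fun z : ℝ × V => w z.1 z.2) (Ico 0 T ×ˢ univ)

theorem udo (T : ℝ) : UniqueDiffOn ℝ (Ico 0 T) := uniqueDiffOn_Ico 0 T

theorem udp (T : ℝ) : UniqueDiffOn ℝ (Ico 0 T ×ˢ (univ : Set V)) :=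
  (udo T).prod uniqueDiffOn_univ

/-- the derivative in time and space -/
noncomputable def FD (T : ℝ) (w : ℝ → V → V) (z : ℝ × V) : ℝ × V →L[ℝ] V :=
  fderivWithin ℝ (fun z : ℝ × V => w z.1 z.2) (Ico 0 T ×ˢ univ) z

theorem Tm.fdc {T : ℝ} {w : ℝ → V → V} (h : Tm T w) : ContinuousOn (FD T w) (Ico 0 T ×ˢ univ) :=
  ContDiffOn.continuousOn_fderivWithin h (udp T) le_rfl

theorem Tm.c0 {T : ℝ} {w : ℝ → V → V} (h : Tm T w) :
    ContinuousOn (fun z : ℝ × V => w z.1 z.2) (Ico 0 T ×ˢ univ) := ContDiffOn.continuousOn h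

theorem Tm.c1 {T : ℝ} {w : ℝ → V → V} (h : Tm T w) {t : ℝ} (ht : t ∈ Ico 0 T) :
    ContDiff ℝ 1 (w t) := by
  rw [← contDiffOn_univ]
  have h1 : ContDiffOn ℝ 1 (fun x : V => ((t, x) : ℝ × V)) univ :=
    (contDiff_const.prodMk contDiff_id).contDiffOn
  exact ContDiffOn.comp (g := fun z : ℝ × V => w z.1 z.2) h h1 (fun x _ => ⟨ht, mem_univ _⟩)

theorem Tm.cont {T : ℝ} {w : ℝ → V → V} (h : Tm T w) {t : ℝ} (ht : t ∈ Ico 0 T) :
    Continuous (w t) := (h.c1 ht).continuous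

theorem Tm.hasF {T : ℝ} {w : ℝ → V → V} (h : Tm T w) {t : ℝ} (ht : t ∈ Ico 0 T) (y : V) :
    HasFDerivWithinAt (fun z : ℝ × V => w z.1 z.2) (FD T w (t, y)) (Ico 0 T ×ˢ univ) (t, y) :=
  (ContDiffOn.differentiableOn h (by simp) (t, y) ⟨ht, mem_univ _⟩).hasFDerivWithinAt

theorem Tm.hasD {T : ℝ} {w : ℝ → V → V} (h : Tm T w) {t : ℝ} (ht : t ∈ Ico 0 T) (y : V) :
    HasDerivWithinAt (fun τ => w τ y) (FD T w (t, y) (1, 0)) (Ico 0 T) t := by
  have h2 : HasDerivWithinAt (fun τ : ℝ => (τ, y)) ((1 : ℝ), (0 : V)) (Ico 0 T) t :=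
    (hasDerivWithinAt_id t _).prodMk (hasDerivWithinAt_const t _ y)
  have h3 : MapsTo (fun τ : ℝ => (τ, y)) (Ico 0 T) (Ico 0 T ×ˢ (univ : Set V)) :=
    fun τ hτ => ⟨hτ, mem_univ _⟩
  exact (h.hasF ht y).comp_hasDerivWithinAt t h2 h3

theorem Tm.dt_eq {T : ℝ} {w : ℝ → V → V} (h : Tm T w) {t : ℝ} (ht : t ∈ Ico 0 T) (y : V) :
    dtT T w t y = FD T w (t, y) (1, 0) :=
  (h.hasD ht y).derivWithin (udo T t ht)

theorem Tm.hd {T : ℝ} {w : ℝ → V → V} (h : Tm T w) {t : ℝ} (ht : t ∈ Ico 0 T) (y : V) :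
    HasDerivWithinAt (fun τ => w τ y) (dtT T w t y) (Ico 0 T) t := by
  rw [h.dt_eq ht y]
  exact h.hasD ht y

theorem Tm.fx_eq {T : ℝ} {w : ℝ → V → V} (h : Tm T w) {t : ℝ} (ht : t ∈ Ico 0 T) (y : V) :
    fderiv ℝ (w t) y = (FD T w (t, y)).comp (ContinuousLinearMap.inr ℝ ℝ V) := by
  have h1 : HasFDerivWithinAt (fun x : V => ((t, x) : ℝ × V)) (ContinuousLinearMap.inr ℝ ℝ V)
      univ y := (hasFDerivAt_prodMk_right t y).hasFDerivWithinAt
  have h2 := (h.hasF ht y).comp y h1 (fun x _ => ⟨ht, mem_univ _⟩)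
  rw [hasFDerivWithinAt_univ] at h2
  exact h2.fderiv

theorem Tm.cdt {T : ℝ} {w : ℝ → V → V} (h : Tm T w) {t : ℝ} (ht : t ∈ Ico 0 T) :
    Continuous (dtT T w t) := by
  have h1 : dtT T w t = fun y => FD T w (t, y) (1, 0) := funext fun y => h.dt_eq ht y
  rw [h1]
  have h3 : Continuous fun y : V => FD T w (t, y) :=
    h.fdc.comp_continuous (continuous_const.prodMk continuous_id) (fun _ => ⟨ht, mem_univ _⟩)
  exact h3.clm_apply continuous_const

theorem Tm.hdi {T : ℝ} {w : ℝ → V → V} (h : Tm T w) {t : ℝ} (ht : t ∈ Ioo 0 T) (y : V) :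
    HasDerivAt (fun τ => w τ y) (dtT T w t y) t :=
  (h.hd ⟨ht.1.le, ht.2⟩ y).hasDerivAt (Ico_mem_nhds ht.1 ht.2)

theorem Tm.bdd {T : ℝ} {w : ℝ → V → V} (h : Tm T w) {T' : ℝ} (hT : T' < T) :
    ∃ M, 0 ≤ M ∧ ∀ t ∈ Icc 0 T', ∀ x ∈ Q, ‖w t x‖ ≤ M ∧ ‖dtT T w t x‖ ≤ M ∧
      ‖fderiv ℝ (w t) x‖ ≤ M := by
  have hK : IsCompact (Icc 0 T' ×ˢ Q : Set (ℝ × V)) := isCompact_Icc.prod Q_compact
  have hsub : (Icc 0 T' ×ˢ Q : Set (ℝ × V)) ⊆ Ico 0 T ×ˢ univ := fun z hz =>
    ⟨⟨hz.1.1, lt_of_le_of_lt hz.1.2 hT⟩, mem_univ _⟩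
  obtain ⟨M1, hM1⟩ := hK.exists_bound_of_continuousOn (h.c0.mono hsub)
  obtain ⟨M2, hM2⟩ := hK.exists_bound_of_continuousOn (h.fdc.mono hsub)
  have hM : 0 ≤ max 0 (max M1 M2) := le_max_left _ _
  refine ⟨max 0 (max M1 M2), hM, fun t ht x hx => ?_⟩
  have ht' : t ∈ Ico 0 T := ⟨ht.1, lt_of_le_of_lt ht.2 hT⟩
  have h1 : ‖w t x‖ ≤ M1 := hM1 (t, x) ⟨ht, hx⟩
  have h2 : ‖FD T w (t, x)‖ ≤ M2 := hM2 (t, x) ⟨ht, hx⟩
  have l1 : M1 ≤ max 0 (max M1 M2) := (le_max_left _ _).trans (le_max_right _ _)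
  have l2 : M2 ≤ max 0 (max M1 M2) := (le_max_right _ _).trans (le_max_right _ _)
  refine ⟨h1.trans l1, ?_, ?_⟩
  · rw [h.dt_eq ht' x]
    refine le_trans ?_ (h2.trans l2)
    calc ‖FD T w (t, x) (1, 0)‖ ≤ ‖FD T w (t, x)‖ * ‖((1 : ℝ), (0 : V))‖ :=
          (FD T w (t, x)).le_opNorm _
      _ = ‖FD T w (t, x)‖ := by simp
  · rw [h.fx_eq ht' x]
    refine le_trans ?_ (h2.trans l2)
    refine ContinuousLinearMap.opNorm_le_bound _ (norm_nonneg _) fun v => ?_
    calc ‖(FD T w (t, x)).comp (ContinuousLinearMap.inr ℝ ℝ V) v‖ = ‖FD T w (t, x) (0, v)‖ := rfl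
      _ ≤ ‖FD T w (t, x)‖ * ‖((0 : ℝ), v)‖ := (FD T w (t, x)).le_opNorm _
      _ = ‖FD T w (t, x)‖ * ‖v‖ := by simp

theorem energy_cont {T : ℝ} {w : ℝ → V → V} (h : Tm T w) :
    ContinuousOn (fun t => ipT (w t) (w t)) (Ico 0 T) := by
  have key : ∀ T' < T, ContinuousOn (fun t => ipT (w t) (w t)) (Icc 0 T') := by
    intro T' hT'
    obtain ⟨M, hM0, hM⟩ := h.bdd hT'
    have hsub : ∀ t ∈ Icc 0 T', t ∈ Ico 0 T := fun t ht => ⟨ht.1, lt_of_le_of_lt ht.2 hT'⟩
    simp only [ipT_eq]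
    refine continuousOn_of_dominated (bound := fun _ => 3 * (M * M)) ?_ ?_ ?_ ?_
    · intro t ht
      exact (dot_cont (h.cont (hsub t ht)) (h.cont (hsub t ht))).aestronglyMeasurable
    · intro t ht
      refine (ae_restrict_iff' Q_meas).2 (ae_of_all _ fun y hy => ?_)
      rw [Real.norm_eq_abs]
      refine (abs_dot_le _ _).trans ?_
      have := (hM t ht y hy).1
      gcongr
    · exact integrableOn_const Q_fin.ne
    · refine ae_of_all _ fun y => ?_
      have h1 : ContinuousOn (fun τ => w τ y) (Icc 0 T') := fun t ht =>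
        ((h.hd (hsub t ht) y).continuousWithinAt).mono hsub
      exact dot_contOn h1 h1
  intro t ht
  have h1 : (t + T) / 2 < T := by linarith [ht.2]
  have h2 : t < (t + T) / 2 := by linarith [ht.2]
  have h3 := key _ h1 t ⟨ht.1, h2.le⟩
  refine h3.mono_of_mem_nhdsWithin ?_
  refine mem_nhdsWithin.2 ⟨Iio ((t + T) / 2), isOpen_Iio, h2, ?_⟩
  rintro x ⟨hx1, hx2⟩
  exact ⟨hx2.1, le_of_lt hx1⟩

theorem dot_hasD {f : ℝ → V} {f' : V} {t : ℝ} (h : HasDerivAt f f' t) :
    HasDerivAt (fun τ => dot (f τ) (f τ)) (2 * dot f' (f t)) t := by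
  have h1 : ∀ i, HasDerivAt (fun τ => f τ i) (f' i) t := hasDerivAt_pi.1 h
  have h2 : HasDerivAt (fun τ => ∑ i, f τ i * f τ i) (∑ i, (f' i * f t i + f t i * f' i)) t :=
    HasDerivAt.fun_sum fun i _ => (h1 i).mul (h1 i)
  refine h2.congr_deriv ?_
  simp only [dot, Finset.mul_sum]
  exact Finset.sum_congr rfl fun i _ => by ring

theorem energy_deriv {T : ℝ} {w : ℝ → V → V} (h : Tm T w) {t : ℝ} (ht : t ∈ Ioo 0 T) :
    HasDerivAt (fun τ => ipT (w τ) (w τ)) (2 * ipT (dtT T w t) (w t)) t := by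
  have h1 : (t + T) / 2 < T := by linarith [ht.2]
  have h2 : t < (t + T) / 2 := by linarith [ht.2]
  obtain ⟨M, hM0, hM⟩ := h.bdd h1
  have hs : ∀ τ ∈ Ioo 0 ((t + T) / 2), τ ∈ Ioo 0 T := fun τ hτ => ⟨hτ.1, hτ.2.trans h1⟩
  have ht' : t ∈ Ico 0 T := ⟨ht.1.le, ht.2⟩
  have key := hasDerivAt_integral_of_dominated_loc_of_deriv_le
    (μ := (volume : Measure V).restrict Q)
    (F := fun τ y => dot (w τ y) (w τ y)) (x₀ := t) (s := Ioo 0 ((t + T) / 2))
    (F' := fun τ y => 2 * dot (dtT T w τ y) (w τ y))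
    (bound := fun _ => 2 * (3 * (M * M))) (Ioo_mem_nhds ht.1 h2) ?_ ?_ ?_ ?_ ?_ ?_
  · have h3 := key.2
    rw [integral_const_mul] at h3
    exact h3
  · filter_upwards [Ioo_mem_nhds ht.1 ht.2] with τ hτ
    have := h.cont (t := τ) ⟨hτ.1.le, hτ.2⟩
    exact (dot_cont this this).aestronglyMeasurable
  · exact int_dot (h.cont ht') (h.cont ht')
  · exact (continuous_const.mul (dot_cont (h.cdt ht') (h.cont ht'))).aestronglyMeasurable
  · refine (ae_restrict_iff' Q_meas).2 (ae_of_all _ fun y hy τ hτ => ?_)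
    obtain ⟨h4, h5, -⟩ := hM τ ⟨hτ.1.le, hτ.2.le⟩ y hy
    rw [Real.norm_eq_abs, abs_mul, abs_of_pos (by norm_num : (0 : ℝ) < 2)]
    refine mul_le_mul_of_nonneg_left ((abs_dot_le _ _).trans ?_) (by norm_num)
    gcongr
  · exact integrableOn_const Q_fin.ne
  · exact ae_of_all _ fun y τ hτ => dot_hasD (h.hdi (hs τ hτ) y)

/-! ### Solutions -/

theorem fld {ι : Type} {T : ℝ} {r : ι → V → V} {u : ℝ → V → V} (h : SolT r T u)
    {t : ℝ} (ht : t ∈ Ico 0 T) : FldT (u t) :=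
  ⟨Tm.c1 (T := T) h.c1 ht, h.per t ht, h.div t ht⟩

theorem cont_adv {a b : V → V} (ha : Continuous a) (hb : ContDiff ℝ 1 b) :
    Continuous (advT a b) := (hb.continuous_fderiv (by simp)).clm_apply ha

theorem energy_main {ι : Type} {T : ℝ} {r : ι → V → V} {u : ℝ → V → V}
    (h : SolT r T u) {t : ℝ} (ht : t ∈ Ico 0 T) : ipT (dtT T u t) (u t) = 0 := by
  have hf := fld h ht
  have htm : Tm T u := h.c1
  have h1 := h.eqn t ht (u t) hf (h.con t ht)
  rw [ipT_add (htm.cdt ht) (cont_adv hf.c1.continuous hf.c1) hf.c1.continuous,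
    adv_orth hf.c1 hf.c1 hf.per hf.per hf.div, add_zero] at h1
  exact h1

/-! ### Differences -/

theorem fderiv_diff {a b : V → V} (ha : ContDiff ℝ 1 a) (hb : ContDiff ℝ 1 b) (y : V) :
    fderiv ℝ (fun z => a z - b z) y = fderiv ℝ a y - fderiv ℝ b y :=
  ((ha.differentiable (by simp) y).hasFDerivAt.sub
    (hb.differentiable (by simp) y).hasFDerivAt).fderiv

theorem divT_diff {a b : V → V} (ha : ContDiff ℝ 1 a) (hb : ContDiff ℝ 1 b)
    (h : ∀ y, divT a y = 0) (h' : ∀ y, divT b y = 0) (y : V) :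
    divT (fun z => a z - b z) y = 0 := by
  have h1 := h y
  have h2 := h' y
  unfold divT at *
  rw [fderiv_diff ha hb]
  simp only [_root_.sub_apply, Pi.sub_apply, Finset.sum_sub_distrib, h1, h2, sub_zero]

theorem adv_diff {a b : V → V} (ha : ContDiff ℝ 1 a) (hb : ContDiff ℝ 1 b) (y : V) :
    advT a a y - advT b b y = advT (fun z => a z - b z) a y + advT b (fun z => a z - b z) y := by
  unfold advT
  rw [fderiv_diff ha hb, map_sub, _root_.sub_apply]
  abel

theorem dt_sub {T : ℝ} {u v : ℝ → V → V} (hu : Tm T u) (hv : Tm T v) {t : ℝ}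
    (ht : t ∈ Ico 0 T) :
    dtT T (fun τ y => u τ y - v τ y) t = fun y => dtT T u t y - dtT T v t y :=
  funext fun y => ((hu.hd ht y).sub (hv.hd ht y)).derivWithin (udo T t ht)

theorem Tm.sub {T : ℝ} {u v : ℝ → V → V} (hu : Tm T u) (hv : Tm T v) :
    Tm T (fun τ y => u τ y - v τ y) := ContDiffOn.sub hu hv

theorem adv_bound {M : ℝ} {a w : V → V} (ha : ContDiff ℝ 1 a) (hw : Continuous w)
    (hM : 0 ≤ M) (hA : ∀ y ∈ Q, ‖fderiv ℝ a y‖ ≤ M) :
    -ipT (advT w a) w ≤ 3 * M * ipT w w := by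
  rw [ipT_eq, ipT_eq, ← integral_neg, ← integral_const_mul]
  refine setIntegral_mono_on (int_dot (cont_adv hw ha) hw).neg
    ((int_dot hw hw).const_mul (3 * M)) Q_meas fun y hy => ?_
  have h1 : |dot (advT w a y) (w y)| ≤ 3 * (‖advT w a y‖ * ‖w y‖) := abs_dot_le _ _
  have h2 : ‖advT w a y‖ ≤ M * ‖w y‖ :=
    ((fderiv ℝ a y).le_opNorm _).trans (mul_le_mul_of_nonneg_right (hA y hy) (norm_nonneg _))
  have h3 : -dot (advT w a y) (w y) ≤ |dot (advT w a y) (w y)| := neg_le_abs _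
  have h4 := sq_norm_le (w y)
  calc -dot (advT w a y) (w y) ≤ 3 * (‖advT w a y‖ * ‖w y‖) := h3.trans h1
    _ ≤ 3 * (M * ‖w y‖ * ‖w y‖) := by gcongr
    _ = 3 * M * ‖w y‖ ^ 2 := by ring
    _ ≤ 3 * M * dot (w y) (w y) := by gcongr

/-! ### Periodicity -/

theorem per_int {v : V → V} (hp : Per v) (i : Fin 3) (k : ℤ) (x : V) :
    v (x + Pi.single i (2 * Real.pi * k)) = v x := by
  have h : Function.Periodic (fun s : ℝ => v (x + Pi.single i s)) (2 * Real.pi) := by
    intro s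
    show v (x + Pi.single i (s + 2 * Real.pi)) = v (x + Pi.single i s)
    rw [Pi.single_add, ← add_assoc]
    exact hp i _
  have h1 := h.int_mul_eq k
  rw [mul_comm (k : ℝ)] at h1
  simpa using h1

theorem per_vec {v : V → V} (hp : Per v) (k : Fin 3 → ℤ) (x : V) :
    v (x + fun i => 2 * Real.pi * k i) = v x := by
  have h : ∀ s : Finset (Fin 3), v (x + ∑ i ∈ s, Pi.single i (2 * Real.pi * k i)) = v x := by
    intro s
    induction s using Finset.induction_on with
    | empty => simp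
    | insert i s hi ih =>
      rw [Finset.sum_insert hi, add_comm (Pi.single i _), ← add_assoc, per_int hp, ih]
  have h1 := h Finset.univ
  have h2 : ∑ i, (Pi.single i (2 * Real.pi * k i) : V) = fun i => 2 * Real.pi * k i := by
    funext j
    simp [Finset.sum_apply, Pi.single_apply]
  rwa [h2] at h1

theorem exists_Q (x : V) : ∃ k : Fin 3 → ℤ, (x + fun i => 2 * Real.pi * k i) ∈ Q := by
  have hpi : 0 < 2 * Real.pi := by positivity
  refine ⟨fun i => -⌊(x i + Real.pi) / (2 * Real.pi)⌋, ?_, ?_⟩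
  · intro i
    have h1 := Int.floor_le ((x i + Real.pi) / (2 * Real.pi))
    rw [le_div_iff₀ hpi] at h1
    simp only [Pi.add_apply, Int.cast_neg]
    linarith
  · intro i
    have h1 := Int.lt_floor_add_one ((x i + Real.pi) / (2 * Real.pi))
    rw [div_lt_iff₀ hpi] at h1
    simp only [Pi.add_apply, Int.cast_neg]
    linarith

theorem eq_zero_of_Q {w : V → V} (hp : Per w) (h : ∀ x ∈ Q, w x = 0) (x : V) : w x = 0 := by
  obtain ⟨k, hk⟩ := exists_Q x
  rw [← per_vec hp k x]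
  exact h _ hk

theorem fderiv_per {w : V → V} (hp : Per w) (k : Fin 3 → ℤ) (x : V) :
    fderiv ℝ w (x + fun i => 2 * Real.pi * k i) = fderiv ℝ w x := by
  have h1 : (fun z => w (z + fun i => 2 * Real.pi * k i)) = w := funext fun z => per_vec hp k z
  rw [← fderiv_comp_add_right, h1]

theorem Q_sub : Q ⊆ closure (interior Q) := by
  have h1 : (interior Q).Nonempty := by
    refine ⟨0, mem_interior_iff_mem_nhds.2 (pi_Icc_mem_nhds ?_ ?_)⟩
    · intro i
      simp [Real.pi_pos]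
    · intro i
      simp [Real.pi_pos]
  have h2 : Convex ℝ Q := convex_Icc _ _
  rw [h2.closure_interior_eq_closure_of_nonempty_interior h1]
  exact subset_closure

theorem zero_of_ipT {w : V → V} (hw : Continuous w) (hp : Per w) (h : ipT w w = 0) (x : V) :
    w x = 0 := by
  refine eq_zero_of_Q hp ?_ x
  rw [ipT_eq, integral_eq_zero_iff_of_nonneg (fun y => dot_self_nonneg _) (int_dot hw hw)] at h
  have h1 := Measure.eqOn_of_ae_eq h (dot_cont hw hw).continuousOn continuousOn_const Q_sub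
  intro y hy
  have h2 : dot (w y) (w y) = 0 := h1 hy
  have h3 := sq_norm_le (w y)
  rw [h2] at h3
  have h4 : ‖w y‖ = 0 := by
    have := norm_nonneg (w y)
    nlinarith
  exact norm_eq_zero.1 h4

theorem pdT_le (v : V → V) (x : V) (j i : Fin 3) : |pdT v x j i| ≤ ‖fderiv ℝ v x‖ := by
  unfold pdT
  calc |fderiv ℝ v x (Pi.single j 1) i| ≤ ‖fderiv ℝ v x (Pi.single j 1)‖ :=
        norm_le_pi_norm (fderiv ℝ v x (Pi.single j 1)) i
    _ ≤ ‖fderiv ℝ v x‖ * ‖(Pi.single j 1 : V)‖ := (fderiv ℝ v x).le_opNorm _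
    _ = ‖fderiv ℝ v x‖ := by rw [Pi.norm_single, norm_one, mul_one]

theorem curlT_le (v : V → V) (x : V) (i : Fin 3) : |curlT v x i| ≤ 2 * ‖fderiv ℝ v x‖ := by
  have key : ∀ a b c d : Fin 3, |pdT v x a b - pdT v x c d| ≤ 2 * ‖fderiv ℝ v x‖ := by
    intro a b c d
    have h1 := pdT_le v x a b
    have h2 := pdT_le v x c d
    calc |pdT v x a b - pdT v x c d| ≤ |pdT v x a b| + |pdT v x c d| := abs_sub _ _
      _ ≤ 2 * ‖fderiv ℝ v x‖ := by linarith
  fin_cases i
  · exact key 1 2 2 1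
  · exact key 2 0 0 2
  · exact key 0 1 1 0

end U7

/-- **Conservation of energy.** -/
theorem t_ENT : S_ENT := by
  intro ι T r u h t ht
  rcases eq_or_lt_of_le ht.1 with h0 | h0
  · rw [← h0]
  have hsub : Icc 0 t ⊆ Ico 0 T := fun τ hτ => ⟨hτ.1, lt_of_le_of_lt hτ.2 ht.2⟩
  obtain ⟨c, hc, hc'⟩ := exists_hasDerivAt_eq_slope (fun τ => ipT (u τ) (u τ))
    (fun τ => 2 * ipT (dtT T u τ) (u τ)) h0
    ((U7.energy_cont (T := T) h.c1).mono hsub)
    (fun τ hτ => U7.energy_deriv (T := T) h.c1 ⟨hτ.1, hτ.2.trans ht.2⟩)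
  rw [U7.energy_main h ⟨hc.1.le, hc.2.trans ht.2⟩, mul_zero, eq_comm, div_eq_zero_iff] at hc'
  rcases hc' with h1 | h1
  · exact sub_eq_zero.1 h1
  · linarith

/-- **The vorticity of classical solutions is bounded, locally uniformly in time.** -/
theorem t_CPT : S_CPT := by
  intro ι T T' r u h hT
  obtain ⟨M, hM0, hM⟩ := U7.Tm.bdd (T := T') (w := u) h.c1 hT
  refine ⟨2 * M, fun t ht x i => ?_⟩
  refine (U7.curlT_le _ _ _).trans ?_
  obtain ⟨k, hk⟩ := U7.exists_Q x
  rw [← U7.fderiv_per (h.per t ⟨ht.1, lt_of_le_of_lt ht.2 hT⟩) k x]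
  have := (hM t ht _ hk).2.2
  linarith

/-- **Uniqueness.** -/
theorem t_UNT : S_UNT := by
  intro ι T r u v hr hu hv h0 t ht
  have hut : U7.Tm T u := hu.c1
  have hvt : U7.Tm T v := hv.c1
  obtain ⟨w, hw⟩ : ∃ w : ℝ → V → V, w = fun τ y => u τ y - v τ y := ⟨_, rfl⟩
  have hwt : U7.Tm T w := by rw [hw]; exact hut.sub hvt
  have hwp : ∀ τ ∈ Ico 0 T, Per (w τ) := by
    intro τ hτ i x
    rw [hw]
    show u τ (x + _) - v τ (x + _) = u τ x - v τ x
    rw [hu.per τ hτ i x, hv.per τ hτ i x]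
  obtain ⟨M, hM0, hM⟩ := hut.bdd ht.2
  -- the differential inequality
  have key : ∀ τ ∈ Icc 0 t, ipT (dtT T w τ) (w τ) ≤ 3 * M * ipT (w τ) (w τ) := by
    intro τ hτ
    have hτ' : τ ∈ Ico 0 T := ⟨hτ.1, lt_of_le_of_lt hτ.2 ht.2⟩
    have fu := U7.fld hu hτ'
    have fv := U7.fld hv hτ'
    have hwe : w τ = fun y => u τ y - v τ y := by rw [hw]
    have sw : ContDiff ℝ 1 (w τ) := by rw [hwe]; exact fu.c1.sub fv.c1
    have divw : ∀ y, divT (w τ) y = 0 := by
      rw [hwe]; exact U7.divT_diff fu.c1 fv.c1 fu.div fv.div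
    have fw : FldT (w τ) := ⟨sw, hwp τ hτ', divw⟩
    have conw : ∀ i, ipT (w τ) (r i) = 0 := by
      intro i
      rw [hwe, U7.ipT_sub fu.c1.continuous fv.c1.continuous (hr i),
        hu.con τ hτ' i, hv.con τ hτ' i, sub_zero]
    have e1 := hu.eqn τ hτ' (w τ) fw conw
    have e2 := hv.eqn τ hτ' (w τ) fw conw
    have cau := U7.cont_adv fu.c1.continuous fu.c1
    have cav := U7.cont_adv fv.c1.continuous fv.c1
    rw [U7.ipT_add (hut.cdt hτ') cau sw.continuous] at e1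
    rw [U7.ipT_add (hvt.cdt hτ') cav sw.continuous] at e2
    have i1 : ipT (dtT T w τ) (w τ) = ipT (dtT T u τ) (w τ) - ipT (dtT T v τ) (w τ) := by
      have : dtT T w τ = fun y => dtT T u τ y - dtT T v τ y := by
        rw [hw]; exact U7.dt_sub hut hvt hτ'
      rw [this, U7.ipT_sub (hut.cdt hτ') (hvt.cdt hτ') sw.continuous]
    have i3 : ipT (advT (u τ) (u τ)) (w τ) - ipT (advT (v τ) (v τ)) (w τ) =
        ipT (advT (w τ) (u τ)) (w τ) + ipT (advT (v τ) (w τ)) (w τ) := by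
      rw [← U7.ipT_sub cau cav sw.continuous,
        ← U7.ipT_add (U7.cont_adv sw.continuous fu.c1) (U7.cont_adv fv.c1.continuous sw)
          sw.continuous]
      congr 1
      funext y
      rw [U7.adv_diff fu.c1 fv.c1 y, ← hwe]
    have i4 : ipT (advT (v τ) (w τ)) (w τ) = 0 :=
      U7.adv_orth fv.c1 sw fv.per (hwp τ hτ') fv.div
    have i6 : -ipT (advT (w τ) (u τ)) (w τ) ≤ 3 * M * ipT (w τ) (w τ) :=
      U7.adv_bound fu.c1 sw.continuous hM0 fun y hy => (hM τ hτ y hy).2.2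
    linarith
  -- Gronwall
  have hEc := U7.energy_cont hwt
  have hsub : Icc 0 t ⊆ Ico 0 T := fun τ hτ => ⟨hτ.1, lt_of_le_of_lt hτ.2 ht.2⟩
  have hd : ∀ τ ∈ Ioo 0 t, HasDerivAt (fun x => ipT (w x) (w x) * Real.exp (-(6 * M) * x))
      ((2 * ipT (dtT T w τ) (w τ)) * Real.exp (-(6 * M) * τ) +
        ipT (w τ) (w τ) * (Real.exp (-(6 * M) * τ) * (-(6 * M)))) τ := by
    intro τ hτ
    have h1 := U7.energy_deriv hwt (t := τ) ⟨hτ.1, hτ.2.trans ht.2⟩
    have h2 : HasDerivAt (fun x : ℝ => Real.exp (-(6 * M) * x))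
        (Real.exp (-(6 * M) * τ) * (-(6 * M))) τ := by
      have := (hasDerivAt_id τ).const_mul (-(6 * M))
      have h3 := this.exp
      simpa using h3
    exact h1.mul h2
  have hanti : AntitoneOn (fun x => ipT (w x) (w x) * Real.exp (-(6 * M) * x)) (Icc 0 t) := by
    refine antitoneOn_of_deriv_nonpos (convex_Icc 0 t) ?_ ?_ ?_
    · exact (hEc.mono hsub).mul (by fun_prop)
    · rw [interior_Icc]
      exact fun τ hτ => (hd τ hτ).differentiableAt.differentiableWithinAt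
    · rw [interior_Icc]
      intro τ hτ
      rw [(hd τ hτ).deriv]
      have h1 := key τ ⟨hτ.1.le, hτ.2.le⟩
      have h2 : 0 < Real.exp (-(6 * M) * τ) := Real.exp_pos _
      nlinarith
  have h1 : ipT (w 0) (w 0) = 0 := by
    have : w 0 = fun _ => 0 := by
      rw [hw]; funext y; simp [h0]
    rw [this]
    simp [ipT]
  have h2 := hanti (left_mem_Icc.2 ht.1) (right_mem_Icc.2 ht.1) ht.1
  simp only [h1, zero_mul] at h2
  have h3 : 0 < Real.exp (-(6 * M) * t) := Real.exp_pos _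
  have h4 : ipT (w t) (w t) = 0 := by
    refine le_antisymm ?_ (U7.ipT_nonneg _)
    by_contra hcon
    push Not at hcon
    exact absurd h2 (not_le.2 (mul_pos hcon h3))
  funext y
  have h6 : w t y = 0 := U7.zero_of_ipT (hwt.cont ht) (hwp t ht) h4 y
  rw [hw] at h6
  exact sub_eq_zero.1 h6

end Pool.Agent.N976.EC
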