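import Pool.Agent.N976.SC.Def

/-!
# Euler equations on the torus with sparse workless constraints: definitions and statements

The packets `pk s P n (y) = s^(3n) P (s^(2n) y)`, `P = sf f + pk s (sf g) 1`, are supported in
shells, so that only neighbouring packets interact; modulo two families of constraint fields the
reduced system is the Katz-Pavlovic system `x' = κ * vqE s x`.
-/

open Set Filter Topology MeasureTheory
open scoped ContDiff

set_option autoImplicit false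

namespace Pool.Agent.N976.EC

open Pool.Agent.N976.SC

/-! ### Packets -/

/-- The curl of `(0, 0, f)`. -/
noncomputable def sf (f : E3 → ℝ) (y : E3) : E3 :=
  WithLp.toLp 2 ![fderiv ℝ f y (bv 1), -(fderiv ℝ f y (bv 0)), 0]

/-- The third component of the vorticity. -/
noncomputable def vz (v : E3 → E3) (y : E3) : ℝ :=
  (fderiv ℝ v y (bv 0)) 1 - (fderiv ℝ v y (bv 1)) 0

/-- The stream functions of the building blocks, supported in the shell `a < |y| < 1 / 2`. -/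
structure Pe (f g : E3 → ℝ) (a : ℝ) : Prop where
  smf : ContDiff ℝ ∞ f
  smg : ContDiff ℝ ∞ g
  evf : ∀ y, f (-y) = f y
  odg : ∀ y, g (-y) = -g y
  a0 : 0 < a
  inF : ∀ y, ‖y‖ ≤ a → f y = 0
  inG : ∀ y, ‖y‖ ≤ a → g y = 0
  outF : ∀ y, 1 / 2 ≤ ‖y‖ → f y = 0
  outG : ∀ y, 1 / 2 ≤ ‖y‖ → g y = 0
  neg : ip (adv (sf g) (sf g)) (sf f) < 0

/-- The dilates `r k (s^(2n) y)`, `n ≥ 0`, of two fields. -/
noncomputable def fm (s : ℝ) (r : Fin 2 → E3 → E3) (p : Fin 2 × ℕ) (y : E3) : E3 :=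
  r p.1 (s ^ (2 * p.2) • y)

/-- The packets `pk s P n` and their interactions modulo the constraint fields `r`. -/
structure TE (s κ : ℝ) (P : E3 → E3) (r : Fin 2 × ℕ → E3 → E3) : Prop where
  κ0 : 0 < κ
  sm : ContDiff ℝ ∞ P
  out : ∀ y, 1 / 2 ≤ ‖y‖ → P y = 0
  div : ∀ y, divg P y = 0
  pot : ∃ h : E3 → ℝ, ContDiff ℝ ∞ h ∧ (∀ y, 1 / 2 ≤ ‖y‖ → h y = 0) ∧ P = sf h
  rsm : ∀ i, ContDiff ℝ ∞ (r i)
  rcs : ∀ i, HasCompactSupport (r i)
  norm : ∃ N, 0 < N ∧ ∀ m n, ip (pk s P m) (pk s P n) = if m = n then N else 0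
  orth : ∀ m i, ip (pk s P m) (r i) = 0
  diag : ∀ w, Continuous w → (∀ i, ip w (r i) = 0) → ∀ n,
    ip w (adv (pk s P n) (pk s P n)) = -(κ * s ^ (5 * n) * ip w (pk s P (n + 1)))
  near : ∀ w, Continuous w → (∀ i, ip w (r i) = 0) → ∀ n,
    ip w (adv (pk s P n) (pk s P (n + 1))) + ip w (adv (pk s P (n + 1)) (pk s P n)) =
      κ * s ^ (5 * n) * ip w (pk s P n)
  far : ∀ m n y, m + 2 ≤ n → adv (pk s P m) (pk s P n) y = 0 ∧ adv (pk s P n) (pk s P m) y = 0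

/-- The reduced system. -/
noncomputable def vqE (s : ℝ) (a : ℕ → ℝ) (n : ℕ) : ℝ :=
  (if n = 0 then 0 else s ^ (5 * (n - 1)) * a (n - 1) ^ 2) - s ^ (5 * n) * a n * a (n + 1)

/-! ### The torus -/

/-- The space `ℝ³`, for the torus. -/
abbrev V := Fin 3 → ℝ

/-- `2π`-periodic. -/
def Per (v : V → V) : Prop := ∀ (i : Fin 3) (x : V), v (x + Pi.single i (2 * Real.pi)) = v x

/-- The cube `[-π, π]³`. -/
def Q : Set V := Icc (fun _ => -Real.pi) (fun _ => Real.pi)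

/-- The divergence. -/
noncomputable def divT (v : V → V) (x : V) : ℝ := ∑ i, fderiv ℝ v x (Pi.single i 1) i

/-- The field `(a · ∇) b`. -/
noncomputable def advT (a b : V → V) (x : V) : V := fderiv ℝ b x (a x)

/-- `∫ v · w` over the cube. -/
noncomputable def ipT (v w : V → V) : ℝ := ∫ x in Q, ∑ i, v x i * w x i

/-- The time derivative (one-sided at `t = 0`). -/
noncomputable def dtT (T : ℝ) (u : ℝ → V → V) (t : ℝ) (x : V) : V :=
  derivWithin (fun τ => u τ x) (Ico 0 T) t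

/-- The partial derivative `∂ⱼ vᵢ`. -/
noncomputable def pdT (v : V → V) (x : V) (j i : Fin 3) : ℝ := fderiv ℝ v x (Pi.single j 1) i

/-- The curl. -/
noncomputable def curlT (v : V → V) (x : V) : V :=
  ![pdT v x 1 2 - pdT v x 2 1, pdT v x 2 0 - pdT v x 0 2, pdT v x 0 1 - pdT v x 1 0]

/-- Continuously differentiable, periodic, divergence-free fields. -/
structure FldT (w : V → V) : Prop where
  c1 : ContDiff ℝ 1 w
  per : Per w
  div : ∀ x, divT w x = 0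

/-- Classical solutions on `[0, T)` of the Euler equations on the torus under the constraints
`∫ u · r i = 0`. -/
structure SolT {ι : Type} (r : ι → V → V) (T : ℝ) (u : ℝ → V → V) : Prop where
  c1 : ContDiffOn ℝ 1 (fun z : ℝ × V => u z.1 z.2) (Ico 0 T ×ˢ univ)
  per : ∀ t ∈ Ico 0 T, Per (u t)
  div : ∀ t ∈ Ico 0 T, ∀ x, divT (u t) x = 0
  con : ∀ t ∈ Ico 0 T, ∀ i, ipT (u t) (r i) = 0
  eqn : ∀ t ∈ Ico 0 T, ∀ w, FldT w → (∀ i, ipT w (r i) = 0) →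
    ipT (fun x => dtT T u t x + advT (u t) (u t) x) w = 0

/-- Reduction modulo `2π` to `[-π, π)³`. -/
noncomputable def rd (x : V) : V := fun i => x i - 2 * Real.pi * ⌊(x i + Real.pi) / (2 * Real.pi)⌋

/-- The periodic extension of a field which vanishes for `|y| ≥ 1`. -/
noncomputable def lft (v : E3 → E3) (x : V) : V := fun i => v (WithLp.toLp 2 (rd x)) i

/-- A field on `E3` as a field on `V`. -/
noncomputable def dn (v : E3 → E3) (x : V) : V := fun i => v (WithLp.toLp 2 x) i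

/-- A field on `V` as a field on `E3`. -/
noncomputable def up (w : V → V) (y : E3) : E3 := WithLp.toLp 2 (w (WithLp.ofLp y))

/-! ### Statements of the steps -/

/-- (E1) Building blocks. -/
def S_PE : Prop := ∃ (f g : E3 → ℝ) (a : ℝ), Pe f g a

/-- (E2) The table of the interactions. -/
def S_TBE : Prop := ∃ s₀ : ℝ, ∀ s ≥ s₀, ∃ (κ : ℝ) (P : E3 → E3) (r : Fin 2 → E3 → E3),
  TE s κ P (fm s r) ∧ ∀ k y, 1 ≤ ‖y‖ → r k y = 0

/-- (E3) Blow-up for the reduced system. -/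
def S_OE : Prop := ∃ s₀ : ℝ, ∀ s ≥ s₀, ∃ θ : ℝ, 0 < θ ∧ θ < 1 ∧ ∀ (m : ℕ) (a : ℕ → ℝ),
  0 < ∑ n ∈ Finset.range m, θ ^ n * a n → ∃ (T : ℝ) (x : ℕ → ℝ → ℝ), 0 < T ∧
    (∀ n, x n 0 = if n < m then a n else 0) ∧
    (∀ n, ∀ t ∈ Ico 0 T, HasDerivWithinAt (x n) (vqE s (fun k => x k t) n) (Ico 0 T) t) ∧
    RapT s T x ∧ ∀ M : ℝ, ∃ t ∈ Ico 0 T, ∃ n, M < s ^ (5 * n) * |x n t|

/-- (E4) Testing the nonlinear term. -/
def S_QE : Prop := ∀ (s κ : ℝ) (P : E3 → E3) (r : Fin 2 × ℕ → E3 → E3), 1 < s →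
  TE s κ P r → ∀ w, Continuous w → (∀ i, ip w (r i) = 0) → ∀ a, Rap s a →
  HasSum (fun n => -(κ * vqE s a n * ip w (pk s P n))) (ip w (adv (ser s P a) (ser s P a)))

/-- (E5a) Regularity in time of the right-hand side of the reduced system. -/
def S_VE : Prop := ∀ (s T : ℝ) (x : ℕ → ℝ → ℝ), 1 < s →
  (∀ n, ContinuousOn (x n) (Ico 0 T)) → RapT s T x →
  (∀ n, ContinuousOn (fun t => vqE s (fun m => x m t) n) (Ico 0 T)) ∧
  RapT s T (fun n t => vqE s (fun m => x m t) n)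

/-- (E5b) All time derivatives of the solution of the reduced system are rapidly decreasing. -/
def S_SME : Prop := ∀ (s T : ℝ) (x : ℕ → ℝ → ℝ), 1 < s → RapT s T x →
  (∀ n, ∀ t ∈ Ico 0 T, HasDerivWithinAt (x n) (vqE s (fun m => x m t) n) (Ico 0 T) t) →
  ∃ y : ℕ → ℕ → ℝ → ℝ, y 0 = x ∧ (∀ k, RapT s T (y k)) ∧
    ∀ k n, ∀ t ∈ Ico 0 T, HasDerivWithinAt (y k n) (y (k + 1) n t) (Ico 0 T) t

/-- (E6) Lower bound for the vorticity. -/
def S_LE : Prop := ∀ (s N : ℝ) (P : E3 → E3) (h : E3 → ℝ), 1 < s → ContDiff ℝ ∞ h →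
  (∀ y, 1 / 2 ≤ ‖y‖ → h y = 0) → P = sf h → 0 < N →
  (∀ m n, ip (pk s P m) (pk s P n) = if m = n then N else 0) →
  ∃ C : ℝ, 0 < C ∧ ∀ (a : ℕ → ℝ) (M : ℝ), Rap s a → (∀ y, |vz (ser s P a) y| ≤ M) →
    ∀ n, s ^ (5 * n) * |a n| ≤ C * M

/-- (E7a) Uniqueness. -/
def S_UNT : Prop := ∀ (ι : Type) (T : ℝ) (r : ι → V → V) (u v : ℝ → V → V),
  (∀ i, Continuous (r i)) → SolT r T u → SolT r T v → u 0 = v 0 → ∀ t ∈ Ico 0 T, u t = v t

/-- (E7b) Conservation of energy. -/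
def S_ENT : Prop := ∀ (ι : Type) (T : ℝ) (r : ι → V → V) (u : ℝ → V → V),
  SolT r T u → ∀ t ∈ Ico 0 T, ipT (u t) (u t) = ipT (u 0) (u 0)

/-- (E7c) The vorticity of classical solutions is bounded, locally uniformly in time. -/
def S_CPT : Prop := ∀ (ι : Type) (T T' : ℝ) (r : ι → V → V) (u : ℝ → V → V),
  SolT r T' u → T < T' → ∃ M, ∀ t ∈ Icc 0 T, ∀ x i, |curlT (u t) x i| ≤ M

/-- (E8) Periodic extension. -/
structure Lift : Prop where
  per : ∀ v : E3 → E3, Per (lft v)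
  sm : ∀ (T : ℝ) (u : ℝ → E3 → E3),
    ContDiffOn ℝ ∞ (fun z : ℝ × E3 => u z.1 z.2) (Ico 0 T ×ˢ univ) →
    (∀ t ∈ Ico 0 T, ∀ y, 1 ≤ ‖y‖ → u t y = 0) →
    ContDiffOn ℝ ∞ (fun z : ℝ × V => lft (u z.1) z.2) (Ico 0 T ×ˢ univ)
  dt : ∀ (T : ℝ) (u : ℝ → E3 → E3),
    ContDiffOn ℝ ∞ (fun z : ℝ × E3 => u z.1 z.2) (Ico 0 T ×ˢ univ) →
    ∀ t ∈ Ico 0 T, dtT T (fun τ => lft (u τ)) t = lft (dt T u t)
  fd : ∀ v : E3 → E3, ContDiff ℝ ∞ v → (∀ y, 1 ≤ ‖y‖ → v y = 0) → ∀ x h : V,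
    fderiv ℝ (lft v) x h = fun i => fderiv ℝ v (WithLp.toLp 2 (rd x)) (WithLp.toLp 2 h) i
  ip : ∀ (v : E3 → E3) (w : V → V), Continuous v → (∀ y, 1 ≤ ‖y‖ → v y = 0) → Continuous w →
    ipT (lft v) w = ip v (up w)
  ipd : ∀ (v : E3 → E3) (w : V → V), Continuous v → (∀ y, 1 ≤ ‖y‖ → v y = 0) → Continuous w →
    ipT w (dn v) = SC.ip (up w) v

end Pool.Agent.N976.EC
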