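import Pool.Agent.N976.EC.Def

/-!
# Euler: explicit reaction forces, definitions and statements
-/

open Set Filter Topology MeasureTheory
open scoped ContDiff

set_option autoImplicit false

namespace Pool.Agent.N976.EC

open Pool.Agent.N976.SC

/-- The pointwise form of the table of the interactions. -/
structure TPE (s κ : ℝ) (P : E3 → E3) (r : Fin 2 × ℕ → E3 → E3) : Prop where
  pd : ∀ n y, adv (pk s P n) (pk s P n) y =
    s ^ (8 * n) • r (0, n) y - (κ * s ^ (5 * n)) • pk s P (n + 1) y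
  pn : ∀ n y, adv (pk s P n) (pk s P (n + 1)) y + adv (pk s P (n + 1)) (pk s P n) y =
    s ^ (8 * n) • r (1, n) y + (κ * s ^ (5 * n)) • pk s P n y

/-- The reaction coefficients. -/
noncomputable def lamE (s : ℝ) (a : ℕ → ℝ) (p : Fin 2 × ℕ) : ℝ :=
  ![s ^ (8 * p.2) * a p.2 ^ 2, s ^ (8 * p.2) * a p.2 * a (p.2 + 1)] p.1

/-- (W1) The table, also in pointwise form. -/
def S_TBPE : Prop := ∃ s₀ : ℝ, ∀ s ≥ s₀, ∃ (κ : ℝ) (P : E3 → E3) (r : Fin 2 → E3 → E3),
  TE s κ P (fm s r) ∧ TPE s κ P (fm s r) ∧ ∀ k y, 1 ≤ ‖y‖ → r k y = 0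

/-- (W2) The residual is the sum of the reaction forces. -/
def S_REPE : Prop := ∀ (s κ : ℝ) (P : E3 → E3) (r : Fin 2 → E3 → E3), 1 < s →
  TE s κ P (fm s r) → TPE s κ P (fm s r) → (∀ k y, 1 ≤ ‖y‖ → r k y = 0) →
  ∀ a a' : ℕ → ℝ, Rap s a → Rap s a' → (∀ n, a' n = κ * vqE s a n) →
    ∀ y, HasSum (fun p => lamE s a p • fm s r p y)
      (ser s P a' y + adv (ser s P a) (ser s P a) y)

end Pool.Agent.N976.EC
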