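import Pool.Agent.N976.EC.Def
import Pool.Agent.N976.SC.T1
import Pool.Agent.N976.SC.T4a

/-!
# EC/U1: explicit building blocks (by helper891)
-/

set_option autoImplicit false

namespace Pool.Agent.N976.EC

open Pool.Agent.N976.SC

open Set Filter Topology MeasureTheory
open scoped ContDiff

namespace U1

open Pool.Agent.N976.SC.T1

/-- a product stream function -/
noncomputable def pf (a b c : ℝ → ℝ) (y : E3) : ℝ := a (y 0) * b (y 1) * c (y 2)

theorem pf_smooth {a b c : ℝ → ℝ} (ha : ContDiff ℝ ∞ a) (hb : ContDiff ℝ ∞ b)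
    (hc : ContDiff ℝ ∞ c) : ContDiff ℝ ∞ (pf a b c) :=
  ((ha.comp (co 0)).mul (hb.comp (co 1))).mul (hc.comp (co 2))

theorem dirD {f : E3 → ℝ} {y : E3} (hf : DifferentiableAt ℝ f y) (w : E3) :
    HasDerivAt (fun t : ℝ => f (y + t • w)) (fderiv ℝ f y w) 0 := by
  have h2 : HasDerivAt (fun t : ℝ => y + t • w) w 0 := by
    simpa using ((hasDerivAt_id (0 : ℝ)).smul_const w).const_add y
  have h3 : HasFDerivAt f (fderiv ℝ f y) (y + (0 : ℝ) • w) := by
    simpa using hf.hasFDerivAt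
  exact h3.comp_hasDerivAt 0 h2

theorem sf_pf {a b c : ℝ → ℝ} (ha : ContDiff ℝ ∞ a) (hb : ContDiff ℝ ∞ b)
    (hc : ContDiff ℝ ∞ c) : sf (pf a b c) = H a b c := by
  funext y
  have hd : DifferentiableAt ℝ (pf a b c) y := (pf_smooth ha hb hc).differentiable (by simp) y
  have e1 : fderiv ℝ (pf a b c) y (bv 1) = a (y 0) * deriv b (y 1) * c (y 2) := by
    refine (dirD hd (bv 1)).unique ?_
    have e : (fun t : ℝ => pf a b c (y + t • bv 1)) =
        fun t => a (y 0) * b (y 1 + t) * c (y 2) := by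
      funext t
      simp [pf, bv]
    rw [e]
    exact ((shift hb (y 1)).const_mul _).mul_const _
  have e0 : fderiv ℝ (pf a b c) y (bv 0) = deriv a (y 0) * b (y 1) * c (y 2) := by
    refine (dirD hd (bv 0)).unique ?_
    have e : (fun t : ℝ => pf a b c (y + t • bv 0)) =
        fun t => a (y 0 + t) * b (y 1) * c (y 2) := by
      funext t
      simp [pf, bv]
    rw [e]
    exact ((shift ha (y 0)).mul_const _).mul_const _
  unfold sf H
  rw [e1, e0]

theorem sf_smooth {f : E3 → ℝ} (hf : ContDiff ℝ ∞ f) : ContDiff ℝ ∞ (sf f) := by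
  have h : ∀ w : E3, ContDiff ℝ ∞ (fun y => fderiv ℝ f y w) := fun w =>
    (hf.fderiv_right (m := ∞) (by simp)).clm_apply contDiff_const
  rw [contDiff_euclidean]
  intro i
  fin_cases i
  · exact h (bv 1)
  · exact (h (bv 0)).neg
  · exact contDiff_const

/-- the large block -/
noncomputable def FF (y : E3) : ℝ := pf ff gg kb y

/-- the difference of two dilates -/
noncomputable def f0 (y : E3) : ℝ := FF y - (50 : ℝ)⁻¹ ^ 2 * FF ((50 : ℝ) • y)

/-- the small block -/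
noncomputable def g0 (y : E3) : ℝ := pf pp mm mm y

theorem FF_smooth : ContDiff ℝ ∞ FF := pf_smooth ff_q.sm gg_q.sm kb.contDiff

theorem f0_smooth : ContDiff ℝ ∞ f0 := by
  have h := FF_smooth
  unfold f0
  fun_prop

theorem FF_in {y : E3} (hy : ‖y‖ ≤ 1 / 10) : FF y = y 0 * y 1 := by
  have h0 := (abs_le_norm y 0).trans hy
  have h1 := (abs_le_norm y 1).trans hy
  have h2 := (abs_le_norm y 2).trans hy
  have e1 : gg (y 1) = y 1 := by
    unfold gg dil
    rw [ff_in]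
    · ring
    · rw [abs_mul, abs_of_pos (by norm_num : (0 : ℝ) < 1 / 2)]
      linarith [abs_nonneg (y 1)]
  unfold FF pf
  rw [ff_in h0, e1, one_of kb h2, mul_one]

theorem pf_out {a b : ℝ → ℝ} {c : ℝ → ℝ} {A B C R : ℝ} (ha : ∀ s, A ≤ |s| → a s = 0)
    (hb : ∀ s, B ≤ |s| → b s = 0)
    (hc : ∀ s, C ≤ |s| → c s = 0) (hR : A ^ 2 + B ^ 2 + C ^ 2 < R ^ 2) (hR0 : 0 ≤ R)
    {y : E3} (hy : R ≤ ‖y‖) : pf a b c y = 0 := by
  by_contra h
  unfold pf at h
  have a1 : |y 0| ≤ A := by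
    by_contra h4
    push Not at h4
    exact h (by rw [ha _ h4.le, zero_mul, zero_mul])
  have a2 : |y 1| ≤ B := by
    by_contra h4
    push Not at h4
    exact h (by rw [hb _ h4.le, mul_zero, zero_mul])
  have a3 : |y 2| ≤ C := by
    by_contra h4
    push Not at h4
    exact h (by rw [hc _ h4.le, mul_zero])
  have b1 := pow_le_pow_left₀ (abs_nonneg (y 0)) a1 2
  have b2 := pow_le_pow_left₀ (abs_nonneg (y 1)) a2 2
  have b3 := pow_le_pow_left₀ (abs_nonneg (y 2)) a3 2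
  rw [sq_abs] at b1 b2 b3
  have h5 := pow_le_pow_left₀ hR0 hy 2
  rw [nsq] at h5
  linarith

theorem FF_out {y : E3} (hy : 1 / 2 ≤ ‖y‖) : FF y = 0 :=
  pf_out (A := 1 / 5) (B := 2 / 5) (C := 1 / 5) (R := 1 / 2) ff_q.out gg_q.out
    (fun s hs => zero_of kb hs) (by norm_num) (by norm_num) hy

theorem n50 (y : E3) : ‖(50 : ℝ) • y‖ = 50 * ‖y‖ := by
  rw [norm_smul, Real.norm_of_nonneg (by norm_num)]

theorem f0_mid {y : E3} (h1 : 1 / 100 ≤ ‖y‖) (h2 : ‖y‖ ≤ 1 / 10) : f0 y = y 0 * y 1 := by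
  unfold f0
  rw [FF_in h2, FF_out (y := (50 : ℝ) • y) (by rw [n50]; linarith), mul_zero, sub_zero]

theorem g0_in {y : E3} (hy : ‖y‖ ≤ 1 / 50) : g0 y = 0 := by
  unfold g0 pf
  rw [pp_in ((abs_le_norm y 0).trans hy), zero_mul, zero_mul]

theorem g0_out {y : E3} (hy : 1 / 20 ≤ ‖y‖) : g0 y = 0 :=
  pf_out (A := 1 / 30) (B := 1 / 60) (C := 1 / 60) (R := 1 / 20) pp_q.out mm_q.out
    mm_q.out (by norm_num) (by norm_num) hy

theorem sf_zero {f : E3 → ℝ} {y : E3} (h : f =ᶠ[𝓝 y] fun _ => 0) : sf f y = 0 := by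
  unfold sf
  rw [h.fderiv_eq]
  ext i
  fin_cases i <;> simp

theorem psi_in {y : E3} (hy : ‖y‖ < 1 / 50) : sf g0 y = 0 := by
  refine sf_zero ?_
  have h2 : {x : E3 | ‖x‖ < 1 / 50} ∈ 𝓝 y := (isOpen_lt continuous_norm continuous_const).mem_nhds hy
  filter_upwards [h2] with x hx
  exact g0_in (le_of_lt hx)

theorem psi_out {y : E3} (hy : 1 / 20 < ‖y‖) : sf g0 y = 0 := by
  refine sf_zero ?_
  have h2 : {x : E3 | 1 / 20 < ‖x‖} ∈ 𝓝 y := (isOpen_lt continuous_const continuous_norm).mem_nhds hy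
  filter_upwards [h2] with x hx
  exact g0_out (le_of_lt hx)

theorem mid_open : IsOpen {x : E3 | 1 / 100 < ‖x‖ ∧ ‖x‖ < 1 / 10} :=
  (isOpen_lt continuous_const continuous_norm).inter (isOpen_lt continuous_norm continuous_const)

theorem phi_mid {y : E3} (h1 : 1 / 100 < ‖y‖) (h2 : ‖y‖ < 1 / 10) : sf f0 y = Am y := by
  have h3 : f0 =ᶠ[𝓝 y] fun z => z 0 * z 1 := by
    filter_upwards [mid_open.mem_nhds ⟨h1, h2⟩] with x hx
    exact f0_mid hx.1.le hx.2.le
  have hsm : ContDiff ℝ ∞ (fun z : E3 => z 0 * z 1) := (co 0).mul (co 1)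
  have hd : DifferentiableAt ℝ (fun z : E3 => z 0 * z 1) y := hsm.differentiable (by simp) y
  have e1 : fderiv ℝ (fun z : E3 => z 0 * z 1) y (bv 1) = y 0 := by
    refine (dirD hd (bv 1)).unique ?_
    have e : (fun t : ℝ => (fun z : E3 => z 0 * z 1) (y + t • bv 1)) =
        fun t => y 0 * (y 1 + t) := by
      funext t
      simp [bv]
    rw [e]
    simpa using ((hasDerivAt_id (0 : ℝ)).const_add (y 1)).const_mul (y 0)
  have e0 : fderiv ℝ (fun z : E3 => z 0 * z 1) y (bv 0) = y 1 := by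
    refine (dirD hd (bv 0)).unique ?_
    have e : (fun t : ℝ => (fun z : E3 => z 0 * z 1) (y + t • bv 0)) =
        fun t => (y 0 + t) * y 1 := by
      funext t
      simp [bv]
    rw [e]
    simpa using ((hasDerivAt_id (0 : ℝ)).const_add (y 0)).mul_const (y 1)
  unfold sf Am
  rw [h3.fderiv_eq, e1, e0]

theorem phi_fderiv {y : E3} (h1 : 1 / 100 < ‖y‖) (h2 : ‖y‖ < 1 / 10) (w : E3) :
    fderiv ℝ (sf f0) y w = Am w := by
  have h3 : sf f0 =ᶠ[𝓝 y] fun z => T4.AL z := by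
    filter_upwards [mid_open.mem_nhds ⟨h1, h2⟩] with x hx
    exact phi_mid hx.1 hx.2
  rw [h3.fderiv_eq, ContinuousLinearMap.fderiv]
  rfl

theorem neg : ip (adv (sf g0) (sf g0)) (sf f0) < 0 := by
  have hg : sf g0 = H pp mm mm := sf_pf pp_q.sm mm_q.sm mm_q.sm
  have hsg : ContDiff ℝ ∞ (sf g0) := sf_smooth (pf_smooth pp_q.sm mm_q.sm mm_q.sm)
  have hsf : ContDiff ℝ ∞ (sf f0) := sf_smooth f0_smooth
  have hSm : T4.Sm (sf g0) := T4.Sm.of_out hsg (R := 1) (fun y hy => psi_out (by linarith))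
  rw [T4.ip_adv_anti (hsg.of_le (by simp)) (hsg.of_le (by simp)) (hsf.of_le (by simp))
    (by rw [hg]; exact H_div pp_q.sm mm_q.sm mm_q.sm) (Or.inl hSm.cs)]
  have h1 : adv (sf g0) (sf f0) = fun y => Am (sf g0 y) := by
    funext y
    unfold adv
    have h0 : sf g0 y = 0 → fderiv ℝ (sf f0) y (sf g0 y) = Am (sf g0 y) := by
      intro h
      rw [h, map_zero]
      ext i
      fin_cases i <;> simp [Am]
    by_cases h2 : ‖y‖ < 1 / 50
    · exact h0 (psi_in h2)
    · by_cases h3 : 1 / 20 < ‖y‖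
      · exact h0 (psi_out h3)
      · push Not at h2 h3
        exact phi_fderiv (by linarith) (by linarith) _
  rw [h1, hg, neg_lt_zero, ip_H pp_q.sm mm_q.sm mm_q.sm pp_q.cs mm_q.cs mm_q.cs]
  unfold mm
  rw [dil_int (by norm_num), dil_int' (by norm_num) pp_q.sm]
  have h1 := pp_q.pos
  have h2 := pp_q.dpos
  have h3 := mul_pos (mul_pos h1 h2) h1
  norm_num
  nlinarith

end U1

open U1 T1 in
/-- **building blocks** -/
theorem t_PE : S_PE := by
  refine ⟨f0, g0, 1 / 500, ?_⟩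
  constructor
  · exact f0_smooth
  · exact pf_smooth pp_q.sm mm_q.sm mm_q.sm
  · intro y
    have h : ∀ y, FF (-y) = FF y := by
      intro y
      simp [FF, pf, ff_q.odd, gg_q.odd, kb.neg]
    unfold f0
    rw [smul_neg, h, h]
  · intro y
    simp [g0, pf, pp_q.odd, mm_q.odd]
  · norm_num
  · intro y hy
    unfold f0
    rw [FF_in (by linarith), FF_in (by rw [n50]; linarith)]
    simp
    ring
  · intro y hy
    exact g0_in (by linarith)
  · intro y hy
    unfold f0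
    rw [FF_out hy, FF_out (by rw [n50]; linarith)]
    simp
  · intro y hy
    exact g0_out (by linarith)
  · exact neg

end Pool.Agent.N976.EC
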