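import Pool.Agent.N976.EC.Def
import Pool.Agent.N976.SC.T4b

/-! (E2) The interactions of the packets `pk s P n`, `P = sf f + pk s (sf g) 1`. -/

open Set Filter Topology MeasureTheory
open scoped ContDiff

set_option autoImplicit false

namespace Pool.Agent.N976.EC

open Pool.Agent.N976.SC

namespace U2

open Pool.Agent.N976.SC.T4

/-! ### The field `sf f` -/

/-- `φ ↦ (φ e₁, -φ e₀, 0)` -/
noncomputable def JL : (E3 →L[ℝ] ℝ) →L[ℝ] E3 :=
  (ContinuousLinearMap.apply ℝ ℝ (bv 1)).smulRight (bv 0) -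
    (ContinuousLinearMap.apply ℝ ℝ (bv 0)).smulRight (bv 1)

lemma sf_eq (f : E3 → ℝ) (y : E3) : sf f y = JL (fderiv ℝ f y) := by
  ext i
  fin_cases i <;> simp [sf, JL, bv]

lemma cd_fd {f : E3 → ℝ} (h : ContDiff ℝ ∞ f) : ContDiff ℝ ∞ (fderiv ℝ f) :=
  h.fderiv_right (by simp)

lemma cd_sf {f : E3 → ℝ} (h : ContDiff ℝ ∞ f) : ContDiff ℝ ∞ (sf f) := by
  have e : sf f = fun y => JL (fderiv ℝ f y) := funext (sf_eq f)
  rw [e]
  exact JL.contDiff.comp (cd_fd h)

lemma div_sf {f : E3 → ℝ} (h : ContDiff ℝ ∞ f) (y : E3) : divg (sf f) y = 0 := by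
  have e : sf f = fun y => JL (fderiv ℝ f y) := funext (sf_eq f)
  have hd : Differentiable ℝ (fderiv ℝ f) := (cd_fd h).differentiable (by simp)
  have h1 : fderiv ℝ (sf f) y = JL.comp (fderiv ℝ (fderiv ℝ f) y) := by
    rw [e]
    exact (JL.hasFDerivAt.comp y (hd y).hasFDerivAt).fderiv
  have hsym : IsSymmSndFDerivAt ℝ f y :=
    (h.contDiffAt (x := y)).isSymmSndFDerivAt (by
      rw [minSmoothness_of_isRCLikeNormedField]
      exact ENat.LEInfty.out)
  have h2 := hsym (bv 0) (bv 1)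
  unfold divg
  rw [h1]
  simp only [bv] at h2
  simp [JL, bv]
  rw [h2]
  ring

lemma fd_zero {f : E3 → ℝ} {U : Set E3} (hU : IsOpen U) (h0 : ∀ y ∈ U, f y = 0) {y : E3}
    (hy : y ∈ U) : fderiv ℝ f y = 0 := by
  have h1 : f =ᶠ[𝓝 y] fun _ => 0 := by
    filter_upwards [hU.mem_nhds hy] with z hz
    exact h0 z hz
  rw [h1.fderiv_eq]
  simp

lemma sf_in {f : E3 → ℝ} {a : ℝ} (h0 : ∀ y, ‖y‖ ≤ a → f y = 0) {y : E3} (hy : ‖y‖ < a) :
    sf f y = 0 := by
  have h1 : IsOpen {y : E3 | ‖y‖ < a} := isOpen_lt continuous_norm continuous_const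
  rw [sf_eq, fd_zero h1 (fun z hz => h0 z (le_of_lt hz)) hy, map_zero]

lemma sf_out' {f : E3 → ℝ} {b : ℝ} (h0 : ∀ y, b ≤ ‖y‖ → f y = 0) {y : E3} (hy : b < ‖y‖) :
    sf f y = 0 := by
  have h1 : IsOpen {y : E3 | b < ‖y‖} := isOpen_lt continuous_const continuous_norm
  rw [sf_eq, fd_zero h1 (fun z hz => h0 z (le_of_lt hz)) hy, map_zero]

lemma sf_out {f : E3 → ℝ} (h : ContDiff ℝ ∞ f) {b : ℝ} (hb : 0 < b)
    (h0 : ∀ y, b ≤ ‖y‖ → f y = 0) (y : E3) (hy : b ≤ ‖y‖) : sf f y = 0 := by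
  have hc : Continuous (fun t : ℝ => sf f (t • y)) := (cd_sf h).continuous.comp (by fun_prop)
  have h1 : Tendsto (fun t : ℝ => sf f (t • y)) (𝓝[>] 1) (𝓝 (sf f ((1 : ℝ) • y))) :=
    (hc.tendsto 1).mono_left nhdsWithin_le_nhds
  have h2 : ∀ᶠ t : ℝ in 𝓝[>] 1, sf f (t • y) = 0 := by
    filter_upwards [self_mem_nhdsWithin] with t ht
    have ht' : (1 : ℝ) < t := ht
    refine sf_out' h0 ?_
    rw [norm_smul, Real.norm_of_nonneg (by linarith)]
    nlinarith
  have h3 : Tendsto (fun t : ℝ => sf f (t • y)) (𝓝[>] 1) (𝓝 0) :=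
    tendsto_const_nhds.congr' (h2.mono fun t ht => ht.symm)
  have := tendsto_nhds_unique h1 h3
  rwa [one_smul] at this

lemma fd_even {f : E3 → ℝ} (hf : Differentiable ℝ f) (he : ∀ y, f (-y) = f y) (y : E3) :
    fderiv ℝ f (-y) = -fderiv ℝ f y := by
  have h1 : HasFDerivAt f (fderiv ℝ f (-y)) (-y) := (hf _).hasFDerivAt
  have h2 : HasFDerivAt (fun y : E3 => -y) (-ContinuousLinearMap.id ℝ E3) y :=
    (hasFDerivAt_id (𝕜 := ℝ) y).fun_neg
  have h3 := h1.comp y h2
  have e : f ∘ (fun y : E3 => -y) = f := by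
    ext1 z
    exact he z
  rw [e] at h3
  rw [h3.fderiv]
  ext1 z
  simp

lemma fd_odd {f : E3 → ℝ} (hf : Differentiable ℝ f) (he : ∀ y, f (-y) = -f y) (y : E3) :
    fderiv ℝ f (-y) = fderiv ℝ f y := by
  have h1 : HasFDerivAt f (fderiv ℝ f (-y)) (-y) := (hf _).hasFDerivAt
  have h2 : HasFDerivAt (fun y : E3 => -y) (-ContinuousLinearMap.id ℝ E3) y :=
    (hasFDerivAt_id (𝕜 := ℝ) y).fun_neg
  have h3 := h1.comp y h2
  have e : f ∘ (fun y : E3 => -y) = fun y => -f y := by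
    ext1 z
    exact he z
  rw [e] at h3
  have h4 := h3.neg.fderiv
  have e2 : (-fun y => -f y) = f := by
    ext1 z
    simp
  rw [e2] at h4
  rw [h4]
  ext1 z
  simp

lemma sf_of_even {f : E3 → ℝ} (hf : Differentiable ℝ f) (he : ∀ y, f (-y) = f y) (y : E3) :
    sf f (-y) = -sf f y := by
  rw [sf_eq, sf_eq, fd_even hf he, map_neg]

lemma sf_of_odd {f : E3 → ℝ} (hf : Differentiable ℝ f) (he : ∀ y, f (-y) = -f y) (y : E3) :
    sf f (-y) = sf f y := by
  rw [sf_eq, sf_eq, fd_odd hf he]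

lemma sf_add_dl {f g : E3 → ℝ} (hf : ContDiff ℝ ∞ f) (hg : ContDiff ℝ ∞ g) (s : ℝ) :
    sf (fun y => f y + s * g (s ^ 2 • y)) = fun y => sf f y + pk s (sf g) 1 y := by
  ext1 y
  have hfd : Differentiable ℝ f := hf.differentiable (by simp)
  have hgd : Differentiable ℝ g := hg.differentiable (by simp)
  have h1 : HasFDerivAt (fun y : E3 => s ^ 2 • y) (s ^ 2 • ContinuousLinearMap.id ℝ E3) y :=
    (hasFDerivAt_id (𝕜 := ℝ) y).fun_const_smul (s ^ 2)
  have h2 : HasFDerivAt (fun y : E3 => g (s ^ 2 • y))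
      ((fderiv ℝ g (s ^ 2 • y)).comp (s ^ 2 • ContinuousLinearMap.id ℝ E3)) y :=
    (hgd (s ^ 2 • y)).hasFDerivAt.comp y h1
  have h3 := ((hfd y).hasFDerivAt.fun_add (h2.const_mul s)).fderiv
  rw [sf_eq, h3, map_add, ← sf_eq]
  congr 1
  unfold pk
  rw [sf_eq, ← map_smul]
  congr 1
  ext1 z
  simp
  ring

/-! ### Shells -/

/-- outside of the shell of the scale `n` -/
def Z (s a : ℝ) (n : ℕ) (y : E3) : Prop := s ^ (2 * n) * ‖y‖ < a ∨ 1 / 2 < s ^ (2 * n) * ‖y‖

/-- the value and the derivative vanish -/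
def Of (v : E3 → E3) (y : E3) : Prop := v y = 0 ∧ fderiv ℝ v y = 0

lemma Z_or {s a : ℝ} (hs : 1 < s) (ha : 1 / 2 < a * s ^ 2) {m n : ℕ} (hmn : m ≠ n) (y : E3) :
    Z s a m y ∨ Z s a n y := by
  have key : ∀ m n : ℕ, m < n → Z s a m y ∨ Z s a n y := by
    intro m n h
    by_contra hc
    unfold Z at hc
    push Not at hc
    obtain ⟨⟨h1, -⟩, -, h2⟩ := hc
    have h3 : s ^ (2 * m) * s ^ 2 ≤ s ^ (2 * n) := by
      rw [← pow_add]
      exact pow_le_pow_right₀ hs.le (by omega)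
    have h4 : s ^ 2 * a ≤ s ^ 2 * (s ^ (2 * m) * ‖y‖) :=
      mul_le_mul_of_nonneg_left h1 (by positivity)
    have h5 : s ^ (2 * m) * s ^ 2 * ‖y‖ ≤ s ^ (2 * n) * ‖y‖ :=
      mul_le_mul_of_nonneg_right h3 (norm_nonneg y)
    nlinarith
  rcases lt_or_gt_of_ne hmn with h | h
  · exact key m n h
  · exact (key n m h).symm

lemma of_pk {s a : ℝ} (hs : 1 < s) {v : E3 → E3} (h1 : ∀ y, ‖y‖ < a → v y = 0)
    (h2 : ∀ y, 1 / 2 ≤ ‖y‖ → v y = 0) {n : ℕ} {y : E3} (hy : Z s a n y) : Of (pk s v n) y := by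
  have h0 : ∀ z, Z s a n z → pk s v n z = 0 := by
    intro z hz
    have hp : (0 : ℝ) < s ^ (2 * n) := by positivity
    unfold pk
    rcases hz with hz | hz
    · rw [h1 _ (by rwa [norm_smul, Real.norm_of_nonneg hp.le]), smul_zero]
    · rw [h2 _ (by rw [norm_smul, Real.norm_of_nonneg hp.le]; exact hz.le), smul_zero]
  have hU : IsOpen {z : E3 | Z s a n z} := (open_lt (s ^ (2 * n)) a).union (open_gt _ _)
  exact ⟨h0 y hy, fderiv_zero_of hU h0 hy⟩

lemma ip_zero {v w : E3 → E3} (h : ∀ y, inner ℝ (v y) (w y) = 0) : ip v w = 0 := by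
  unfold ip
  simp only [h, integral_zero]

lemma ip_congr {v w v' w' : E3 → E3} (h : ∀ y, inner ℝ (v y) (w y) = inner ℝ (v' y) (w' y)) :
    ip v w = ip v' w' := by
  unfold ip
  simp only [h]

lemma ip_scale {s : ℝ} (hs : 0 < s) {u v w : E3 → E3} (hv : Differentiable ℝ v) (n : ℕ) :
    ip (adv (pk s u n) (pk s v n)) (pk s w n) = s ^ (5 * n) * ip (adv u v) w := by
  rw [adv_pk hv, pk_eq, ip_smul, ip_smul_left, ← ip_dl hs n (adv u v) w]
  ring

/-! ### The packets -/

section main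

variable {f g : E3 → ℝ} {a s : ℝ}

/-- the packet -/
noncomputable def PF (f g : E3 → ℝ) (s : ℝ) (y : E3) : E3 := sf f y + pk s (sf g) 1 y

lemma sA (h : Pe f g a) : Sm (sf f) := Sm.of_out (cd_sf h.smf) (sf_out h.smf (by norm_num) h.outF)

lemma sB (h : Pe f g a) : Sm (sf g) := Sm.of_out (cd_sf h.smg) (sf_out h.smg (by norm_num) h.outG)

lemma sAn (h : Pe f g a) (hs : 1 < s) (n : ℕ) : Sm (pk s (sf f) n) := (sA h).pk (by linarith) n

lemma sBn (h : Pe f g a) (hs : 1 < s) (n : ℕ) : Sm (pk s (sf g) n) := (sB h).pk (by linarith) n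

lemma sP (h : Pe f g a) (hs : 1 < s) : Sm (PF f g s) := (sA h).add (sBn h hs 1)

lemma sPn (h : Pe f g a) (hs : 1 < s) (n : ℕ) : Sm (pk s (PF f g s) n) :=
  (sP h hs).pk (by linarith) n

lemma ofA (h : Pe f g a) (hs : 1 < s) {n : ℕ} {y : E3} (hy : Z s a n y) : Of (pk s (sf f) n) y :=
  of_pk hs (fun _ => sf_in h.inF) (sf_out h.smf (by norm_num) h.outF) hy

lemma ofB (h : Pe f g a) (hs : 1 < s) {n : ℕ} {y : E3} (hy : Z s a n y) : Of (pk s (sf g) n) y :=
  of_pk hs (fun _ => sf_in h.inG) (sf_out h.smg (by norm_num) h.outG) hy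

lemma A_odd (h : Pe f g a) (n : ℕ) (y : E3) : pk s (sf f) n (-y) = -pk s (sf f) n y := by
  unfold pk
  rw [smul_neg, sf_of_even (h.smf.differentiable (by simp)) h.evf, smul_neg]

lemma B_even (h : Pe f g a) (n : ℕ) (y : E3) : pk s (sf g) n (-y) = pk s (sf g) n y := by
  unfold pk
  rw [smul_neg, sf_of_odd (h.smg.differentiable (by simp)) h.odg]

lemma P_n (n : ℕ) (y : E3) :
    pk s (PF f g s) n y = pk s (sf f) n y + pk s (sf g) (n + 1) y := by
  have h1 : pk s (sf g) (n + 1) y = pk s (pk s (sf g) 1) n y := by rw [pk_pk]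
  rw [h1]
  simp only [pk, PF, smul_add]

lemma dP_n (h : Pe f g a) (hs : 1 < s) (n : ℕ) (y : E3) :
    fderiv ℝ (pk s (PF f g s) n) y =
      fderiv ℝ (pk s (sf f) n) y + fderiv ℝ (pk s (sf g) (n + 1)) y := by
  have e : pk s (PF f g s) n = fun y => pk s (sf f) n y + pk s (sf g) (n + 1) y :=
    funext (P_n n)
  rw [e]
  exact (((sAn h hs n).diff y).hasFDerivAt.fun_add ((sBn h hs (n + 1)).diff y).hasFDerivAt).fderiv

lemma P_out' (h : Pe f g a) (hs : 1 < s) (y : E3) (hy : 1 / 2 ≤ ‖y‖) : PF f g s y = 0 := by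
  unfold PF
  have h1 : 1 / 2 ≤ s ^ (2 * 1) * ‖y‖ := by
    have : 1 ≤ s ^ (2 * 1) := one_le_pow₀ hs.le
    nlinarith [norm_nonneg y]
  rw [sf_out h.smf (by norm_num) h.outF y hy,
    pk_out (sf_out h.smg (by norm_num) h.outG) hs 1 y h1, add_zero]

/-- the potential of the packet -/
lemma P_pot (h : Pe f g a) : PF f g s = sf (fun y => f y + s * g (s ^ 2 • y)) :=
  (sf_add_dl h.smf h.smg s).symm

lemma pot_sm (h : Pe f g a) : ContDiff ℝ ∞ (fun y => f y + s * g (s ^ 2 • y)) := by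
  have h1 := h.smf
  have h2 := h.smg
  fun_prop

lemma pot_out (h : Pe f g a) (hs : 1 < s) (y : E3) (hy : 1 / 2 ≤ ‖y‖) :
    f y + s * g (s ^ 2 • y) = 0 := by
  have h1 : 1 / 2 ≤ ‖s ^ 2 • y‖ := by
    rw [norm_smul, Real.norm_of_nonneg (by positivity)]
    have : 1 ≤ s ^ 2 := one_le_pow₀ hs.le
    nlinarith [norm_nonneg y]
  rw [h.outF y hy, h.outG _ h1]
  ring

lemma div_P' (h : Pe f g a) (y : E3) : divg (PF f g s) y = 0 := by
  rw [P_pot h]
  exact div_sf (pot_sm h) y

lemma div_Pn (h : Pe f g a) (hs : 1 < s) (n : ℕ) (y : E3) : divg (pk s (PF f g s) n) y = 0 :=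
  divg_pk (sP h hs).diff (div_P' h) n y

lemma of_P (h : Pe f g a) (hs : 1 < s) {n : ℕ} {y : E3} (h1 : Z s a n y) (h2 : Z s a (n + 1) y) :
    Of (pk s (PF f g s) n) y := by
  refine ⟨?_, ?_⟩
  · rw [P_n, (ofA h hs h1).1, (ofB h hs h2).1, add_zero]
  · rw [dP_n h hs, (ofA h hs h1).2, (ofB h hs h2).2, add_zero]

lemma of_or (h : Pe f g a) (hs : 1 < s) (ha : 1 / 2 < a * s ^ 2) {m n : ℕ} (hmn : m + 2 ≤ n)
    (y : E3) : Of (pk s (PF f g s) m) y ∨ Of (pk s (PF f g s) n) y := by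
  by_cases h1 : Z s a m y
  · by_cases h2 : Z s a (m + 1) y
    · exact Or.inl (of_P h hs h1 h2)
    · exact Or.inr (of_P h hs ((Z_or hs ha (by omega) y).resolve_left h2)
        ((Z_or hs ha (by omega) y).resolve_left h2))
  · exact Or.inr (of_P h hs ((Z_or hs ha (by omega) y).resolve_left h1)
        ((Z_or hs ha (by omega) y).resolve_left h1))

/-- trilinear expressions which contain two disjoint packets vanish -/
lemma tri_zero (h : Pe f g a) (hs : 1 < s) (ha : 1 / 2 < a * s ^ 2) {k m n : ℕ}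
    (hmn : k + 2 ≤ m ∨ m + 2 ≤ k ∨ k + 2 ≤ n ∨ n + 2 ≤ k ∨ m + 2 ≤ n ∨ n + 2 ≤ m) :
    ip (adv (pk s (PF f g s) k) (pk s (PF f g s) m)) (pk s (PF f g s) n) = 0 := by
  refine ip_zero fun y => ?_
  have key : Of (pk s (PF f g s) k) y ∨ Of (pk s (PF f g s) m) y ∨ Of (pk s (PF f g s) n) y := by
    rcases hmn with q | q | q | q | q | q
    · have := of_or h hs ha q y
      tauto
    · have := of_or h hs ha q y
      tauto
    · have := of_or h hs ha q y
      tauto
    · have := of_or h hs ha q y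
      tauto
    · have := of_or h hs ha q y
      tauto
    · have := of_or h hs ha q y
      tauto
  unfold adv
  rcases key with q | q | q
  · rw [q.1, map_zero, inner_zero_left]
  · rw [q.2]
    simp
  · rw [q.1, inner_zero_right]

/-- the self-interaction, tested with the next packet -/
lemma tri_up (h : Pe f g a) (hs : 1 < s) (ha : 1 / 2 < a * s ^ 2) (n : ℕ) :
    ip (adv (pk s (PF f g s) n) (pk s (PF f g s) n)) (pk s (PF f g s) (n + 1)) =
      s ^ (5 * (n + 1)) * ip (adv (sf g) (sf g)) (sf f) := by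
  rw [← ip_scale (by linarith) (sB h).diff]
  refine ip_congr fun y => ?_
  unfold adv
  rw [P_n, P_n, dP_n h hs]
  by_cases h1 : Z s a (n + 1) y
  · rw [(ofA h hs h1).1, (ofB h hs h1).1, (ofB h hs h1).2]
    rcases Z_or hs ha (show n ≠ n + 1 + 1 by omega) y with h2 | h2
    · rw [(ofA h hs h2).1]
      simp
    · rw [(ofB h hs h2).1]
      simp
  · have h2 : Z s a n y := (Z_or hs ha (by omega) y).resolve_left h1
    have h3 : Z s a (n + 1 + 1) y := (Z_or hs ha (by omega) y).resolve_left h1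
    rw [(ofA h hs h2).1, (ofA h hs h2).2, (ofB h hs h3).1, zero_add, zero_add, add_zero]

/-- the self-interaction, tested with the previous packet -/
lemma tri_down (h : Pe f g a) (hs : 1 < s) (ha : 1 / 2 < a * s ^ 2) (n : ℕ) :
    ip (adv (pk s (PF f g s) (n + 1)) (pk s (PF f g s) (n + 1))) (pk s (PF f g s) n) = 0 := by
  have h0 : ip (adv (pk s (PF f g s) (n + 1)) (pk s (PF f g s) (n + 1))) (pk s (PF f g s) n) =
      ip (adv (pk s (sf f) (n + 1)) (pk s (sf f) (n + 1))) (pk s (sf g) (n + 1)) := by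
    refine ip_congr fun y => ?_
    unfold adv
    rw [P_n, P_n, dP_n h hs]
    by_cases h1 : Z s a (n + 1) y
    · rw [(ofA h hs h1).1, (ofB h hs h1).1, (ofA h hs h1).2]
      rcases Z_or hs ha (show n ≠ n + 1 + 1 by omega) y with h2 | h2
      · rw [(ofA h hs h2).1]
        simp
      · rw [(ofB h hs h2).1]
        simp
    · have h2 : Z s a n y := (Z_or hs ha (by omega) y).resolve_left h1
      have h3 : Z s a (n + 1 + 1) y := (Z_or hs ha (by omega) y).resolve_left h1
      rw [(ofA h hs h2).1, (ofB h hs h3).1, (ofB h hs h3).2, zero_add, add_zero, add_zero]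
  rw [h0]
  unfold ip adv
  refine int_odd fun y => ?_
  rw [B_even h, A_odd h, fderiv_odd (sAn h hs (n + 1)).diff (A_odd h (n + 1)), map_neg,
    inner_neg_left]

lemma anti (h : Pe f g a) (hs : 1 < s) (k m n : ℕ) :
    ip (adv (pk s (PF f g s) k) (pk s (PF f g s) m)) (pk s (PF f g s) n) =
      -ip (adv (pk s (PF f g s) k) (pk s (PF f g s) n)) (pk s (PF f g s) m) :=
  ip_adv_anti ((sPn h hs k).sm.of_le (by simp)) ((sPn h hs m).sm.of_le (by simp))
    ((sPn h hs n).sm.of_le (by simp)) (div_Pn h hs k) (Or.inl (sPn h hs m).cs)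

lemma norm_ne (h : Pe f g a) (hs : 1 < s) (ha : 1 / 2 < a * s ^ 2) {m n : ℕ} (hmn : m ≠ n) :
    ip (pk s (PF f g s) m) (pk s (PF f g s) n) = 0 := by
  have key : ∀ y, inner ℝ (pk s (PF f g s) m y) (pk s (PF f g s) n y) =
      inner ℝ (pk s (sf f) m y) (pk s (sf g) (n + 1) y) +
        inner ℝ (pk s (sf g) (m + 1) y) (pk s (sf f) n y) := by
    intro y
    rw [P_n, P_n, inner_add_left, inner_add_right, inner_add_right]
    have h1 : inner ℝ (pk s (sf f) m y) (pk s (sf f) n y) = 0 := by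
      rcases Z_or hs ha hmn y with q | q
      · rw [(ofA h hs q).1, inner_zero_left]
      · rw [(ofA h hs q).1, inner_zero_right]
    have h2 : inner ℝ (pk s (sf g) (m + 1) y) (pk s (sf g) (n + 1) y) = 0 := by
      rcases Z_or hs ha (show m + 1 ≠ n + 1 by omega) y with q | q
      · rw [(ofB h hs q).1, inner_zero_left]
      · rw [(ofB h hs q).1, inner_zero_right]
    rw [h1, h2]
    ring
  unfold ip
  simp only [key]
  refine int_odd fun y => ?_
  rw [A_odd h, A_odd h, B_even h, B_even h, inner_neg_left, inner_neg_right]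
  ring

lemma norm_pos (h : Pe f g a) (hs : 1 < s) (ha : 1 / 2 < a * s ^ 2) :
    0 < ip (PF f g s) (PF f g s) := by
  have h1 : ∃ y, sf f y ≠ 0 := by
    by_contra hc
    push Not at hc
    have := h.neg
    rw [ip_zero (fun y => by rw [hc y, inner_zero_right])] at this
    exact lt_irrefl _ this
  obtain ⟨y, hy⟩ := h1
  have hz : ¬ Z s a 0 y := by
    intro hz
    have := (ofA h hs hz).1
    rw [pk_zero] at this
    exact hy this
  have hz1 : Z s a 1 y := (Z_or hs ha (by omega) y).resolve_left hz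
  have h2 : PF f g s y ≠ 0 := by
    unfold PF
    rw [(ofB h hs hz1).1, add_zero]
    exact hy
  have hS := sP h hs
  unfold ip
  refine Continuous.integral_pos_of_hasCompactSupport_nonneg_nonzero (x := y)
    (hS.sm.continuous.inner hS.sm.continuous) ?_ ?_ ?_
  · refine hS.cs.mono ?_
    intro z hz
    simp only [Function.mem_support] at hz ⊢
    intro h0
    exact hz (by rw [h0, inner_zero_right])
  · intro z
    exact real_inner_self_nonneg
  · simpa using h2

end main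

end U2

open U2 T4 in
theorem t_TBE : S_PE → S_TBE := by
  rintro ⟨f, g, a, h⟩
  have ha0 := h.a0
  refine ⟨2 + a⁻¹, fun s hs => ?_⟩
  have hainv : 0 < a⁻¹ := inv_pos.2 ha0
  have hs1 : 1 < s := by linarith
  have hs0 : 0 < s := by linarith
  have ha : 1 / 2 < a * s ^ 2 := by
    have h1 : a⁻¹ ≤ s := by linarith
    have h2 : 1 ≤ a * s := by
      calc (1 : ℝ) = a * a⁻¹ := (mul_inv_cancel₀ ha0.ne').symm
        _ ≤ a * s := mul_le_mul_of_nonneg_left h1 ha0.le
    nlinarith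
  set P := PF f g s with hP
  set N := ip P P with hN
  have hN0 : 0 < N := norm_pos h hs1 ha
  set κ := -(s ^ 5 * ip (adv (sf g) (sf g)) (sf f)) / N with hκ
  have hκ0 : 0 < κ := by
    have h1 := h.neg
    have h2 : 0 < s ^ 5 := by positivity
    exact div_pos (by nlinarith) hN0
  have hκN : κ * N = -(s ^ 5 * ip (adv (sf g) (sf g)) (sf f)) := by
    rw [hκ]
    field_simp
  have hSP : Sm P := sP h hs1
  have hSn : ∀ n, Sm (pk s P n) := sPn h hs1
  set r0 : E3 → E3 := fun y => adv P P y + κ • pk s P 1 y with hr0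
  set r1 : E3 → E3 := fun y => (adv P (pk s P 1) y + adv (pk s P 1) P y) - κ • P y with hr1
  have hS0 : Sm r0 := (hSP.adv hSP.sm).add ((hSn 1).smul κ)
  have hS1 : Sm r1 := ((hSP.adv (hSn 1).sm).add ((hSn 1).adv hSP.sm)).sub (hSP.smul κ)
  set r : Fin 2 → E3 → E3 := ![r0, r1] with hr
  have hSr : ∀ k, Sm (r k) := by
    intro k
    fin_cases k
    · exact hS0
    · exact hS1
  have hSf : ∀ i, Sm (fm s r i) := fun i => (hSr i.1).dl hs0 i.2
  have hPP : ∀ n y, pk s P (n + 1) y = pk s (pk s P 1) n y := by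
    intro n y
    rw [pk_pk]
  have hPP' : ∀ n, pk s P (n + 1) = pk s (pk s P 1) n := fun n => funext (hPP n)
  have key0 : ∀ n, (fun y => s ^ (8 * n) • fm s r (0, n) y) =
      fun y => adv (pk s P n) (pk s P n) y + (κ * s ^ (5 * n)) • pk s P (n + 1) y := by
    intro n
    ext1 y
    rw [hPP, adv_pk hSP.diff]
    show s ^ (8 * n) • (adv P P (s ^ (2 * n) • y) + κ • pk s P 1 (s ^ (2 * n) • y)) =
      s ^ (8 * n) • adv P P (s ^ (2 * n) • y) +
        (κ * s ^ (5 * n)) • (s ^ (3 * n) • pk s P 1 (s ^ (2 * n) • y))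
    rw [smul_add, smul_smul, smul_smul]
    congr 2
    ring
  have key1 : ∀ n, (fun y => s ^ (8 * n) • fm s r (1, n) y) =
      fun y => (adv (pk s P n) (pk s P (n + 1)) y + adv (pk s P (n + 1)) (pk s P n) y) -
        (κ * s ^ (5 * n)) • pk s P n y := by
    intro n
    ext1 y
    rw [hPP', adv_pk hSP.diff, adv_pk (hSn 1).diff]
    show s ^ (8 * n) • ((adv P (pk s P 1) (s ^ (2 * n) • y) + adv (pk s P 1) P (s ^ (2 * n) • y))
        - κ • P (s ^ (2 * n) • y)) =
      (s ^ (8 * n) • adv P (pk s P 1) (s ^ (2 * n) • y) +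
        s ^ (8 * n) • adv (pk s P 1) P (s ^ (2 * n) • y)) -
        (κ * s ^ (5 * n)) • (s ^ (3 * n) • P (s ^ (2 * n) • y))
    rw [smul_sub, smul_add, smul_smul, smul_smul]
    congr 2
    ring
  have e0 : ∀ w, Continuous w → ∀ n, s ^ (8 * n) * ip w (fm s r (0, n)) =
      ip w (adv (pk s P n) (pk s P n)) + κ * s ^ (5 * n) * ip w (pk s P (n + 1)) := by
    intro w hw n
    rw [← ip_smul, key0, ip_add hw ((hSn n).adv (hSn n).sm) ((hSn (n + 1)).smul _), ip_smul]
  have e1 : ∀ w, Continuous w → ∀ n, s ^ (8 * n) * ip w (fm s r (1, n)) =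
      (ip w (adv (pk s P n) (pk s P (n + 1))) + ip w (adv (pk s P (n + 1)) (pk s P n))) -
        κ * s ^ (5 * n) * ip w (pk s P n) := by
    intro w hw n
    rw [← ip_smul, key1, ip_sub hw (((hSn n).adv (hSn (n + 1)).sm).add
      ((hSn (n + 1)).adv (hSn n).sm)) ((hSn n).smul _), ip_smul,
      ip_add hw ((hSn n).adv (hSn (n + 1)).sm) ((hSn (n + 1)).adv (hSn n).sm)]
  have hnorm : ∀ m n, ip (pk s P m) (pk s P n) = if m = n then N else 0 := by
    intro m n
    split_ifs with hmn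
    · subst hmn
      exact ip_pk hs0 m P P
    · exact norm_ne h hs1 ha hmn
  -- the self-interactions
  have hself : ∀ m n, ip (pk s P m) (adv (pk s P n) (pk s P n)) =
      if m = n + 1 then -(κ * s ^ (5 * n) * N) else 0 := by
    intro m n
    rw [ip_comm]
    split_ifs with hmn
    · subst hmn
      rw [hP, tri_up h hs1 ha]
      have : κ * s ^ (5 * n) * N = s ^ (5 * n) * (κ * N) := by ring
      rw [this, hκN]
      ring
    · rcases Nat.lt_trichotomy m n with q | q | q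
      · by_cases hq : n = m + 1
        · subst hq
          exact tri_down h hs1 ha m
        · exact tri_zero h hs1 ha (by omega)
      · subst q
        have := anti h hs1 m m m
        rw [← hP] at this
        linarith
      · exact tri_zero h hs1 ha (by omega)
  have horth : ∀ m i, ip (pk s P m) (fm s r i) = 0 := by
    rintro m ⟨k, n⟩
    have hpow : s ^ (8 * n) ≠ 0 := by positivity
    have hc : Continuous (pk s P m) := (hSn m).sm.continuous
    refine (mul_eq_zero.1 (?_ : s ^ (8 * n) * ip (pk s P m) (fm s r (k, n)) = 0)).resolve_left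
      hpow
    fin_cases k
    · show s ^ (8 * n) * ip (pk s P m) (fm s r (0, n)) = 0
      rw [e0 _ hc, hself, hnorm]
      split_ifs <;> ring
    · show s ^ (8 * n) * ip (pk s P m) (fm s r (1, n)) = 0
      rw [e1 _ hc, hnorm, ip_comm _ (adv (pk s P n) (pk s P (n + 1))),
        ip_comm _ (adv (pk s P (n + 1)) (pk s P n))]
      by_cases h1 : m = n
      · subst h1
        have a1 := anti h hs1 m (m + 1) m
        have a2 := anti h hs1 (m + 1) m m
        have a3 := hself (m + 1) m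
        rw [← hP] at a1 a2
        rw [if_pos rfl, ip_comm] at a3
        rw [if_pos rfl]
        linarith
      · rw [if_neg h1]
        by_cases h2 : m = n + 1
        · subst h2
          have a1 := anti h hs1 n (n + 1) (n + 1)
          have a2 := anti h hs1 (n + 1) n (n + 1)
          have a3 := tri_down h hs1 ha n
          rw [← hP] at a1 a2 a3
          linarith
        · have a1 := tri_zero h hs1 ha (k := n) (m := n + 1) (n := m) (by omega)
          have a2 := tri_zero h hs1 ha (k := n + 1) (m := n) (n := m) (by omega)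
          rw [← hP] at a1 a2
          rw [a1, a2]
          ring
  refine ⟨κ, P, r, ⟨hκ0, hSP.sm, P_out' h hs1, div_P' h, ⟨_, pot_sm h, pot_out h hs1, P_pot h⟩,
    fun i => (hSf i).sm, fun i => (hSf i).cs, ⟨N, hN0, hnorm⟩, horth, ?_, ?_, ?_⟩, ?_⟩
  · intro w hw hwr n
    have := e0 w hw n
    rw [hwr, mul_zero] at this
    linarith
  · intro w hw hwr n
    have := e1 w hw n
    rw [hwr, mul_zero] at this
    linarith
  · intro m n y hmn
    unfold adv
    rcases of_or h hs1 ha hmn y with q | q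
    · rw [← hP] at q
      rw [q.1, q.2]
      simp
    · rw [← hP] at q
      rw [q.1, q.2]
      simp
  · intro k y hy
    have hy' : 1 / 2 ≤ ‖y‖ := by linarith
    have z0 : P y = 0 := P_out' h hs1 y hy'
    have z1 : pk s P 1 y = 0 := by
      refine pk_out (P_out' h hs1) hs1 1 y ?_
      have : 1 ≤ s ^ (2 * 1) := one_le_pow₀ hs1.le
      nlinarith [norm_nonneg y]
    fin_cases k
    · show adv P P y + κ • pk s P 1 y = 0
      unfold adv
      rw [z0, z1]
      simp
    · show (adv P (pk s P 1) y + adv (pk s P 1) P y) - κ • P y = 0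
      unfold adv
      rw [z0, z1]
      simp

end Pool.Agent.N976.EC
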