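import Pool.Agent.N976.EC.Def
import Pool.Agent.Y5.S2.Stm
import Pool.Agent.Y954.S2.WPA

/-! (E3) Blow-up for the reduced system (of Katz-Pavlovic type). -/

open Set Filter Topology MeasureTheory

set_option autoImplicit false

namespace Pool.Agent.N976.EC

open Pool.Agent.N976.SC

namespace U3

open Pool.Agent.Y5.E (bl nk Sk Rapid Adm)
open Pool.Agent.Y5.S2 (BSol Blk S_WPA)
open Pool.Agent.Y6.N (lin)

/-- the rates -/
noncomputable def Ls (s : ℝ) (n : ℕ) : ℝ := s ^ (5 * n)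

theorem Ls_pos {s : ℝ} (hs : 2 ≤ s) (n : ℕ) : 0 < Ls s n := pow_pos (by linarith) _

theorem Ls_one {s : ℝ} (hs : 2 ≤ s) (n : ℕ) : 1 ≤ Ls s n := one_le_pow₀ (by linarith)

theorem Ls_succ (s : ℝ) (n : ℕ) : Ls s (n + 1) = s ^ 5 * Ls s n := by
  unfold Ls
  rw [show 5 * (n + 1) = 5 + 5 * n by ring, pow_add]

theorem Ls_le_succ {s : ℝ} (hs : 2 ≤ s) (n : ℕ) : Ls s n ≤ Ls s (n + 1) := by
  rw [Ls_succ]
  have h1 : (1 : ℝ) ≤ s ^ 5 := one_le_pow₀ (by linarith)
  nlinarith [Ls_pos hs n]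

/-- the kernel -/
noncomputable def ck (s : ℝ) (n i j : ℕ) : ℝ :=
  (if i = j ∧ n = i + 1 then Ls s i else 0) + (if i = n ∧ j = n + 1 then -(Ls s n) else 0)

/-- the bilinear term -/
noncomputable def bq (s : ℝ) (z y : ℕ → ℝ) (n : ℕ) : ℝ :=
  (if n = 0 then 0 else Ls s (n - 1) * z (n - 1) * y (n - 1)) - Ls s n * z n * y (n + 1)

theorem bl_hasSum (s : ℝ) (z y : ℕ → ℝ) (n : ℕ) :
    HasSum (fun p : ℕ × ℕ => ck s n p.1 p.2 * z p.1 * y p.2) (bq s z y n) := by
  have hC : HasSum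
      (fun p : ℕ × ℕ => (if p.1 = p.2 ∧ n = p.1 + 1 then Ls s p.1 else 0) * z p.1 * y p.2)
      (if n = 0 then 0 else Ls s (n - 1) * z (n - 1) * y (n - 1)) := by
    by_cases hn : n = 0
    · rw [if_pos hn]
      convert (hasSum_zero : HasSum (fun _ : ℕ × ℕ => (0 : ℝ)) 0) using 1
      funext p
      rw [if_neg (by omega)]
      ring
    · rw [if_neg hn]
      have h1 := hasSum_single (f := fun p : ℕ × ℕ =>
        (if p.1 = p.2 ∧ n = p.1 + 1 then Ls s p.1 else 0) * z p.1 * y p.2) (n - 1, n - 1) (by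
          rintro ⟨a, b⟩ hab
          have : ¬ (a = b ∧ n = a + 1) := by
            rintro ⟨h1, h2⟩
            apply hab
            simp only [Prod.mk.injEq]
            omega
          simp only
          rw [if_neg this]
          ring)
      simp only at h1
      rw [if_pos ⟨trivial, by omega⟩] at h1
      exact h1
  have hD : HasSum
      (fun p : ℕ × ℕ => (if p.1 = n ∧ p.2 = n + 1 then -(Ls s n) else 0) * z p.1 * y p.2)
      (-(Ls s n * z n * y (n + 1))) := by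
    have h1 := hasSum_single (f := fun p : ℕ × ℕ =>
      (if p.1 = n ∧ p.2 = n + 1 then -(Ls s n) else 0) * z p.1 * y p.2) (n, n + 1) (by
        rintro ⟨a, b⟩ hab
        have : ¬ (a = n ∧ b = n + 1) := by
          rintro ⟨h1, h2⟩
          apply hab
          rw [h1, h2]
        simp only
        rw [if_neg this]
        ring)
    simp only at h1
    rw [if_pos ⟨trivial, trivial⟩] at h1
    convert h1 using 1
    ring
  convert hC.add hD using 1
  · funext p
    unfold ck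
    ring
  · unfold bq
    ring

theorem bl_eq (s : ℝ) (z y : ℕ → ℝ) (n : ℕ) : bl (ck s) z y n = bq s z y n :=
  (bl_hasSum s z y n).tsum_eq

theorem vq_eq (s : ℝ) (z : ℕ → ℝ) (n : ℕ) : bq s z z n = vqE s z n := by
  unfold bq vqE Ls
  split_ifs <;> ring

theorem hasSum_shift {f : ℕ → ℝ} {S : ℝ} (h : HasSum f S) :
    HasSum (fun n => if n = 0 then 0 else f (n - 1)) S := by
  rw [← hasSum_nat_add_iff' 1]
  simpa using h

theorem sk_le {s : ℝ} (hs : 2 ≤ s) {z : ℕ → ℝ} {j k : ℕ} (hjk : j ≤ k) (h : Sk (Ls s) k z) :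
    Sk (Ls s) j z := by
  unfold Sk at h ⊢
  refine Summable.of_nonneg_of_le (fun _ => sq_nonneg _) (fun i => ?_) h
  rw [mul_pow, mul_pow]
  apply mul_le_mul_of_nonneg_right _ (sq_nonneg _)
  apply pow_le_pow_left₀ (pow_nonneg (Ls_pos hs i).le _)
  exact pow_le_pow_right₀ (Ls_one hs i) hjk

theorem sq_le_nk {s : ℝ} {y : ℕ → ℝ} {k : ℕ} (h : Sk (Ls s) k y) (n : ℕ) :
    (Ls s n ^ k * y n) ^ 2 ≤ nk (Ls s) k y :=
  h.le_tsum n (fun _ _ => sq_nonneg _)

theorem nk_nonneg {s : ℝ} {y : ℕ → ℝ} {k : ℕ} : 0 ≤ nk (Ls s) k y :=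
  tsum_nonneg fun _ => sq_nonneg _

theorem adm {s : ℝ} (hs : 2 ≤ s) : Adm (fun _ => 0) (Ls s) (ck s) where
  d0 := fun _ => le_rfl
  r1 := Ls_one hs
  rfin := by
    intro R
    obtain ⟨N, hN⟩ := pow_unbounded_of_one_lt R (show (1 : ℝ) < s by linarith)
    apply (Set.finite_lt_nat N).subset
    intro i hi
    simp only [Set.mem_ofPred_eq] at hi ⊢
    by_contra h
    have h1 : s ^ N ≤ Ls s i := pow_le_pow_right₀ (by linarith) (by omega)
    linarith
  summ := fun i z y _ _ => (bl_hasSum s z y i).summable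
  loc := by
    intro i
    refine ⟨(if i = 0 then 0 else Ls s (i - 1)) + Ls s i, fun z y hz hy => ?_⟩
    have hz0 : Summable fun a => z a ^ 2 := by
      have := sk_le hs (Nat.zero_le 1) hz
      unfold Sk at this
      simpa using this
    have hy0 : Summable fun a => y a ^ 2 := by
      have := sk_le hs (Nat.zero_le 1) hy
      unfold Sk at this
      simpa using this
    have hz1 : ∀ a, |z a| ≤ √(∑' a, z a ^ 2) := fun a =>
      Real.abs_le_sqrt (hz0.le_tsum a (fun _ _ => sq_nonneg _))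
    have hy1 : ∀ a, |y a| ≤ √(∑' a, y a ^ 2) := fun a =>
      Real.abs_le_sqrt (hy0.le_tsum a (fun _ _ => sq_nonneg _))
    rw [bl_eq]
    unfold bq
    set Z := √(∑' a, z a ^ 2)
    set Y := √(∑' a, y a ^ 2)
    have hZ : 0 ≤ Z := Real.sqrt_nonneg _
    have hY : 0 ≤ Y := Real.sqrt_nonneg _
    have h2 : |Ls s i * z i * y (i + 1)| ≤ Ls s i * Z * Y := by
      rw [abs_mul, abs_mul, abs_of_pos (Ls_pos hs i)]
      have := (Ls_pos hs i).le
      gcongr
      · exact hz1 i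
      · exact hy1 (i + 1)
    have h1 : |if i = 0 then (0 : ℝ) else Ls s (i - 1) * z (i - 1) * y (i - 1)| ≤
        (if i = 0 then 0 else Ls s (i - 1)) * Z * Y := by
      split_ifs
      · simp
      · rw [abs_mul, abs_mul, abs_of_pos (Ls_pos hs _)]
        have := (Ls_pos hs (i - 1)).le
        gcongr
        · exact hz1 _
        · exact hy1 _
    calc _ ≤ _ := abs_sub _ _
      _ ≤ (if i = 0 then 0 else Ls s (i - 1)) * Z * Y + Ls s i * Z * Y := add_le_add h1 h2
      _ = _ := by ring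
  est := by
    intro k
    refine ⟨2 * (s ^ 5) ^ (2 * (k + 1)) + 2, fun z y hz hy => ?_⟩
    have hy1 := sk_le hs (Nat.succ_le_succ (Nat.zero_le k)) hy
    set Y := nk (Ls s) 1 y with hYd
    have hY : 0 ≤ Y := nk_nonneg
    have hYb : ∀ n, (Ls s n * y n) ^ 2 ≤ Y := by
      intro n
      have := sq_le_nk hy1 n
      rwa [pow_one] at this
    have hzs : HasSum (fun n => (Ls s n ^ (k + 1) * z n) ^ 2) (nk (Ls s) (k + 1) z) := hz.hasSum
    have hG := (hasSum_shift (hzs.mul_left (2 * (s ^ 5) ^ (2 * (k + 1)) * Y))).add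
      (hzs.mul_left (2 * Y))
    have hle : ∀ n, (Ls s n ^ (k + 1) * bl (ck s) z y n) ^ 2 / (1 + 0) ≤
        (if n = 0 then 0 else 2 * (s ^ 5) ^ (2 * (k + 1)) * Y *
          (Ls s (n - 1) ^ (k + 1) * z (n - 1)) ^ 2) + 2 * Y * (Ls s n ^ (k + 1) * z n) ^ 2 := by
      intro n
      rw [bl_eq, add_zero, div_one]
      unfold bq
      have h2 : (Ls s n ^ (k + 1) * (Ls s n * z n * y (n + 1))) ^ 2 ≤
          Y * (Ls s n ^ (k + 1) * z n) ^ 2 := by
        have e : (Ls s n ^ (k + 1) * (Ls s n * z n * y (n + 1))) ^ 2 =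
            (Ls s n * y (n + 1)) ^ 2 * (Ls s n ^ (k + 1) * z n) ^ 2 := by ring
        rw [e]
        apply mul_le_mul_of_nonneg_right _ (sq_nonneg _)
        refine le_trans ?_ (hYb (n + 1))
        rw [mul_pow, mul_pow]
        apply mul_le_mul_of_nonneg_right _ (sq_nonneg _)
        exact pow_le_pow_left₀ (Ls_pos hs n).le (Ls_le_succ hs n) 2
      rcases n with _ | m
      · rw [if_pos rfl, if_pos rfl, zero_sub, zero_add, mul_neg, neg_sq]
        have : 0 ≤ Y * (Ls s 0 ^ (k + 1) * z 0) ^ 2 := by positivity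
        linarith
      · rw [if_neg (Nat.succ_ne_zero m), if_neg (Nat.succ_ne_zero m), Nat.add_sub_cancel]
        have h1 : (Ls s (m + 1) ^ (k + 1) * (Ls s m * z m * y m)) ^ 2 ≤
            (s ^ 5) ^ (2 * (k + 1)) * Y * (Ls s m ^ (k + 1) * z m) ^ 2 := by
          have e : (Ls s (m + 1) ^ (k + 1) * (Ls s m * z m * y m)) ^ 2 =
              ((s ^ 5) ^ (2 * (k + 1)) * (Ls s m * y m) ^ 2) * (Ls s m ^ (k + 1) * z m) ^ 2 := by
            rw [Ls_succ, mul_pow (s ^ 5), mul_comm 2 (k + 1), pow_mul (s ^ 5)]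
            ring
          rw [e]
          apply mul_le_mul_of_nonneg_right _ (sq_nonneg _)
          apply mul_le_mul_of_nonneg_left (hYb m)
          have : 0 ≤ s := by linarith
          positivity
        have h3 : ∀ A B : ℝ, (A - B) ^ 2 ≤ 2 * A ^ 2 + 2 * B ^ 2 := by
          intro A B
          nlinarith [sq_nonneg (A + B)]
        rw [mul_sub]
        refine le_trans (h3 _ _) ?_
        linarith
    have hsum : Summable (fun n => (Ls s n ^ (k + 1) * bl (ck s) z y n) ^ 2 / (1 + 0)) :=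
      Summable.of_nonneg_of_le (fun n => by positivity) hle hG.summable
    refine ⟨hsum, ?_⟩
    have h4 := hsum.tsum_le_tsum hle hG.summable
    rw [hG.tsum_eq] at h4
    refine le_trans h4 ?_
    have h5 : 0 ≤ nk (Ls s) 1 z * nk (Ls s) (k + 1) y := mul_nonneg nk_nonneg nk_nonneg
    have h6 : 0 ≤ 2 * (s ^ 5) ^ (2 * (k + 1)) + 2 := by
      have : 0 ≤ s := by linarith
      positivity
    have h7 := mul_nonneg h6 h5
    nlinarith

theorem blk (s : ℝ) : Blk (fun _ _ => 0) (fun _ => 0) (Ls s) (fun n : ℕ => n) where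
  fin := fun n => Set.finite_singleton n
  blk := fun i j h => absurd rfl h
  const := fun i j h => ⟨rfl, by rw [show i = j from h]⟩
  size := ⟨0, 0, fun i j => by simp⟩
  diss := fun n z _ => by simp

/-! ### Differentiation of series -/

theorem ser_deriv {Θ : ℝ} {f f' : ℕ → ℝ → ℝ}
    (hd : ∀ n, ∀ t ∈ Ico 0 Θ, HasDerivWithinAt (f n) (f' n t) (Ico 0 Θ) t)
    (hb : ∀ T' < Θ, ∃ u : ℕ → ℝ, Summable u ∧
      ∀ t ∈ Icc 0 T', ∀ n, |f n t| ≤ u n ∧ |f' n t| ≤ u n) :
    ContinuousOn (fun t => ∑' n, f n t) (Ico 0 Θ) ∧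
    ∀ t ∈ Ioo 0 Θ, HasDerivAt (fun t => ∑' n, f n t) (∑' n, f' n t) t := by
  constructor
  · intro t ht
    obtain ⟨T', h1, h2⟩ := exists_between ht.2
    obtain ⟨u, hu, hub⟩ := hb T' h2
    have hc : ContinuousOn (fun t => ∑' n, f n t) (Icc 0 T') := by
      apply continuousOn_tsum (u := u)
      · intro n t ht
        exact ((hd n t ⟨ht.1, lt_of_le_of_lt ht.2 h2⟩).continuousWithinAt).mono
          (fun r hr => ⟨hr.1, lt_of_le_of_lt hr.2 h2⟩)
      · exact hu
      · intro n t ht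
        rw [Real.norm_eq_abs]
        exact (hub t ht n).1
    have h3 := hc t ⟨ht.1, h1.le⟩
    refine h3.mono_of_mem_nhdsWithin ?_
    rw [mem_nhdsWithin]
    refine ⟨Iio T', isOpen_Iio, h1, ?_⟩
    rintro r ⟨hr1, hr2⟩
    exact ⟨hr2.1, le_of_lt hr1⟩
  · intro t ht
    obtain ⟨T', h1, h2⟩ := exists_between ht.2
    obtain ⟨u, hu, hub⟩ := hb T' h2
    refine hasDerivAt_tsum_of_isPreconnected (u := u) (t := Ioo 0 T') (y₀ := t) hu isOpen_Ioo
      isPreconnected_Ioo ?_ ?_ ⟨ht.1, h1⟩ ?_ ⟨ht.1, h1⟩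
    · intro n r hr
      have hr' : r ∈ Ioo 0 Θ := ⟨hr.1, hr.2.trans h2⟩
      exact (hd n r ⟨hr'.1.le, hr'.2⟩).hasDerivAt (Ico_mem_nhds hr'.1 hr'.2)
    · intro n r hr
      rw [Real.norm_eq_abs]
      exact (hub r ⟨hr.1.le, hr.2.le⟩ n).2
    · refine Summable.of_norm_bounded hu fun n => ?_
      rw [Real.norm_eq_abs]
      exact (hub t ⟨ht.1.le, h1.le⟩ n).1

/-! ### The solutions -/

/-- solutions of the reduced system on `[0, Θ)` -/
structure Kp (s Θ : ℝ) (x : ℕ → ℝ → ℝ) : Prop where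
  d : ∀ n, ∀ t ∈ Ico 0 Θ, HasDerivWithinAt (x n) (vqE s (fun k => x k t) n) (Ico 0 Θ) t
  rap : RapT s Θ x

theorem kp_of {s Θ : ℝ} (hs : 2 ≤ s) {z : ℕ → ℝ → ℝ}
    (h : BSol (fun _ _ => 0) (Ls s) (ck s) Θ z) : Kp s Θ z where
  d := by
    intro n t ht
    have h1 := h.deriv n t ht
    have e1 : lin (fun _ _ : ℕ => (0 : ℝ)) (fun a => z a t) n = 0 := by
      unfold lin
      simp
    rw [e1, zero_add, bl_eq, vq_eq] at h1
    exact h1
  rap := by
    intro k T' hT'
    obtain ⟨M, hM⟩ := h.rapid k T' hT'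
    refine ⟨√M, fun t ht n => ?_⟩
    obtain ⟨hs1, hs2⟩ := hM t ht
    have h3 : (Ls s n ^ k * z n t) ^ 2 ≤ M := le_trans (sq_le_nk hs1 n) hs2
    have h4 := Real.abs_le_sqrt h3
    rw [abs_mul, abs_of_nonneg (pow_nonneg (Ls_pos hs n).le k)] at h4
    refine le_trans (mul_le_mul_of_nonneg_right ?_ (abs_nonneg _)) h4
    unfold Ls
    rw [← pow_mul]
    apply pow_le_pow_right₀ (by linarith)
    calc k * n = n * k := mul_comm _ _
      _ ≤ 5 * n * k := by nlinarith [Nat.zero_le (n * k)]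

/-- bounds for the right-hand side -/
theorem vb {s Θ : ℝ} (hs : 2 ≤ s) {x : ℕ → ℝ → ℝ} (h : RapT s Θ x) :
    RapT s Θ (fun n t => vqE s (fun m => x m t) n) := by
  intro k T' hT'
  obtain ⟨M, hM⟩ := h (k + 5) T' hT'
  obtain ⟨M0, hM0⟩ := h 0 T' hT'
  have hs0 : 0 < s := by linarith
  refine ⟨s ^ k * (M * M0) + M * M0, fun t ht n => ?_⟩
  have hM' := hM t ht
  have hM0' : ∀ n, |x n t| ≤ M0 := fun n => by simpa using hM0 t ht n
  have hM00 : 0 ≤ M0 := (abs_nonneg _).trans (hM0' 0)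
  have hM1 : 0 ≤ M := le_trans (by positivity) (hM' 0)
  unfold vqE
  have h2 : s ^ (k * n) * |s ^ (5 * n) * x n t * x (n + 1) t| ≤ M * M0 := by
    rw [abs_mul, abs_mul, abs_of_pos (by positivity)]
    calc s ^ (k * n) * (s ^ (5 * n) * |x n t| * |x (n + 1) t|)
        = (s ^ ((k + 5) * n) * |x n t|) * |x (n + 1) t| := by
          rw [add_mul, pow_add]
          ring
      _ ≤ M * M0 := mul_le_mul (hM' n) (hM0' (n + 1)) (abs_nonneg _) hM1
  have h1 : s ^ (k * n) * |if n = 0 then (0 : ℝ) else s ^ (5 * (n - 1)) * x (n - 1) t ^ 2| ≤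
      s ^ k * (M * M0) := by
    rcases n with _ | m
    · rw [if_pos rfl, abs_zero, mul_zero]
      positivity
    · rw [if_neg (Nat.succ_ne_zero m), Nat.add_sub_cancel, abs_mul, abs_of_pos (by positivity),
        abs_pow]
      calc s ^ (k * (m + 1)) * (s ^ (5 * m) * |x m t| ^ 2)
          = s ^ k * ((s ^ ((k + 5) * m) * |x m t|) * |x m t|) := by
            rw [mul_add, mul_one, pow_add, add_mul, pow_add]
            ring
        _ ≤ s ^ k * (M * M0) := by
            apply mul_le_mul_of_nonneg_left _ (by positivity)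
            exact mul_le_mul (hM' m) (hM0' m) (abs_nonneg _) hM1
  calc s ^ (k * n) * |(if n = 0 then (0 : ℝ) else s ^ (5 * (n - 1)) * x (n - 1) t ^ 2) -
        s ^ (5 * n) * x n t * x (n + 1) t|
      ≤ s ^ (k * n) * (|if n = 0 then (0 : ℝ) else s ^ (5 * (n - 1)) * x (n - 1) t ^ 2| +
        |s ^ (5 * n) * x n t * x (n + 1) t|) :=
        mul_le_mul_of_nonneg_left (abs_sub _ _) (by positivity)
    _ = _ := mul_add _ _ _
    _ ≤ _ := add_le_add h1 h2

/-- Lower bound for the derivative of the Lyapunov functional. -/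
theorem lyap {s θ : ℝ} (hs : 2 ≤ s) (h0 : 0 < θ) (h3 : θ ^ 3 * s ^ 5 = 4) {a : ℕ → ℝ}
    (hS : Summable fun n => (θ * s ^ 5) ^ n * a n ^ 2) :
    θ / 2 * ∑' n, (θ * s ^ 5) ^ n * a n ^ 2 ≤ ∑' n, θ ^ n * vqE s a n := by
  have hs0 : 0 < s := by linarith
  set ρ := θ * s ^ 5 with hρ
  have hρ0 : 0 < ρ := by positivity
  have h4 : θ ^ 2 * ρ = 4 := by
    rw [hρ, ← h3]
    ring
  set u : ℕ → ℝ := fun n => ρ ^ n * a n ^ 2 with hu
  set v : ℕ → ℝ := fun n => ρ ^ n * (a n * a (n + 1)) with hv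
  set S := ∑' n, u n with hSd
  have hu0 : ∀ n, 0 ≤ u n := fun n => by positivity
  have hSu : HasSum u S := hS.hasSum
  have hSu1 : HasSum (fun n => u (n + 1)) (S - u 0) := by
    rw [hasSum_nat_add_iff (f := u) 1]
    simpa using hSu
  have hvle : ∀ n, |v n| ≤ θ / 4 * u n + θ / 4 * u (n + 1) := by
    intro n
    have h5 : θ * |a n * a (n + 1)| ≤ θ ^ 2 / 4 * a n ^ 2 + a (n + 1) ^ 2 := by
      rw [abs_mul]
      have h6 := sq_nonneg (θ * |a n| - 2 * |a (n + 1)|)
      have h7 := sq_abs (a n)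
      have h8 := sq_abs (a (n + 1))
      nlinarith
    have h9 : θ * |v n| ≤ θ * (θ / 4 * u n + θ / 4 * u (n + 1)) := by
      rw [hv, hu]
      simp only
      rw [abs_mul, abs_of_pos (pow_pos hρ0 n)]
      calc θ * (ρ ^ n * |a n * a (n + 1)|) = ρ ^ n * (θ * |a n * a (n + 1)|) := by ring
        _ ≤ ρ ^ n * (θ ^ 2 / 4 * a n ^ 2 + a (n + 1) ^ 2) :=
          mul_le_mul_of_nonneg_left h5 (by positivity)
        _ = ρ ^ n * (θ ^ 2 / 4 * a n ^ 2 + (θ ^ 2 * ρ) / 4 * a (n + 1) ^ 2) := by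
          rw [h4]
          ring
        _ = _ := by ring
    exact le_of_mul_le_mul_left h9 h0
  have hB := (hSu.mul_left (θ / 4)).add (hSu1.mul_left (θ / 4))
  have hvs : Summable v := Summable.of_norm_bounded hB.summable fun n => by
    rw [Real.norm_eq_abs]
    exact hvle n
  have hvS : ∑' n, v n ≤ θ / 2 * S := by
    have h6 := hvs.tsum_le_tsum (fun n => (le_abs_self _).trans (hvle n)) hB.summable
    rw [hB.tsum_eq] at h6
    have := mul_nonneg h0.le (hu0 0)
    linarith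
  have hm := (hasSum_shift (hSu.mul_left θ)).sub hvs.hasSum
  have he : (fun n => θ ^ n * vqE s a n) =
      fun n => (if n = 0 then 0 else θ * u (n - 1)) - v n := by
    funext n
    unfold vqE
    rcases n with _ | m
    · rw [if_pos rfl, if_pos rfl, hv]
      simp
    · rw [if_neg (Nat.succ_ne_zero m), if_neg (Nat.succ_ne_zero m), Nat.add_sub_cancel, hv, hu, hρ]
      simp only
      rw [mul_pow, mul_pow, pow_mul, pow_mul]
      ring
  rw [he, hm.tsum_eq]
  linarith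

/-- Cauchy-Schwarz. -/
theorem csz {s θ : ℝ} (hs : 2 ≤ s) (h0 : 0 < θ) (h1 : θ < 1) {a : ℕ → ℝ} {Z₀ : ℝ} (hZ : 0 < Z₀)
    (hS : Summable fun n => (θ * s ^ 5) ^ n * a n ^ 2) (hZs : Summable fun n => θ ^ n * a n)
    (hle : Z₀ ≤ ∑' n, θ ^ n * a n) :
    Z₀ ^ 2 / (∑' n, (θ / s ^ 5) ^ n) ≤ ∑' n, (θ * s ^ 5) ^ n * a n ^ 2 := by
  have hs0 : 0 < s := by linarith
  have h5 : 1 ≤ s ^ 5 := one_le_pow₀ (by linarith)
  have hr1 : θ / s ^ 5 < 1 := by
    rw [div_lt_one (by positivity)]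
    linarith
  have hr0 : 0 < θ / s ^ 5 := by positivity
  have hws := summable_geometric_of_lt_one hr0.le hr1
  set w : ℕ → ℝ := fun n => (θ / s ^ 5) ^ n with hw
  set c := ∑' n, w n with hc
  have hc0 : 0 < c := hws.tsum_pos (fun n => by positivity) 0 (by positivity)
  set S := ∑' n, (θ * s ^ 5) ^ n * a n ^ 2 with hSd
  set l := c / Z₀ with hl
  have hl0 : 0 < l := by positivity
  have hterm : ∀ n, θ ^ n * a n ≤ l / 2 * ((θ * s ^ 5) ^ n * a n ^ 2) + 1 / (2 * l) * w n := by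
    intro n
    set P := (θ * s ^ 5) ^ n with hP
    have hP0 : 0 < P := by positivity
    have hPw : P * w n = (θ ^ n) ^ 2 := by
      rw [hP, hw]
      simp only
      rw [← mul_pow, ← pow_mul, mul_comm n 2, pow_mul]
      congr 1
      field_simp
    have h6 : 0 ≤ P * (l ^ 2 * (P * a n ^ 2) - 2 * l * (θ ^ n * a n) + w n) := by
      have e : P * (l ^ 2 * (P * a n ^ 2) - 2 * l * (θ ^ n * a n) + w n) =
          (l * P * a n - θ ^ n) ^ 2 := by
        rw [mul_add, hPw]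
        ring
      rw [e]
      exact sq_nonneg _
    have h7 : 0 ≤ l ^ 2 * (P * a n ^ 2) - 2 * l * (θ ^ n * a n) + w n :=
      nonneg_of_mul_nonneg_right h6 hP0
    have h8 : l / 2 * (P * a n ^ 2) + 1 / (2 * l) * w n - θ ^ n * a n =
        (l ^ 2 * (P * a n ^ 2) - 2 * l * (θ ^ n * a n) + w n) / (2 * l) := by
      field_simp
      ring
    have h9 : 0 ≤ (l ^ 2 * (P * a n ^ 2) - 2 * l * (θ ^ n * a n) + w n) / (2 * l) :=
      div_nonneg h7 (by positivity)
    linarith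
  have hB := (hS.hasSum.mul_left (l / 2)).add (hws.hasSum.mul_left (1 / (2 * l)))
  have h10 := hZs.tsum_le_tsum hterm hB.summable
  rw [hB.tsum_eq] at h10
  have h11 : Z₀ ≤ l / 2 * S + 1 / (2 * l) * c := le_trans hle h10
  have h12 : 1 / (2 * l) * c = Z₀ / 2 := by
    rw [hl]
    field_simp
  rw [h12] at h11
  rw [div_le_iff₀ hc0]
  have h13 : Z₀ / 2 ≤ l / 2 * S := by linarith
  have h14 : Z₀ * (Z₀ / 2) ≤ Z₀ * (l / 2 * S) := mul_le_mul_of_nonneg_left h13 hZ.le
  have h15 : Z₀ * (l / 2 * S) = c * S / 2 := by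
    rw [hl]
    field_simp
  rw [h15] at h14
  nlinarith

/-- Growth of the Lyapunov functional. -/
theorem growth {s θ Θ : ℝ} (hs : 2 ≤ s) (h0 : 0 < θ) (h1 : θ < 1) (h3 : θ ^ 3 * s ^ 5 = 4)
    {x : ℕ → ℝ → ℝ} (hx : Kp s Θ x) (hpos : 0 < ∑' n, θ ^ n * x n 0) :
    ∀ t ∈ Ico 0 Θ, (∑' n, θ ^ n * x n 0) +
      θ / 2 * ((∑' n, θ ^ n * x n 0) ^ 2 / (∑' n, (θ / s ^ 5) ^ n)) * t ≤
      ∑' n, θ ^ n * x n t := by
  have hs0 : 0 < s := by linarith
  have hgeo := summable_geometric_of_lt_one h0.le h1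
  have hser := ser_deriv (Θ := Θ) (f := fun n t => θ ^ n * x n t)
    (f' := fun n t => θ ^ n * vqE s (fun m => x m t) n)
    (fun n t ht => (hx.d n t ht).const_mul _) (by
      intro T' hT'
      obtain ⟨M, hM⟩ := hx.rap 0 T' hT'
      obtain ⟨M', hM'⟩ := vb hs hx.rap 0 T' hT'
      refine ⟨fun n => max M M' * θ ^ n, hgeo.mul_left _, fun t ht n => ?_⟩
      have h4 : |x n t| ≤ M := by simpa using hM t ht n
      have h5 : |vqE s (fun m => x m t) n| ≤ M' := by simpa using hM' t ht n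
      have h6 : 0 < θ ^ n := by positivity
      simp only
      rw [abs_mul, abs_mul, abs_of_pos h6, mul_comm (max M M')]
      exact ⟨mul_le_mul_of_nonneg_left (h4.trans (le_max_left _ _)) h6.le,
        mul_le_mul_of_nonneg_left (h5.trans (le_max_right _ _)) h6.le⟩)
  obtain ⟨hc, hd⟩ := hser
  have hsum : ∀ t ∈ Ico 0 Θ, (Summable fun n => (θ * s ^ 5) ^ n * x n t ^ 2) ∧
      Summable fun n => θ ^ n * x n t := by
    intro t ht
    obtain ⟨M, hM⟩ := hx.rap 0 t ht.2
    obtain ⟨M5, hM5⟩ := hx.rap 5 t ht.2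
    have h4 : ∀ n, |x n t| ≤ M := fun n => by simpa using hM t ⟨ht.1, le_rfl⟩ n
    have h5 := hM5 t ⟨ht.1, le_rfl⟩
    have hM0 : 0 ≤ M := (abs_nonneg _).trans (h4 0)
    constructor
    · refine Summable.of_nonneg_of_le (fun n => by positivity) (fun n => ?_)
        (hgeo.mul_left (M5 * M))
      calc (θ * s ^ 5) ^ n * x n t ^ 2 = θ ^ n * ((s ^ (5 * n) * |x n t|) * |x n t|) := by
            rw [mul_pow, ← pow_mul, ← sq_abs (x n t)]
            ring
        _ ≤ θ ^ n * (M5 * M) := by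
            apply mul_le_mul_of_nonneg_left _ (by positivity)
            exact mul_le_mul (h5 n) (h4 n) (abs_nonneg _) ((by positivity : (0:ℝ) ≤ _).trans (h5 n))
        _ = _ := mul_comm _ _
    · refine Summable.of_norm_bounded (hgeo.mul_left M) fun n => ?_
      rw [Real.norm_eq_abs, abs_mul, abs_of_pos (by positivity), mul_comm]
      exact mul_le_mul_of_nonneg_right (h4 n) (by positivity)
  have hder : ∀ t ∈ Ioo 0 Θ, θ / 2 * ∑' n, (θ * s ^ 5) ^ n * x n t ^ 2 ≤
      deriv (fun t => ∑' n, θ ^ n * x n t) t := by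
    intro t ht
    rw [(hd t ht).deriv]
    exact lyap hs h0 h3 (hsum t ⟨ht.1.le, ht.2⟩).1
  have hmono : MonotoneOn (fun t => ∑' n, θ ^ n * x n t) (Ico 0 Θ) := by
    apply monotoneOn_of_deriv_nonneg (convex_Ico 0 Θ) hc
    · rw [interior_Ico]
      intro t ht
      exact (hd t ht).differentiableAt.differentiableWithinAt
    · rw [interior_Ico]
      intro t ht
      refine le_trans ?_ (hder t ht)
      have : 0 ≤ ∑' n, (θ * s ^ 5) ^ n * x n t ^ 2 := tsum_nonneg fun n => by positivity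
      positivity
  set Z₀ := ∑' n, θ ^ n * x n 0 with hZ₀
  have hge : ∀ t ∈ Ico 0 Θ, Z₀ ≤ ∑' n, θ ^ n * x n t := by
    intro t ht
    exact hmono ⟨le_rfl, ht.1.trans_lt ht.2⟩ ht ht.1
  set δ := θ / 2 * (Z₀ ^ 2 / (∑' n, (θ / s ^ 5) ^ n)) with hδ
  have hmono2 : MonotoneOn (fun t => (∑' n, θ ^ n * x n t) - δ * t) (Ico 0 Θ) := by
    apply monotoneOn_of_deriv_nonneg (convex_Ico 0 Θ)
    · exact hc.sub (continuous_const.mul continuous_id).continuousOn
    · rw [interior_Ico]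
      intro t ht
      exact ((hd t ht).differentiableAt.sub
        ((differentiableAt_id).const_mul δ)).differentiableWithinAt
    · rw [interior_Ico]
      intro t ht
      have h4 := (hd t ht).sub ((hasDerivAt_id t).const_mul δ)
      have h5 : deriv (fun t => (∑' n, θ ^ n * x n t) - δ * t) t =
          deriv (fun t => ∑' n, θ ^ n * x n t) t - δ := by
        rw [(hd t ht).deriv]
        have h4' := h4.deriv
        rw [mul_one] at h4'
        exact h4'
      rw [h5]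
      have h6 := hder t ht
      have ht' : t ∈ Ico 0 Θ := ⟨ht.1.le, ht.2⟩
      have h7 := csz hs h0 h1 hpos (hsum t ht').1 (hsum t ht').2 (hge t ht')
      have h8 := mul_le_mul_of_nonneg_left h7 (by positivity : 0 ≤ θ / 2)
      linarith
  intro t ht
  have h9 := hmono2 ⟨le_rfl, ht.1.trans_lt ht.2⟩ ht ht.1
  simp only [mul_zero, sub_zero] at h9
  linarith

/-- Weighted sums of squares. -/
theorem quad {s Θ : ℝ} (hs : 2 ≤ s) {x : ℕ → ℝ → ℝ} (hx : Kp s Θ x) {W : ℕ → ℝ}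
    (hW : ∀ n, |W n| ≤ s ^ (10 * n)) :
    (ContinuousOn (fun t => ∑' n, W n * x n t ^ 2) (Ico 0 Θ) ∧
    ∀ t ∈ Ioo 0 Θ, HasDerivAt (fun t => ∑' n, W n * x n t ^ 2)
      (∑' n, W n * (2 * x n t * vqE s (fun m => x m t) n)) t) ∧
    ∀ t ∈ Ico 0 Θ, Summable (fun n => W n * x n t ^ 2) ∧
      Summable (fun n => W n * (2 * x n t * vqE s (fun m => x m t) n)) := by
  have hs0 : 0 < s := by linarith
  have hs1 : 1 < s := by linarith
  have hgeo : Summable fun n : ℕ => (s⁻¹) ^ n :=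
    summable_geometric_of_lt_one (by positivity) (inv_lt_one_of_one_lt₀ hs1)
  have hb : ∀ T' < Θ, ∃ u : ℕ → ℝ, Summable u ∧ ∀ t ∈ Icc 0 T', ∀ n,
      |W n * x n t ^ 2| ≤ u n ∧ |W n * (2 * x n t * vqE s (fun m => x m t) n)| ≤ u n := by
    intro T' hT'
    obtain ⟨M, hM⟩ := hx.rap 0 T' hT'
    obtain ⟨K, hK⟩ := hx.rap 11 T' hT'
    obtain ⟨M', hM'⟩ := vb hs hx.rap 0 T' hT'
    refine ⟨fun n => K * max M (2 * M') * s⁻¹ ^ n, hgeo.mul_left _, fun t ht n => ?_⟩
    have h4 : |x n t| ≤ M := by simpa using hM t ht n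
    have h5 : |vqE s (fun m => x m t) n| ≤ M' := by simpa using hM' t ht n
    have h6 : s ^ (10 * n) * |x n t| ≤ K * s⁻¹ ^ n := by
      have h7 := hK t ht n
      rw [inv_pow, ← div_eq_mul_inv, le_div_iff₀ (by positivity)]
      calc s ^ (10 * n) * |x n t| * s ^ n = s ^ (11 * n) * |x n t| := by
            rw [show 11 * n = 10 * n + n by ring, pow_add]
            ring
        _ ≤ K := h7
    have h8 : |W n * x n t| ≤ K * s⁻¹ ^ n := by
      rw [abs_mul]
      exact le_trans (mul_le_mul_of_nonneg_right (hW n) (abs_nonneg _)) h6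
    have hK0 : 0 ≤ K * s⁻¹ ^ n := (abs_nonneg _).trans h8
    constructor
    · calc |W n * x n t ^ 2| = |W n * x n t| * |x n t| := by
            rw [← abs_mul]
            congr 1
            ring
        _ ≤ (K * s⁻¹ ^ n) * max M (2 * M') :=
            mul_le_mul h8 (h4.trans (le_max_left _ _)) (abs_nonneg _) hK0
        _ = _ := by ring
    · calc |W n * (2 * x n t * vqE s (fun m => x m t) n)|
          = |W n * x n t| * (2 * |vqE s (fun m => x m t) n|) := by
            rw [show W n * (2 * x n t * vqE s (fun m => x m t) n) =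
              (W n * x n t) * (2 * vqE s (fun m => x m t) n) by ring, abs_mul, abs_mul 2,
              abs_of_pos (show (0 : ℝ) < 2 by norm_num)]
        _ ≤ (K * s⁻¹ ^ n) * max M (2 * M') := by
            apply mul_le_mul h8 _ (by positivity) hK0
            exact le_trans (by linarith) (le_max_right _ _)
        _ = _ := by ring
  refine ⟨ser_deriv (fun n t ht => ?_) hb, fun t ht => ?_⟩
  · have h9 := ((hx.d n t ht).pow 2).const_mul (W n)
    simpa using h9
  · obtain ⟨u, hu, hub⟩ := hb t ht.2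
    refine ⟨Summable.of_norm_bounded hu fun n => ?_, Summable.of_norm_bounded hu fun n => ?_⟩
    · rw [Real.norm_eq_abs]
      exact (hub t ⟨ht.1, le_rfl⟩ n).1
    · rw [Real.norm_eq_abs]
      exact (hub t ⟨ht.1, le_rfl⟩ n).2

/-- The energy does not increase. -/
theorem energy {s Θ : ℝ} (hs : 2 ≤ s) {x : ℕ → ℝ → ℝ} (hx : Kp s Θ x) :
    ∀ t ∈ Ico 0 Θ, Summable (fun n => x n t ^ 2) ∧ ∑' n, x n t ^ 2 ≤ ∑' n, x n 0 ^ 2 := by
  have hs0 : 0 < s := by linarith
  obtain ⟨⟨hc, hd⟩, hsu⟩ := quad hs hx (W := fun _ => 1) (fun n => by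
    rw [abs_one]
    exact one_le_pow₀ (by linarith))
  simp only [one_mul] at hc hd hsu
  have hzero : ∀ t ∈ Ioo 0 Θ, ∑' n, 2 * x n t * vqE s (fun m => x m t) n = 0 := by
    intro t ht
    set g : ℕ → ℝ := fun n => 2 * (s ^ (5 * n) * x n t ^ 2 * x (n + 1) t) with hg
    have hgs : Summable g := by
      have h4 := (quad hs hx (W := fun n => s ^ (5 * n)) (fun n => by
        rw [abs_of_pos (by positivity)]
        exact pow_le_pow_right₀ (by linarith) (by omega))).2 t ⟨ht.1.le, ht.2⟩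
      obtain ⟨M, hM⟩ := hx.rap 0 t ht.2
      refine Summable.of_norm_bounded (h4.1.mul_left (2 * M)) fun n => ?_
      have h5 : |x (n + 1) t| ≤ M := by simpa using hM t ⟨ht.1.le, le_rfl⟩ (n + 1)
      rw [Real.norm_eq_abs, hg]
      simp only
      rw [abs_mul, abs_mul, abs_of_pos (show (0 : ℝ) < 2 by norm_num),
        abs_of_nonneg (by positivity)]
      calc 2 * (s ^ (5 * n) * x n t ^ 2 * |x (n + 1) t|)
          ≤ 2 * (s ^ (5 * n) * x n t ^ 2 * M) := by gcongr
        _ = _ := by ring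
    have h6 := (hasSum_shift hgs.hasSum).sub hgs.hasSum
    rw [sub_self] at h6
    rw [← h6.tsum_eq]
    congr 1
    funext n
    unfold vqE
    rcases n with _ | m
    · rw [if_pos rfl, if_pos rfl, hg]
      ring
    · rw [if_neg (Nat.succ_ne_zero m), if_neg (Nat.succ_ne_zero m), Nat.add_sub_cancel, hg]
      ring
  have hanti : AntitoneOn (fun t => ∑' n, x n t ^ 2) (Ico 0 Θ) := by
    apply antitoneOn_of_deriv_nonpos (convex_Ico 0 Θ) hc
    · rw [interior_Ico]
      intro t ht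
      exact (hd t ht).differentiableAt.differentiableWithinAt
    · rw [interior_Ico]
      intro t ht
      rw [(hd t ht).deriv, hzero t ht]
  intro t ht
  exact ⟨(hsu t ht).1, hanti ⟨le_rfl, ht.1.trans_lt ht.2⟩ ht ht.1⟩

/-- There is no global solution. -/
theorem noglob {s θ : ℝ} (hs : 2 ≤ s) (h0 : 0 < θ) (h1 : θ < 1) (h3 : θ ^ 3 * s ^ 5 = 4)
    {x : ℕ → ℝ → ℝ} (hpos : 0 < ∑' n, θ ^ n * x n 0) : ¬ ∀ Θ, Kp s Θ x := by
  intro hx
  have hs0 : 0 < s := by linarith
  have hsq0 : (θ : ℝ) ^ 2 < 1 := by nlinarith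
  have hgeo := summable_geometric_of_lt_one (sq_nonneg θ) hsq0
  set c := ∑' n : ℕ, (θ ^ 2) ^ n with hc
  set E := ∑' n, x n 0 ^ 2 with hE
  set Z := ∑' n, θ ^ n * x n 0 with hZ
  set δ := θ / 2 * (Z ^ 2 / (∑' n, (θ / s ^ 5) ^ n)) with hδ
  have h5 : 1 ≤ s ^ 5 := one_le_pow₀ (by linarith)
  have hr1 : θ / s ^ 5 < 1 := by
    rw [div_lt_one (by positivity)]
    linarith
  have hr0 : 0 < θ / s ^ 5 := by positivity
  have hc1 : 0 < ∑' n : ℕ, (θ / s ^ 5) ^ n :=
    (summable_geometric_of_lt_one hr0.le hr1).tsum_pos (fun n => by positivity) 0 (by positivity)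
  have hδ0 : 0 < δ := by positivity
  have hE0 : 0 ≤ E := tsum_nonneg fun n => sq_nonneg _
  have hc0 : 0 ≤ c := tsum_nonneg fun n => by positivity
  set t := (c + E) / δ with ht
  have ht0 : 0 ≤ t := by positivity
  have htm : t ∈ Ico 0 (t + 1) := ⟨ht0, by linarith⟩
  have h6 := growth hs h0 h1 h3 (hx (t + 1)) hpos t htm
  obtain ⟨h7, h8⟩ := energy hs (hx (t + 1)) t htm
  have h9 : ∑' n, θ ^ n * x n t ≤ (c + E) / 2 := by
    have hB := (hgeo.hasSum.mul_left (1 / 2)).add (h7.hasSum.mul_left (1 / 2))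
    have hle : ∀ n, θ ^ n * x n t ≤ 1 / 2 * (θ ^ 2) ^ n + 1 / 2 * x n t ^ 2 := by
      intro n
      rw [← pow_mul, mul_comm 2 n, pow_mul]
      nlinarith [sq_nonneg (θ ^ n - x n t)]
    have hsu : Summable fun n => θ ^ n * x n t := by
      refine Summable.of_norm_bounded hB.summable fun n => ?_
      rw [Real.norm_eq_abs, ← pow_mul, mul_comm 2 n, pow_mul, abs_le]
      constructor
      · nlinarith [sq_nonneg (θ ^ n + x n t)]
      · nlinarith [sq_nonneg (θ ^ n - x n t)]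
    have h10 := hsu.tsum_le_tsum hle hB.summable
    rw [hB.tsum_eq] at h10
    have : ∑' n, x n t ^ 2 ≤ E := h8
    linarith
  have h11 : δ * t = c + E := by
    rw [ht]
    field_simp
  have h12 : Z + (c + E) ≤ (c + E) / 2 := by
    calc Z + (c + E) = Z + δ * t := by rw [h11]
      _ ≤ ∑' n, θ ^ n * x n t := h6
      _ ≤ _ := h9
  linarith

/-- Gronwall. -/
theorem gron {Θ K : ℝ} {F F' : ℝ → ℝ} (hc : ContinuousOn F (Ico 0 Θ))
    (hd : ∀ t ∈ Ioo 0 Θ, HasDerivAt F (F' t) t) (hK : ∀ t ∈ Ioo 0 Θ, F' t ≤ K * F t) :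
    ∀ t ∈ Ico 0 Θ, F t ≤ F 0 * Real.exp (K * t) := by
  have he : ∀ t, HasDerivAt (fun t => Real.exp (-(K * t))) (Real.exp (-(K * t)) * (-K)) t := by
    intro t
    have h1 : HasDerivAt (fun t : ℝ => -(K * t)) (-K) t := by
      have h2 := ((hasDerivAt_id t).const_mul K).neg
      rw [mul_one] at h2
      exact h2
    exact h1.exp
  have hder : ∀ t ∈ Ioo 0 Θ, HasDerivAt (fun t => F t * Real.exp (-(K * t)))
      (F' t * Real.exp (-(K * t)) + F t * (Real.exp (-(K * t)) * (-K))) t :=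
    fun t ht => (hd t ht).mul (he t)
  have hanti : AntitoneOn (fun t => F t * Real.exp (-(K * t))) (Ico 0 Θ) := by
    apply antitoneOn_of_deriv_nonpos (convex_Ico 0 Θ)
    · exact hc.mul (by fun_prop)
    · rw [interior_Ico]
      intro t ht
      exact (hder t ht).differentiableAt.differentiableWithinAt
    · rw [interior_Ico]
      intro t ht
      rw [(hder t ht).deriv]
      have h2 := mul_le_mul_of_nonneg_right (hK t ht) (Real.exp_pos (-(K * t))).le
      linarith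
  intro t ht
  have h3 := hanti ⟨le_rfl, ht.1.trans_lt ht.2⟩ ht ht.1
  simp only [mul_zero, neg_zero, Real.exp_zero, mul_one] at h3
  rw [Real.exp_neg] at h3
  have h4 := Real.exp_pos (K * t)
  rwa [← div_eq_mul_inv, div_le_iff₀ h4] at h3

/-- The velocity gradient controls the regularity. -/
theorem bdd_nk {s Θ M : ℝ} (hs : 2 ≤ s) (hΘ : 0 < Θ) {x : ℕ → ℝ → ℝ} (hx : Kp s Θ x)
    (hM : ∀ t ∈ Ico 0 Θ, ∀ n, s ^ (5 * n) * |x n t| ≤ M) :
    ∃ M', ∀ t ∈ Ico 0 Θ, nk (Ls s) 1 (fun a => x a t) ≤ M' := by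
  have hs0 : 0 < s := by linarith
  have hM0 : 0 ≤ M := le_trans (by positivity) (hM 0 ⟨le_rfl, hΘ⟩ 0)
  obtain ⟨⟨hc, hd⟩, hsu⟩ := quad hs hx (W := fun n => s ^ (10 * n)) (fun n => by
    rw [abs_of_pos (by positivity)])
  set F : ℝ → ℝ := fun t => ∑' n, s ^ (10 * n) * x n t ^ 2 with hF
  have hF0 : 0 ≤ F 0 := tsum_nonneg fun n => by positivity
  set K := 2 * s ^ 5 * M + 2 * M with hKd
  have hK : ∀ t ∈ Ioo 0 Θ,
      ∑' n, s ^ (10 * n) * (2 * x n t * vqE s (fun m => x m t) n) ≤ K * F t := by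
    intro t ht
    have ht' : t ∈ Ico 0 Θ := ⟨ht.1.le, ht.2⟩
    obtain ⟨h1, h2⟩ := hsu t ht'
    have hM' := hM t ht'
    have hB := (h1.hasSum.mul_left (s ^ 5 * M + 2 * M)).add
      (hasSum_shift (h1.hasSum.mul_left (s ^ 5 * M)))
    have hle : ∀ n, s ^ (10 * n) * (2 * x n t * vqE s (fun m => x m t) n) ≤
        (s ^ 5 * M + 2 * M) * (s ^ (10 * n) * x n t ^ 2) +
        (if n = 0 then 0 else s ^ 5 * M * (s ^ (10 * (n - 1)) * x (n - 1) t ^ 2)) := by
      intro n
      have e2 : ∀ n, s ^ (10 * n) * x n t ^ 2 = (s ^ (5 * n) * |x n t|) ^ 2 := by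
        intro n
        rw [mul_pow, sq_abs, ← pow_mul, show 5 * n * 2 = 10 * n by ring]
      have hb2 : s ^ (10 * n) * (2 * x n t * -(s ^ (5 * n) * x n t * x (n + 1) t)) ≤
          2 * M * (s ^ (10 * n) * x n t ^ 2) := by
        have h3 : s ^ (5 * n) * |x (n + 1) t| ≤ M := by
          refine le_trans (mul_le_mul_of_nonneg_right ?_ (abs_nonneg _)) (hM' (n + 1))
          exact pow_le_pow_right₀ (by linarith) (by omega)
        calc s ^ (10 * n) * (2 * x n t * -(s ^ (5 * n) * x n t * x (n + 1) t))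
            = 2 * (s ^ (10 * n) * x n t ^ 2) * (s ^ (5 * n) * (-x (n + 1) t)) := by ring
          _ ≤ 2 * (s ^ (10 * n) * x n t ^ 2) * (s ^ (5 * n) * |x (n + 1) t|) := by
              gcongr
              exact neg_le_abs _
          _ ≤ 2 * (s ^ (10 * n) * x n t ^ 2) * M := by gcongr
          _ = _ := by ring
      unfold vqE
      rcases n with _ | m
      · rw [if_pos rfl, if_pos rfl]
        have h4 : 0 ≤ s ^ 5 * M * (s ^ (10 * 0) * x 0 t ^ 2) := by positivity
        rw [zero_sub]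
        linarith
      · rw [if_neg (Nat.succ_ne_zero m), if_neg (Nat.succ_ne_zero m), Nat.add_sub_cancel]
        have h5 : s ^ (10 * (m + 1)) * (2 * x (m + 1) t * (s ^ (5 * m) * x m t ^ 2)) ≤
            s ^ 5 * M * (s ^ (10 * (m + 1)) * x (m + 1) t ^ 2) +
            s ^ 5 * M * (s ^ (10 * m) * x m t ^ 2) := by
          rw [e2 (m + 1), e2 m]
          set A := s ^ (5 * (m + 1)) * |x (m + 1) t| with hA
          set B := s ^ (5 * m) * |x m t| with hBd
          have hA0 : 0 ≤ A := by positivity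
          have hB0 : 0 ≤ B := by positivity
          have hBM : B ≤ M := hM' m
          have h6 : s ^ (10 * (m + 1)) * (2 * x (m + 1) t * (s ^ (5 * m) * x m t ^ 2)) ≤
              2 * s ^ 5 * (A * B * B) := by
            have e3 : 2 * s ^ 5 * (A * B * B) =
                s ^ (10 * (m + 1)) * (2 * |x (m + 1) t| * (s ^ (5 * m) * x m t ^ 2)) := by
              rw [hA, hBd, ← sq_abs (x m t)]
              rw [show 10 * (m + 1) = 5 * (m + 1) + 5 + 5 * m by ring, pow_add, pow_add]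
              ring
            rw [e3]
            have := le_abs_self (x (m + 1) t)
            gcongr
          have h7 : A * B * B ≤ A * B * M := mul_le_mul_of_nonneg_left hBM (by positivity)
          have h8 : 2 * s ^ 5 * (A * B * B) ≤ 2 * s ^ 5 * (A * B * M) :=
            mul_le_mul_of_nonneg_left h7 (by positivity)
          have h9 : s ^ 5 * M * (2 * (A * B)) ≤ s ^ 5 * M * (A ^ 2 + B ^ 2) := by
            apply mul_le_mul_of_nonneg_left _ (by positivity)
            nlinarith [sq_nonneg (A - B)]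
          linarith
        rw [mul_sub, mul_sub]
        linarith
    have h10 := h2.tsum_le_tsum hle hB.summable
    rw [hB.tsum_eq] at h10
    refine le_trans h10 (le_of_eq ?_)
    rw [hKd, hF]
    ring
  have hg := gron hc hd hK
  refine ⟨F 0 * Real.exp (K * Θ), fun t ht => ?_⟩
  have e : nk (Ls s) 1 (fun a => x a t) = F t := by
    unfold nk
    rw [hF]
    simp only
    congr 1
    funext n
    unfold Ls
    rw [pow_one, mul_pow, ← pow_mul, show 5 * n * 2 = 10 * n by ring]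
  rw [e]
  refine le_trans (hg t ht) ?_
  have hK0 : 0 ≤ K := by positivity
  have h11 : K * t ≤ K * Θ := mul_le_mul_of_nonneg_left ht.2.le hK0
  exact mul_le_mul_of_nonneg_left (Real.exp_le_exp.2 h11) hF0

/-- finitely supported initial data -/
theorem sk_fin (s : ℝ) (m : ℕ) (a : ℕ → ℝ) (k : ℕ) :
    Sk (Ls s) k (fun n => if n < m then a n else 0) := by
  unfold Sk
  apply summable_of_ne_finset_zero (s := Finset.range m)
  intro b hb
  rw [Finset.mem_range] at hb
  simp only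
  rw [if_neg hb]
  ring

end U3

open U3 in
/-- (E3) Blow-up for the reduced system. -/
theorem t_OE : S_OE := by
  refine ⟨2, fun s hs => ?_⟩
  have hs0 : 0 < s := by linarith
  have h32 : (32 : ℝ) ≤ s ^ 5 := by
    calc (32 : ℝ) = 2 ^ 5 := by norm_num
      _ ≤ s ^ 5 := pow_le_pow_left₀ (by norm_num) hs 5
  obtain ⟨θ, h0, h3⟩ : ∃ θ : ℝ, 0 < θ ∧ θ ^ 3 = 4 / s ^ 5 := by
    refine ⟨(4 / s ^ 5) ^ (((3 : ℕ) : ℝ)⁻¹), by positivity, ?_⟩
    exact Real.rpow_inv_natCast_pow (by positivity) (by norm_num)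
  have h1 : θ < 1 := by
    by_contra h
    push Not at h
    have h4 : 1 ≤ θ ^ 3 := one_le_pow₀ h
    rw [h3, le_div_iff₀ (by positivity)] at h4
    linarith
  have h3' : θ ^ 3 * s ^ 5 = 4 := by
    rw [h3]
    field_simp
  refine ⟨θ, h0, h1, fun m a ha => ?_⟩
  obtain ⟨x, hx0, hx⟩ := Pool.Agent.Y954.S2.t_WPA ℕ (fun n => n) (fun _ _ => 0) (fun _ => 0)
    (Ls s) (ck s) (adm hs) (blk s) (fun n => if n < m then a n else 0) (sk_fin s m a)
  have hpos : 0 < ∑' n, θ ^ n * x n 0 := by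
    have e : (fun n => θ ^ n * x n 0) = fun n => if n < m then θ ^ n * a n else 0 := by
      funext n
      rw [hx0 n]
      split_ifs <;> simp
    rw [e, tsum_eq_sum (s := Finset.range m)]
    · refine lt_of_lt_of_eq ha ?_
      apply Finset.sum_congr rfl
      intro n hn
      rw [if_pos (Finset.mem_range.1 hn)]
    · intro n hn
      rw [Finset.mem_range] at hn
      rw [if_neg hn]
  rcases hx with hx | ⟨Θ, hΘ, hx, hmax⟩
  · exact absurd (fun Θ => kp_of hs (hx Θ)) (noglob hs h0 h1 h3' hpos)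
  · have hk := kp_of hs hx
    refine ⟨Θ, x, hΘ, hx0, hk.d, hk.rap, fun M => ?_⟩
    by_contra hc
    push Not at hc
    exact hmax (bdd_nk hs hΘ hk hc)

end Pool.Agent.N976.EC
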