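import Pool.Agent.N976.EC.Def
import Pool.Agent.N976.SC.T5a
import Pool.Agent.N976.SC.T6

/-!
# Testing the nonlinear term of the series
-/

open Set Filter Topology MeasureTheory
open scoped ContDiff

set_option autoImplicit false

namespace Pool.Agent.N976.EC

open Pool.Agent.N976.SC

namespace U4

/-- The pairings with the packets grow polynomially. -/
lemma pol {s : ℝ} {P : E3 → E3} (hs : 1 < s) (hc : ContDiff ℝ ∞ P)
    (hP : ∀ y, 1 / 2 ≤ ‖y‖ → P y = 0) {w : E3 → E3} (hw : Continuous w) :
    T6.Pol s (fun n => ip w (pk s P n)) := by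
  obtain ⟨C, hC0, hC⟩ := T6.pk_bd hs hc.continuous hP
  obtain ⟨W, hW0, hW⟩ := T6.w_bd hw
  have s0 : 0 < s := by linarith
  refine ⟨3, W * C * volume.real (Metric.closedBall (0 : E3) 1), fun n => ?_⟩
  show |∫ y, inner ℝ (w y) (pk s P n y)| ≤ _
  have e1 : ∫ y, inner ℝ (w y) (pk s P n y) =
      ∫ y in Metric.closedBall (0 : E3) 1, inner ℝ (w y) (pk s P n y) := by
    refine (setIntegral_eq_integral_of_forall_compl_eq_zero ?_).symm
    intro y hy
    simp only [Metric.mem_closedBall, dist_zero_right, not_le] at hy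
    rw [T6.pk_out hs hP n hy.le, inner_zero_right]
  rw [e1]
  have e2 := norm_setIntegral_le_of_norm_le_const (μ := (volume : Measure E3))
    (s := Metric.closedBall (0 : E3) 1) (f := fun y => inner ℝ (w y) (pk s P n y))
    (C := W * (C * s ^ (3 * n)))
    (isCompact_closedBall (0 : E3) 1).measure_lt_top
    (fun y hy => by
      have hy' : ‖y‖ ≤ 1 := by simpa using hy
      rw [Real.norm_eq_abs]
      refine (abs_real_inner_le_norm _ _).trans ?_
      have := hW y hy'
      have := hC n y
      gcongr)
  rw [Real.norm_eq_abs] at e2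
  refine e2.trans (le_of_eq ?_)
  ring

/-- The algebra of the double series. -/
lemma alg {s : ℝ} (hs : 1 < s) {κ : ℝ} {a om : ℕ → ℝ} (ha : Rap s a) (hom : T6.Pol s om)
    {t : ℕ → ℕ → ℝ} {I : ℝ} (hI : HasSum (fun p : ℕ × ℕ => a p.1 * a p.2 * t p.1 p.2) I)
    (hd : ∀ n, t n n = -(κ * s ^ (5 * n) * om (n + 1)))
    (hx : ∀ n, t n (n + 1) + t (n + 1) n = κ * s ^ (5 * n) * om n)
    (hf : ∀ m n, m + 2 ≤ n → t m n = 0 ∧ t n m = 0) :
    HasSum (fun n => -(κ * vqE s a n * om n)) I := by
  have s0 : 0 < s := by linarith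
  -- the sequences
  set B : ℕ → ℝ := fun n => s ^ (5 * n) * a n ^ 2 * om (n + 1) with hB
  set Y : ℕ → ℝ := fun n => s ^ (5 * n) * a n * a (n + 1) * om n with hY
  set X : ℕ → ℝ := fun n => (if n = 0 then 0 else s ^ (5 * (n - 1)) * a (n - 1) ^ 2) * om n
    with hX
  set E : ℕ → ℝ := fun n => if n = 0 then 0 else s ^ (5 * (n - 1)) * a (n - 1) * a n * om (n - 1)
    with hE
  -- summability
  have hBs : Summable B := by
    have : Rap s (fun n => a n * (s ^ (5 * n) * a n * om (n + 1))) :=
      T6.Rap.mul_pol hs ha (((T6.Pol.pow hs 5).mul (T6.Rap.pol ha)).mul hom.shift)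
    refine (T6.Rap.hsum hs this).congr fun n => ?_
    simp only [hB]; ring
  have hYs : Summable Y := by
    have : Rap s (fun n => a n * (s ^ (5 * n) * a (n + 1) * om n)) :=
      T6.Rap.mul_pol hs ha (((T6.Pol.pow hs 5).mul (T6.Rap.pol ha).shift).mul hom)
    refine (T6.Rap.hsum hs this).congr fun n => ?_
    simp only [hY]; ring
  have hXh : HasSum X (∑' n, B n) := by
    refine T6.hasSum_shift (by simp [hX]) ?_
    refine hBs.hasSum.congr_fun ?_
    intro n
    simp only [hX, hB]
    simp
  have hEh : HasSum E (∑' n, Y n) := by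
    refine T6.hasSum_shift (by simp [hE]) ?_
    refine hYs.hasSum.congr_fun ?_
    intro n
    simp only [hE, hY]
    simp
  -- partial sums
  have hS : ∀ N, ∑ p ∈ Finset.range N ×ˢ Finset.range N, a p.1 * a p.2 * t p.1 p.2 =
      ∑ n ∈ Finset.range N, κ * (E n - B n) := by
    intro N
    rw [Finset.sum_product]
    induction N with
    | zero => simp
    | succ N ih =>
      rw [Finset.sum_range_succ _ N, Finset.sum_range_succ _ N, Finset.sum_range_succ _ N, ← ih]
      have h1 : ∑ x ∈ Finset.range N, ∑ y ∈ Finset.range (N + 1), a x * a y * t x y =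
          ∑ x ∈ Finset.range N, ∑ y ∈ Finset.range N, a x * a y * t x y +
          ∑ x ∈ Finset.range N, a x * a N * t x N := by
        rw [← Finset.sum_add_distrib]
        exact Finset.sum_congr rfl fun x _ => Finset.sum_range_succ _ N
      have h2 : ∑ x ∈ Finset.range N, a x * a N * t x N + ∑ y ∈ Finset.range N, a N * a y * t N y =
          κ * E N := by
        rcases N with _ | k
        · simp [hE]
        · rw [Finset.sum_range_succ, Finset.sum_range_succ]
          have h6 : ∑ x ∈ Finset.range k, a x * a (k + 1) * t x (k + 1) = 0 := by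
            refine Finset.sum_eq_zero fun x hx' => ?_
            have := Finset.mem_range.1 hx'
            rw [(hf x (k + 1) (by omega)).1, mul_zero]
          have h7 : ∑ x ∈ Finset.range k, a (k + 1) * a x * t (k + 1) x = 0 := by
            refine Finset.sum_eq_zero fun x hx' => ?_
            have := Finset.mem_range.1 hx'
            rw [(hf x (k + 1) (by omega)).2, mul_zero]
          rw [h6, h7]
          have h8 : E (k + 1) = s ^ (5 * k) * a k * a (k + 1) * om k := by
            simp [hE]
          rw [h8]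
          have h9 := hx k
          linear_combination a k * a (k + 1) * h9
      have h7 : a N * a N * t N N = -(κ * B N) := by
        rw [hd N]
        simp only [hB]; ring
      rw [h1]
      linear_combination h2 + h7
  have hD : HasSum (fun n => κ * (E n - B n)) (κ * ((∑' n, Y n) - (∑' n, B n))) :=
    (hEh.sub hBs.hasSum).mul_left κ
  have hfin : HasSum (fun n => -(κ * vqE s a n * om n)) (κ * ((∑' n, Y n) - (∑' n, B n))) := by
    have h1 := (hYs.hasSum.sub hXh).mul_left κ
    refine h1.congr_fun fun n => ?_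
    simp only [hX, hY, vqE]
    ring
  have hT1 : Tendsto (fun N => ∑ p ∈ Finset.range N ×ˢ Finset.range N, a p.1 * a p.2 * t p.1 p.2)
      atTop (𝓝 I) := by
    have h1 : Tendsto (fun N : ℕ => Finset.range N ×ˢ Finset.range N) atTop atTop :=
      Filter.tendsto_finsetProd_atTop.comp (by
        rw [← prod_atTop_atTop_eq]
        exact tendsto_finset_range.prodMk tendsto_finset_range)
    exact hI.comp h1
  have hT2 : Tendsto (fun N => ∑ p ∈ Finset.range N ×ˢ Finset.range N, a p.1 * a p.2 * t p.1 p.2)
      atTop (𝓝 (κ * ((∑' n, Y n) - (∑' n, B n)))) := by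
    simp_rw [hS]
    exact hD.tendsto_sum_nat
  rw [tendsto_nhds_unique hT1 hT2]
  exact hfin

end U4

theorem t_QE : S_QE := by
  intro s κ P r hs hT w hw hwr a ha
  have hc : ContDiff ℝ ∞ P := hT.sm
  have hP := hT.out
  obtain ⟨-, -, h1, -, -⟩ := (t_SER1 s P hs hc hP).1 a ha
  have h := T6.quad hs hc hP hw ha h1
  refine U4.alg (t := fun m n => ip w (adv (pk s P m) (pk s P n))) hs ha (U4.pol hs hc hP hw) h
    (fun n => hT.diag w hw hwr n)
    (fun n => hT.near w hw hwr n) (fun m n hmn => ?_)
  have h2 := hT.far m n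
  constructor
  · have : adv (pk s P m) (pk s P n) = fun _ => 0 := funext fun y => (h2 y hmn).1
    rw [this]
    simp [ip]
  · have : adv (pk s P n) (pk s P m) = fun _ => 0 := funext fun y => (h2 y hmn).2
    rw [this]
    simp [ip]

end Pool.Agent.N976.EC
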