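import Pool.Agent.N976.EC.Def
import Pool.Agent.N976.SC.T10

/-!
# Step U5: time regularity of the reduced system
-/

open Set Filter Topology MeasureTheory
open scoped ContDiff

set_option autoImplicit false

namespace Pool.Agent.N976.EC

open Pool.Agent.N976.SC

namespace U5

open Pool.Agent.N976.SC.T10

/-- the right-hand side of the reduced system -/
lemma D_vqE {s T : ℝ} (hs : 1 < s) {k : ℕ} {x : ℕ → ℝ → ℝ} (hx : D s T k x) :
    D s T k (fun n t => vqE s (fun m => x m t) n) := by
  have hs0 : (0 : ℝ) < s := by linarith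
  have h2 := (D.down hs ((hx.mul hs hx).w hs (fun n => s ^ (5 * n)) 1 5 (fun n => by
    rw [abs_of_pos (pow_pos hs0 _), one_mul])))
  have h3 := ((hx.mul hs (hx.up hs)).w hs (fun n => -s ^ (5 * n)) 1 5 (fun n => by
    rw [abs_neg, abs_of_pos (pow_pos hs0 _), one_mul]))
  refine D.congr ?_ (h2.add hs h3)
  intro n t _
  simp only [vqE]
  rcases Nat.eq_zero_or_pos n with h | h
  · subst h
    simp only [if_true]
    ring
  · simp only [if_neg (show n ≠ 0 by omega), sq]
    ring

end U5

open U5 Pool.Agent.N976.SC.T10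

theorem t_VE : S_VE := by
  intro s T x hs hc hx
  refine ⟨fun n => ?_, D_vqE (k := 0) hs hx⟩
  simp only [vqE]
  refine ContinuousOn.sub ?_ ?_
  · by_cases h : n = 0
    · simp only [if_pos h]
      exact continuousOn_const
    · simp only [if_neg h]
      exact continuousOn_const.mul ((hc (n - 1)).pow 2)
  · exact (continuousOn_const.mul (hc n)).mul (hc (n + 1))

theorem t_SME : S_SME := by
  intro s T x hs hx hd
  have hD : ∀ k, D s T k x := by
    intro k
    induction k with
    | zero => exact hx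
    | succ k ih => exact ⟨hx, _, hd, D_vqE hs ih⟩
  have step : ∀ a : {a : ℕ → ℝ → ℝ // ∀ k, D s T k a},
      ∃ a' : {a : ℕ → ℝ → ℝ // ∀ k, D s T k a}, Der T a.1 a'.1 := by
    rintro ⟨a, ha⟩
    obtain ⟨_, a', h2, _⟩ := ha 1
    refine ⟨⟨a', fun k => ?_⟩, h2⟩
    obtain ⟨_, b, g2, g3⟩ := ha (k + 1)
    refine D.congr ?_ g3
    intro n t ht
    exact (uniqueDiffOn_Ico (0 : ℝ) T t ht).eq_deriv _ (g2 n t ht) (h2 n t ht)
  choose f hf using step
  refine ⟨fun k => (f^[k] ⟨x, hD⟩).1, rfl, fun k => (f^[k] ⟨x, hD⟩).2 0, fun k n t ht => ?_⟩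
  beta_reduce
  rw [Function.iterate_succ_apply']
  exact hf _ n t ht

end Pool.Agent.N976.EC
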