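import Pool.Agent.N976.EC.Def
import Pool.Agent.N976.SC.T5a
import Pool.Agent.N976.SC.T6

/-!
# Lower bound for the vorticity
-/

open Set Filter Topology MeasureTheory
open scoped ContDiff

set_option autoImplicit false

namespace Pool.Agent.N976.EC

open Pool.Agent.N976.SC

namespace U6

/-- the stream function of the dilated packet -/
noncomputable def hn (s : ℝ) (h : E3 → ℝ) (n : ℕ) (y : E3) : ℝ := s ^ n * h (s ^ (2 * n) • y)

lemma fderiv_hn {s : ℝ} {h : E3 → ℝ} (hh : ContDiff ℝ ∞ h) (n : ℕ) (y b : E3) :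
    fderiv ℝ (hn s h n) y b = s ^ (3 * n) * fderiv ℝ h (s ^ (2 * n) • y) b := by
  have h1 : HasFDerivAt h (fderiv ℝ h (s ^ (2 * n) • y)) (s ^ (2 * n) • y) :=
    (hh.differentiable (by simp) _).hasFDerivAt
  have h2 : HasFDerivAt (fun y : E3 => s ^ (2 * n) • y)
      (s ^ (2 * n) • ContinuousLinearMap.id ℝ E3) y := by
    have h0 := (s ^ (2 * n) • ContinuousLinearMap.id ℝ E3).hasFDerivAt (x := y)
    exact h0
  have h3 := (h1.comp y h2).const_mul (s ^ n)
  have h4 : fderiv ℝ (hn s h n) y = s ^ n • (fderiv ℝ h (s ^ (2 * n) • y)).comp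
      (s ^ (2 * n) • ContinuousLinearMap.id ℝ E3) := h3.fderiv
  rw [h4]
  simp only [ContinuousLinearMap.smul_apply, ContinuousLinearMap.comp_apply,
    ContinuousLinearMap.id_apply, map_smul, smul_eq_mul]
  rw [show 3 * n = n + 2 * n by ring, pow_add]
  ring

lemma pk_sf {s : ℝ} {h : E3 → ℝ} (hh : ContDiff ℝ ∞ h) (n : ℕ) :
    pk s (sf h) n = sf (hn s h n) := by
  funext y
  unfold pk sf
  rw [fderiv_hn hh, fderiv_hn hh]
  ext i
  fin_cases i <;> simp

lemma hn_smooth {s : ℝ} {h : E3 → ℝ} (hh : ContDiff ℝ ∞ h) (n : ℕ) : ContDiff ℝ ∞ (hn s h n) :=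
  contDiff_const.mul (hh.comp (contDiff_id.const_smul (s ^ (2 * n))))

lemma hn_out {s : ℝ} (hs : 1 < s) {h : E3 → ℝ} (h0 : ∀ y, 1 / 2 ≤ ‖y‖ → h y = 0) (n : ℕ) {y : E3}
    (hy : 1 ≤ ‖y‖) : hn s h n y = 0 := by
  unfold hn
  rw [h0 _ (by linarith [T6.norm_dil hs n hy]), mul_zero]

lemma cs_of {F : E3 → ℝ} (h0 : ∀ y, 1 ≤ ‖y‖ → F y = 0) : HasCompactSupport F := by
  refine HasCompactSupport.intro (isCompact_closedBall (0 : E3) 1) ?_
  intro y hy
  refine h0 y ?_
  simp only [Metric.mem_closedBall, dist_zero_right, not_le] at hy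
  exact hy.le

/-- integration by parts -/
lemma parts {f g : E3 → ℝ} (hf : ContDiff ℝ ∞ f) (hg : ContDiff ℝ ∞ g)
    (h0 : ∀ y, 1 ≤ ‖y‖ → f y = 0) (b : E3) :
    ∫ y, fderiv ℝ f y b * g y = -∫ y, f y * fderiv ℝ g y b := by
  have hcf : HasCompactSupport f := cs_of h0
  have c1 : Continuous (fun y => fderiv ℝ f y b) :=
    (hf.continuous_fderiv (by simp)).clm_apply continuous_const
  have c2 : Continuous (fun y => fderiv ℝ g y b) :=
    (hg.continuous_fderiv (by simp)).clm_apply continuous_const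
  have s1 : HasCompactSupport (fun y => fderiv ℝ f y b) := hcf.fderiv_apply (𝕜 := ℝ) b
  have i1 : Integrable (fun y => fderiv ℝ f y b * g y) :=
    (c1.mul hg.continuous).integrable_of_hasCompactSupport s1.mul_right
  have i2 : Integrable (fun y => f y * fderiv ℝ g y b) :=
    (hf.continuous.mul c2).integrable_of_hasCompactSupport hcf.mul_right
  have i3 : Integrable (fun y => f y * g y) :=
    (hf.continuous.mul hg.continuous).integrable_of_hasCompactSupport hcf.mul_right
  have h := integral_mul_fderiv_eq_neg_fderiv_mul_of_integrable (v := b) i1 i2 i3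
    (fun x _ => hf.differentiable (by simp) x) (fun x _ => hg.differentiable (by simp) x)
  linarith

/-- the coordinate functions -/
lemma comp_smooth {v : E3 → E3} (hv : ContDiff ℝ ∞ v) (i : Fin 3) : ContDiff ℝ ∞ (fun y => v y i) :=
  (EuclideanSpace.proj (𝕜 := ℝ) i).contDiff.comp hv

lemma comp_fderiv {v : E3 → E3} (hv : ContDiff ℝ ∞ v) (i : Fin 3) (y b : E3) :
    fderiv ℝ (fun y => v y i) y b = (fderiv ℝ v y b) i := by
  have h1 : HasFDerivAt v (fderiv ℝ v y) y := (hv.differentiable (by simp) y).hasFDerivAt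
  have h2 := (EuclideanSpace.proj (𝕜 := ℝ) i).hasFDerivAt.comp y h1
  have h3 : fderiv ℝ (fun y => v y i) y = (EuclideanSpace.proj (𝕜 := ℝ) i).comp (fderiv ℝ v y) :=
    h2.fderiv
  rw [h3]
  rfl

/-- the pairing with the curl of a stream function -/
lemma ip_sf {f : E3 → ℝ} {v : E3 → E3} (hf : ContDiff ℝ ∞ f) (hv : ContDiff ℝ ∞ v)
    (h0 : ∀ y, 1 ≤ ‖y‖ → f y = 0) : ip (sf f) v = ∫ y, f y * vz v y := by
  have hcf : HasCompactSupport f := cs_of h0
  have e : ∀ y, inner ℝ (sf f y) (v y) =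
      fderiv ℝ f y (bv 1) * v y 0 - fderiv ℝ f y (bv 0) * v y 1 := by
    intro y
    rw [PiLp.inner_apply, Fin.sum_univ_three]
    unfold sf
    simp
    ring
  have c : ∀ i j : Fin 3, Continuous (fun y => fderiv ℝ f y (bv i) * v y j) := fun i j =>
    ((hf.continuous_fderiv (by simp)).clm_apply continuous_const).mul (comp_smooth hv j).continuous
  have s : ∀ i : Fin 3, HasCompactSupport (fun y => fderiv ℝ f y (bv i)) := fun i =>
    hcf.fderiv_apply (𝕜 := ℝ) (bv i)
  have i1 : ∀ i j : Fin 3, Integrable (fun y => fderiv ℝ f y (bv i) * v y j) := fun i j =>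
    (c i j).integrable_of_hasCompactSupport (s i).mul_right
  have c2 : ∀ i j : Fin 3, Continuous (fun y => f y * (fderiv ℝ v y (bv i)) j) := fun i j => by
    refine hf.continuous.mul ?_
    exact (EuclideanSpace.proj (𝕜 := ℝ) j).continuous.comp
      ((hv.continuous_fderiv (by simp)).clm_apply continuous_const)
  have i2 : ∀ i j : Fin 3, Integrable (fun y => f y * (fderiv ℝ v y (bv i)) j) := fun i j =>
    (c2 i j).integrable_of_hasCompactSupport hcf.mul_right
  unfold ip
  simp_rw [e]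
  rw [integral_sub (i1 1 0) (i1 0 1), parts hf (comp_smooth hv 0) h0,
    parts hf (comp_smooth hv 1) h0]
  simp_rw [comp_fderiv hv]
  unfold vz
  simp_rw [mul_sub]
  rw [integral_sub (i2 0 1) (i2 1 0)]
  ring

end U6

open U6 in
theorem t_LE : S_LE := by
  intro s N P h hs hh h0 hP hN hnorm
  have s0 : 0 < s := by linarith
  have hPs : ContDiff ℝ ∞ P := by
    rw [hP]
    unfold sf
    rw [contDiff_piLp]
    intro i
    have d : ∀ j : Fin 3, ContDiff ℝ ∞ (fun y => fderiv ℝ h y (bv j)) := fun j =>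
      (hh.fderiv_right (m := ∞) (by simp)).clm_apply contDiff_const
    fin_cases i
    · exact d 1
    · exact (d 0).neg
    · exact contDiff_const
  have hh1 : ∀ z : E3, 1 / 2 < ‖z‖ → fderiv ℝ h z = 0 := by
    intro z hz
    have : h =ᶠ[𝓝 z] fun _ => 0 := by
      filter_upwards [(isOpen_lt continuous_const continuous_norm).mem_nhds hz] with w hw
      exact h0 w hw.le
    rw [this.fderiv_eq]
    simp
  have hPc := hPs.continuous
  have hfc : Continuous (fderiv ℝ h) := hh.continuous_fderiv (by simp)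
  have hP0 : ∀ y, 1 / 2 ≤ ‖y‖ → P y = 0 := by
    intro y hy
    have hf0 : fderiv ℝ h y = 0 := by
      rcases hy.lt_or_eq with h1 | h1
      · exact hh1 y h1
      · -- on the sphere by continuity
        have hy0 : y ≠ 0 := by
          intro h2
          rw [h2, norm_zero] at h1
          norm_num at h1
        have hlim : Tendsto (fun t : ℝ => fderiv ℝ h (t • y)) (𝓝[>] 1) (𝓝 (fderiv ℝ h ((1 : ℝ) • y))) := by
          have : Continuous fun t : ℝ => fderiv ℝ h (t • y) := by fun_prop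
          exact (this.tendsto 1).mono_left nhdsWithin_le_nhds
        rw [one_smul] at hlim
        refine tendsto_nhds_unique hlim ?_
        refine tendsto_const_nhds.congr' ?_
        filter_upwards [self_mem_nhdsWithin] with t ht
        have ht1 : (1 : ℝ) < t := ht
        rw [hh1]
        rw [norm_smul, Real.norm_eq_abs, abs_of_pos (by linarith), ← h1]
        linarith
    rw [hP]
    unfold sf
    rw [hf0]
    ext i
    fin_cases i <;> simp
  refine ⟨(∫ y, |h y|) / N + 1, by positivity, fun a M ha hM n => ?_⟩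
  have hM0 : 0 ≤ M := (abs_nonneg _).trans (hM 0)
  obtain ⟨hser, -⟩ := t_SER1 s P hs hPs hP0
  obtain ⟨hv, -, -, -, -⟩ := hser a ha
  set v := ser s P a with hvd
  -- the coefficient
  have k1 := t_IPS s P hs hPs hP0 (pk s P n) (T6.pk_cont hPc n) a ha
  have k2 : ip (pk s P n) v = N * a n := by
    refine k1.unique ?_
    have k3 := hasSum_ite_eq n (N * a n)
    convert! k3 using 1
    funext m
    rw [hnorm]
    by_cases hmn : m = n
    · rw [if_pos hmn.symm, if_pos hmn, hmn, mul_comm]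
    · rw [if_neg (Ne.symm hmn), if_neg hmn, mul_zero]
  have k4 : pk s P n = sf (hn s h n) := by rw [hP]; exact pk_sf hh n
  rw [k4, ip_sf (hn_smooth hh n) hv (fun y hy => hn_out hs h0 n hy)] at k2
  have hcs : HasCompactSupport (hn s h n) := cs_of fun y hy => hn_out hs h0 n hy
  have k5 : |N * a n| ≤ M * ∫ y, |hn s h n y| := by
    rw [← k2, ← integral_const_mul]
    refine (abs_integral_le_integral_abs).trans ?_
    have ci : Integrable (fun y => |hn s h n y|) :=
      (hn_smooth hh n).continuous.abs.integrable_of_hasCompactSupport hcs.abs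
    refine integral_mono_of_nonneg (Eventually.of_forall fun y => abs_nonneg _) (ci.const_mul M)
      (Eventually.of_forall fun y => ?_)
    show |hn s h n y * vz v y| ≤ M * |hn s h n y|
    rw [abs_mul, mul_comm]
    exact mul_le_mul_of_nonneg_right (hM y) (abs_nonneg _)
  have k6 : ∫ y, |hn s h n y| = s ^ n * ((s ^ (6 * n))⁻¹ * ∫ y, |h y|) := by
    have e1 : ∀ y, |hn s h n y| = s ^ n * |h (s ^ (2 * n) • y)| := by
      intro y
      unfold hn
      rw [abs_mul, abs_of_pos (pow_pos s0 n)]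
    simp_rw [e1]
    rw [integral_const_mul]
    congr 1
    have := Measure.integral_comp_smul (volume : Measure E3) (fun y => |h y|) (s ^ (2 * n))
    rw [this]
    have e2 : Module.finrank ℝ E3 = 3 := by simp
    rw [e2, smul_eq_mul, abs_of_pos (by positivity)]
    congr 2
    rw [← pow_mul]
    ring_nf
  rw [k6, abs_mul, abs_of_pos hN] at k5
  have hI : 0 ≤ ∫ y, |h y| := integral_nonneg fun y => abs_nonneg _
  have k7 : s ^ (5 * n) * (s ^ n * (s ^ (6 * n))⁻¹) = 1 := by
    have : s ^ (6 * n) = s ^ (5 * n) * s ^ n := by rw [← pow_add]; ring_nf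
    rw [this]
    have h1 : s ^ (5 * n) ≠ 0 := (pow_pos s0 _).ne'
    have h2 : s ^ n ≠ 0 := (pow_pos s0 _).ne'
    field_simp
  have k8 : s ^ (5 * n) * |a n| ≤ (∫ y, |h y|) / N * M := by
    rw [div_mul_eq_mul_div, le_div_iff₀ hN]
    calc s ^ (5 * n) * |a n| * N = s ^ (5 * n) * (N * |a n|) := by ring
      _ ≤ s ^ (5 * n) * (M * (s ^ n * ((s ^ (6 * n))⁻¹ * ∫ y, |h y|))) :=
          mul_le_mul_of_nonneg_left k5 (pow_pos s0 _).le
      _ = (s ^ (5 * n) * (s ^ n * (s ^ (6 * n))⁻¹)) * ((∫ y, |h y|) * M) := by ring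
      _ = (∫ y, |h y|) * M := by rw [k7, one_mul]
  nlinarith

end Pool.Agent.N976.EC
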