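import Pool.Agent.N976.EC.Def

/-!
# EC/U8: periodic extension of compactly supported fields
-/

set_option autoImplicit false

namespace Pool.Agent.N976.EC

open Pool.Agent.N976.SC
open Set Filter Topology MeasureTheory
open scoped ContDiff

namespace U8

theorem twopi : (0 : ℝ) < 2 * Real.pi := by positivity

theorem rd_add (i : Fin 3) (x : V) : rd (x + Pi.single i (2 * Real.pi)) = rd x := by
  funext j
  unfold rd
  by_cases h : j = i
  · subst h
    have e1 : (x + Pi.single j (2 * Real.pi) : V) j = x j + 2 * Real.pi := by simp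
    have e2 : (x j + 2 * Real.pi + Real.pi) / (2 * Real.pi) =
        (x j + Real.pi) / (2 * Real.pi) + 1 := by
      have := Real.pi_pos
      field_simp
      ring
    rw [e1, e2, Int.floor_add_one]
    push_cast
    ring
  · have e1 : (x + Pi.single i (2 * Real.pi) : V) j = x j := by simp [h]
    rw [e1]

theorem rd_ge (x : V) (i : Fin 3) : -Real.pi ≤ rd x i := by
  unfold rd
  have h := Int.floor_le ((x i + Real.pi) / (2 * Real.pi))
  rw [le_div_iff₀ twopi] at h
  linarith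

theorem rd_lt (x : V) (i : Fin 3) : rd x i < Real.pi := by
  unfold rd
  have h := Int.lt_floor_add_one ((x i + Real.pi) / (2 * Real.pi))
  rw [div_lt_iff₀ twopi] at h
  linarith

theorem cos_rd (x : V) (i : Fin 3) : Real.cos (rd x i) = Real.cos (x i) := by
  unfold rd
  rw [mul_comm, Real.cos_sub_int_mul_two_pi]

theorem rd_eq {x : V} (h : ∀ i, -Real.pi ≤ x i ∧ x i < Real.pi) : rd x = x := by
  funext i
  unfold rd
  have e : ⌊(x i + Real.pi) / (2 * Real.pi)⌋ = 0 := by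
    rw [Int.floor_eq_iff]
    constructor
    · push_cast
      exact div_nonneg (by linarith [(h i).1]) twopi.le
    · push_cast
      rw [div_lt_iff₀ twopi]
      linarith [(h i).2]
  rw [e]
  simp

/-- far from the lattice points the reduction is outside the unit ball -/
theorem out_of {x : V} (h : ∃ i, Real.cos (x i) < 0) : 1 < ‖(WithLp.toLp 2 (rd x) : E3)‖ := by
  obtain ⟨i, hi⟩ := h
  have h1 : |rd x i| ≤ ‖(WithLp.toLp 2 (rd x) : E3)‖ := PiLp.norm_apply_le (WithLp.toLp 2 (rd x) : E3) i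
  refine lt_of_lt_of_le ?_ h1
  by_contra h2
  push Not at h2
  rw [← cos_rd] at hi
  have h3 := Real.cos_pos_of_le_one h2
  linarith

/-- near a point with no coordinate in the odd multiples of `π` the reduction is a translation -/
theorem trans_of {x : V} (h : ∀ i, -1 < Real.cos (x i)) :
    ∃ c : V, (∀ᶠ y in 𝓝 x, rd y = y - c) := by
  refine ⟨fun i => 2 * Real.pi * ⌊(x i + Real.pi) / (2 * Real.pi)⌋, ?_⟩
  have h1 : ∀ i, ∀ᶠ y : V in 𝓝 x, ⌊(y i + Real.pi) / (2 * Real.pi)⌋ =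
      ⌊(x i + Real.pi) / (2 * Real.pi)⌋ := by
    intro i
    set k := ⌊(x i + Real.pi) / (2 * Real.pi)⌋ with hk
    have hc : ContinuousAt (fun y : V => (y i + Real.pi) / (2 * Real.pi)) x :=
      (((continuous_apply i).add continuous_const).div_const _).continuousAt
    have h2 : (x i + Real.pi) / (2 * Real.pi) ∈ Ioo (k : ℝ) (k + 1) := by
      refine ⟨lt_of_le_of_ne (Int.floor_le _) fun h3 => ?_, Int.lt_floor_add_one _⟩
      have h4 : x i = k * (2 * Real.pi) - Real.pi := by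
        rw [eq_div_iff twopi.ne'] at h3
        linarith
      have h5 := h i
      rw [h4, Real.cos_sub_pi] at h5
      have h6 : Real.cos (k * (2 * Real.pi)) = 1 := Real.cos_int_mul_two_pi k
      rw [h6] at h5
      exact lt_irrefl _ h5
    filter_upwards [hc.eventually (isOpen_Ioo.mem_nhds h2)] with y hy
    rw [Int.floor_eq_iff]
    exact ⟨hy.1.le, hy.2⟩
  filter_upwards [eventually_all.2 h1] with y hy
  funext i
  unfold rd
  rw [hy i]
  rfl

theorem dich (x : V) : (∃ i, Real.cos (x i) < 0) ∨ (∀ i, -1 < Real.cos (x i)) := by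
  by_cases h : ∃ i, Real.cos (x i) < 0
  · exact Or.inl h
  · push Not at h
    exact Or.inr fun i => lt_of_lt_of_le (by norm_num) (h i)

theorem nbhd_out {x : V} (h : ∃ i, Real.cos (x i) < 0) :
    ∀ᶠ y in 𝓝 x, ∃ i, Real.cos (y i) < 0 := by
  obtain ⟨i, hi⟩ := h
  have hc : ContinuousAt (fun y : V => Real.cos (y i)) x :=
    (Real.continuous_cos.comp (continuous_apply i)).continuousAt
  filter_upwards [hc.eventually (isOpen_Iio.mem_nhds hi)] with y hy
  exact ⟨i, hy⟩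

theorem lft_zero {v : E3 → E3} (hv : ∀ y, 1 ≤ ‖y‖ → v y = 0) {x : V}
    (h : 1 ≤ ‖(WithLp.toLp 2 (rd x) : E3)‖) : lft v x = 0 := by
  funext i
  unfold lft
  rw [hv _ h]
  rfl

/-- the isomorphism -/
noncomputable def J : E3 ≃L[ℝ] V := PiLp.continuousLinearEquiv 2 ℝ (fun _ : Fin 3 => ℝ)

theorem J_symm (x : V) : J.symm x = WithLp.toLp 2 x := rfl

theorem J_apply (y : E3) : J y = fun i => y i := rfl

theorem lft_eq (v : E3 → E3) (x : V) : lft v x = J (v (J.symm (rd x))) := rfl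

theorem per (v : E3 → E3) : Per (lft v) := by
  intro i x
  unfold lft
  rw [rd_add]

theorem sm (T : ℝ) (u : ℝ → E3 → E3)
    (hu : ContDiffOn ℝ ∞ (fun z : ℝ × E3 => u z.1 z.2) (Ico 0 T ×ˢ univ))
    (h0 : ∀ t ∈ Ico 0 T, ∀ y, 1 ≤ ‖y‖ → u t y = 0) :
    ContDiffOn ℝ ∞ (fun z : ℝ × V => lft (u z.1) z.2) (Ico 0 T ×ˢ univ) := by
  rintro ⟨t, x⟩ hz
  rcases dich x with h | h
  · have h1 : (fun z : ℝ × V => lft (u z.1) z.2) =ᶠ[𝓝[Ico 0 T ×ˢ univ] (t, x)] fun _ => 0 := by
      have h2 : ∀ᶠ z : ℝ × V in 𝓝 (t, x), ∃ i, Real.cos (z.2 i) < 0 :=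
        (continuous_snd.tendsto (t, x)).eventually (nbhd_out h)
      filter_upwards [nhdsWithin_le_nhds h2, self_mem_nhdsWithin] with z hz1 hz2
      exact lft_zero (h0 z.1 hz2.1) (out_of hz1).le
    exact contDiffWithinAt_const.congr_of_eventuallyEq h1 (h1.self_of_nhdsWithin hz)
  · obtain ⟨c, hc⟩ := trans_of h
    have h1 : (fun z : ℝ × V => lft (u z.1) z.2) =ᶠ[𝓝[Ico 0 T ×ˢ univ] (t, x)]
        fun z => J (u z.1 (J.symm (z.2 - c))) := by
      have h2 : ∀ᶠ z : ℝ × V in 𝓝 (t, x), rd z.2 = z.2 - c :=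
        (continuous_snd.tendsto (t, x)).eventually hc
      filter_upwards [nhdsWithin_le_nhds h2] with z hz1
      rw [lft_eq, hz1]
    refine ContDiffWithinAt.congr_of_eventuallyEq ?_ h1 (h1.self_of_nhdsWithin hz)
    have h3 : ContDiffOn ℝ ∞ (fun z : ℝ × V => u z.1 (J.symm (z.2 - c))) (Ico 0 T ×ˢ univ) := by
      have h4 : ContDiff ℝ ∞ (fun z : ℝ × V => (z.1, J.symm (z.2 - c))) :=
        contDiff_fst.prodMk (J.symm.contDiff.comp (contDiff_snd.sub contDiff_const))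
      exact hu.comp h4.contDiffOn fun z hz => ⟨hz.1, mem_univ _⟩
    exact J.contDiff.contDiffAt.comp_contDiffWithinAt (t, x) (h3 (t, x) hz)

theorem dt' (T : ℝ) (u : ℝ → E3 → E3)
    (hu : ContDiffOn ℝ ∞ (fun z : ℝ × E3 => u z.1 z.2) (Ico 0 T ×ˢ univ)) (t : ℝ)
    (ht : t ∈ Ico 0 T) : dtT T (fun τ => lft (u τ)) t = lft (dt T u t) := by
  funext x
  unfold dtT
  set y : E3 := WithLp.toLp 2 (rd x) with hy
  have hd : DifferentiableWithinAt ℝ (fun τ => u τ y) (Ico 0 T) t := by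
    have h1 : ContDiffOn ℝ ∞ (fun τ : ℝ => u τ y) (Ico 0 T) := by
      have h4 : ContDiff ℝ ∞ (fun τ : ℝ => ((τ, y) : ℝ × E3)) := contDiff_id.prodMk contDiff_const
      exact hu.comp h4.contDiffOn fun z hz => ⟨hz, mem_univ _⟩
    exact (h1.differentiableOn (by simp)) t ht
  have h2 : HasDerivWithinAt (fun τ => J (u τ y)) (J (derivWithin (fun τ => u τ y) (Ico 0 T) t))
      (Ico 0 T) t :=
    (J : E3 →L[ℝ] V).hasFDerivAt.comp_hasDerivWithinAt t hd.hasDerivWithinAt
  exact h2.derivWithin (uniqueDiffOn_Ico 0 T t ht)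

theorem fd_zero {v : E3 → E3} (hv : ∀ y, 1 ≤ ‖y‖ → v y = 0) {y : E3} (h : 1 < ‖y‖) :
    fderiv ℝ v y = 0 := by
  have h1 : v =ᶠ[𝓝 y] fun _ => 0 := by
    have h2 : {x : E3 | 1 < ‖x‖} ∈ 𝓝 y := (isOpen_lt continuous_const continuous_norm).mem_nhds h
    filter_upwards [h2] with x hx
    exact hv x (le_of_lt hx)
  rw [h1.fderiv_eq]
  exact fderiv_const_apply _

theorem fd (v : E3 → E3) (hs : ContDiff ℝ ∞ v) (hv : ∀ y, 1 ≤ ‖y‖ → v y = 0) (x h : V) :
    fderiv ℝ (lft v) x h = fun i => fderiv ℝ v (WithLp.toLp 2 (rd x)) (WithLp.toLp 2 h) i := by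
  rcases dich x with hx | hx
  · rw [fd_zero hv (out_of hx)]
    have h1 : lft v =ᶠ[𝓝 x] fun _ => 0 := by
      filter_upwards [nbhd_out hx] with y hy
      exact lft_zero hv (out_of hy).le
    rw [h1.fderiv_eq]
    simp only [fderiv_fun_const, Pi.zero_apply]
    rfl
  · obtain ⟨c, hc⟩ := trans_of hx
    have h1 : lft v =ᶠ[𝓝 x] fun y => J (v (J.symm (y - c))) := by
      filter_upwards [hc] with y hy
      rw [lft_eq, hy]
    rw [h1.fderiv_eq]
    have h2 : HasFDerivAt (fun y : V => J.symm (y - c)) (J.symm : V →L[ℝ] E3) x := by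
      have h3 : HasFDerivAt (fun y : V => y - c) (ContinuousLinearMap.id ℝ V) x :=
        (hasFDerivAt_id x).sub_const c
      exact (J.symm : V →L[ℝ] E3).hasFDerivAt.comp x h3
    have h4 : HasFDerivAt v (fderiv ℝ v (J.symm (x - c))) (J.symm (x - c)) :=
      (hs.differentiable (by simp) _).hasFDerivAt
    have h5 : HasFDerivAt (fun y : V => J (v (J.symm (y - c))))
        ((J : E3 →L[ℝ] V).comp ((fderiv ℝ v (J.symm (x - c))).comp (J.symm : V →L[ℝ] E3))) x :=
      (J : E3 →L[ℝ] V).hasFDerivAt.comp x (h4.comp x h2)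
    rw [h5.fderiv, ← hc.self_of_nhds]
    rfl

theorem Q_out {x : V} (h : x ∉ Q) : 1 ≤ ‖(WithLp.toLp 2 x : E3)‖ := by
  unfold Q at h
  rw [mem_Icc, Pi.le_def, Pi.le_def] at h
  have h1 : ∃ i, Real.pi < |x i| := by
    by_contra h2
    push Not at h2
    exact h ⟨fun i => (abs_le.1 (h2 i)).1, fun i => (abs_le.1 (h2 i)).2⟩
  obtain ⟨i, hi⟩ := h1
  have h3 : |x i| ≤ ‖(WithLp.toLp 2 x : E3)‖ := PiLp.norm_apply_le (WithLp.toLp 2 x : E3) i
  linarith [Real.pi_gt_three]

theorem lft_Q {v : E3 → E3} (hv : ∀ y, 1 ≤ ‖y‖ → v y = 0) {x : V} (hx : x ∈ Q) :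
    lft v x = dn v x := by
  by_cases h : ∀ i, x i < Real.pi
  · unfold lft dn
    rw [rd_eq fun i => ⟨hx.1 i, h i⟩]
  · push Not at h
    obtain ⟨i, hi⟩ := h
    have e : x i = Real.pi := le_antisymm (hx.2 i) hi
    have h1 : 1 < ‖(WithLp.toLp 2 (rd x) : E3)‖ := out_of ⟨i, by rw [e]; simp⟩
    have h2 : 1 ≤ ‖(WithLp.toLp 2 x : E3)‖ := by
      have h3 : |x i| ≤ ‖(WithLp.toLp 2 x : E3)‖ := PiLp.norm_apply_le (WithLp.toLp 2 x : E3) i
      rw [e, abs_of_pos Real.pi_pos] at h3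
      linarith [Real.pi_gt_three]
    rw [lft_zero hv h1.le]
    funext j
    unfold dn
    rw [hv _ h2]
    rfl

theorem int_E3 (F : E3 → ℝ) : ∫ x : V, F (WithLp.toLp 2 x) = ∫ y : E3, F y :=
  (PiLp.volume_preserving_toLp (Fin 3)).integral_comp
    (MeasurableEquiv.toLp 2 _).measurableEmbedding F

theorem int_Q {v w : V → V} (F : E3 → ℝ) (h : ∀ x ∈ Q, ∑ i, v x i * w x i = F (WithLp.toLp 2 x))
    (h0 : ∀ y, 1 ≤ ‖y‖ → F y = 0) : ipT v w = ∫ y, F y := by
  unfold ipT
  have hQ : MeasurableSet Q := measurableSet_Icc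
  rw [setIntegral_congr_fun hQ h, ← int_E3]
  refine setIntegral_eq_integral_of_forall_compl_eq_zero fun x hx => ?_
  exact h0 _ (Q_out hx)

theorem ip' (v : E3 → E3) (w : V → V) (hv : ∀ y, 1 ≤ ‖y‖ → v y = 0) :
    ipT (lft v) w = SC.ip v (up w) := by
  unfold SC.ip
  refine int_Q (fun y => inner ℝ (v y) (up w y)) (fun x hx => ?_) fun y hy => ?_
  · rw [lft_Q hv hx]
    simp only [PiLp.inner_apply, RCLike.inner_apply, conj_trivial]
    unfold dn up
    exact Finset.sum_congr rfl fun i _ => mul_comm _ _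
  · simp only [hv y hy, inner_zero_left]

theorem ipd' (v : E3 → E3) (w : V → V) (hv : ∀ y, 1 ≤ ‖y‖ → v y = 0) :
    ipT w (dn v) = SC.ip (up w) v := by
  unfold SC.ip
  refine int_Q (fun y => inner ℝ (up w y) (v y)) (fun x hx => ?_) fun y hy => ?_
  · simp only [PiLp.inner_apply, RCLike.inner_apply, conj_trivial]
    unfold dn up
    exact Finset.sum_congr rfl fun i _ => mul_comm _ _
  · simp only [hv y hy, inner_zero_right]

end U8

theorem t_LIFT : Lift where
  per := U8.per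
  sm := U8.sm
  dt := U8.dt'
  fd := U8.fd
  ip := fun v w _ hv _ => U8.ip' v w hv
  ipd := fun v w _ hv _ => U8.ipd' v w hv

end Pool.Agent.N976.EC
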