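import Pool.Agent.N976.EC.Def
import Pool.Agent.N976.SC.T9

/-! Assembly. -/

open Set Filter Topology MeasureTheory
open scoped ContDiff

set_option autoImplicit false

namespace Pool.Agent.N976.EC

open Pool.Agent.N976.SC
open Pool.Agent.N976.SC.T4

/-- The constraint fields `r k (R^n x)`. -/
noncomputable def fldT (R : ℝ) (r : Fin 2 → V → V) (p : Fin 2 × ℕ) (x : V) : V :=
  r p.1 (R ^ p.2 • x)

/-- `C^∞`, and zero for `|x| ≥ 1`. -/
def LocT (v : V → V) : Prop := ContDiff ℝ ∞ v ∧ ∀ x : V, 1 ≤ ∑ i, x i ^ 2 → v x = 0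

/-- `∂ₜu + (u·∇)u`. -/
noncomputable def resT (T : ℝ) (u : ℝ → V → V) (t : ℝ) (x : V) : V :=
  dtT T u t x + advT (u t) (u t) x

namespace U9

lemma SolT.mono {ι : Type} {T T' : ℝ} {r : ι → V → V} {u : ℝ → V → V} (h : SolT r T u)
    (hT : T' ≤ T) : SolT r T' u := by
  have hsub : Ico 0 T' ⊆ Ico 0 T := Ico_subset_Ico_right hT
  have hdt : ∀ t ∈ Ico 0 T', ∀ y, dtT T' u t y = dtT T u t y := by
    intro t ht y
    unfold dtT
    have e : Ico 0 T' = Ico 0 T ∩ Iio T' := by
      ext τ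
      simp only [mem_Ico, mem_inter_iff, mem_Iio]
      constructor
      · intro hτ
        exact ⟨⟨hτ.1, hτ.2.trans_le hT⟩, hτ.2⟩
      · intro hτ
        exact ⟨hτ.1.1, hτ.2⟩
    rw [e]
    exact derivWithin_inter (Iio_mem_nhds ht.2)
  refine ⟨h.c1.mono (prod_mono hsub subset_rfl), fun t ht => h.per t (hsub ht),
    fun t ht => h.div t (hsub ht), fun t ht => h.con t (hsub ht), ?_⟩
  intro t ht w hw hc
  have := h.eqn t (hsub ht) w hw hc
  have e : (fun y => dtT T' u t y + advT (u t) (u t) y) =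
      fun y => dtT T u t y + advT (u t) (u t) y := by
    ext1 y
    rw [hdt t ht y]
  rw [e]
  exact this

lemma vqE_smul (s A : ℝ) (a : ℕ → ℝ) (n : ℕ) :
    vqE s (fun m => A * a m) n = A ^ 2 * vqE s a n := by
  unfold vqE
  split_ifs <;> ring

lemma up_dn (v : E3 → E3) : up (dn v) = v := rfl

lemma sq_norm (x : V) : ‖(WithLp.toLp 2 x : E3)‖ ^ 2 = ∑ i, x i ^ 2 := by
  rw [EuclideanSpace.norm_sq_eq]
  simp

lemma rd_eq {x : V} (hx : ∀ i, -Real.pi ≤ x i ∧ x i < Real.pi) : rd x = x := by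
  ext i
  obtain ⟨h1, h2⟩ := hx i
  have hp := Real.pi_pos
  have : ⌊(x i + Real.pi) / (2 * Real.pi)⌋ = 0 := by
    rw [Int.floor_eq_zero_iff, mem_Ico]
    constructor
    · apply div_nonneg <;> linarith
    · rw [div_lt_one (by positivity)]
      linarith
  unfold rd
  rw [this]
  simp

lemma loc_of {v : E3 → E3} (h : ContDiff ℝ ∞ v) (h0 : ∀ y, 1 ≤ ‖y‖ → v y = 0) :
    LocT (dn v) := by
  constructor
  · rw [contDiff_pi]
    intro i
    have h1 : ContDiff ℝ ∞ (fun x : V => v (WithLp.toLp 2 x)) :=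
      h.comp (PiLp.continuousLinearEquiv 2 ℝ (fun _ : Fin 3 => ℝ)).symm.contDiff
    exact (EuclideanSpace.proj i : E3 →L[ℝ] ℝ).contDiff.comp h1
  · intro x hx
    have h1 : 1 ≤ ‖(WithLp.toLp 2 x : E3)‖ := by
      rw [← sq_norm] at hx
      by_contra hcon
      push Not at hcon
      have := norm_nonneg (WithLp.toLp 2 x : E3)
      nlinarith
    ext i
    unfold dn
    rw [h0 _ h1]
    rfl

lemma fld_eq (s : ℝ) (r : Fin 2 → E3 → E3) (p : Fin 2 × ℕ) :
    fldT (s ^ 2) (fun k => dn (r k)) p = dn (fm s r p) := by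
  ext x i
  unfold fldT dn fm
  rw [pow_mul]
  rfl

lemma toLp_single (i : Fin 3) : (WithLp.toLp 2 (Pi.single i 1 : V) : E3) = bv i := rfl

lemma div_lft (L : Lift) {v : E3 → E3} (hv : ContDiff ℝ ∞ v) (h0 : ∀ y, 1 ≤ ‖y‖ → v y = 0)
    (x : V) : divT (lft v) x = divg v (WithLp.toLp 2 (rd x)) := by
  unfold divT divg
  refine Finset.sum_congr rfl fun i _ => ?_
  rw [L.fd v hv h0]
  rfl

lemma adv_lft (L : Lift) {a b : E3 → E3} (hb : ContDiff ℝ ∞ b) (h0 : ∀ y, 1 ≤ ‖y‖ → b y = 0) :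
    advT (lft a) (lft b) = lft (adv a b) := by
  ext x i
  unfold advT
  rw [L.fd b hb h0]
  rfl

lemma curl_lft (L : Lift) {v : E3 → E3} (hv : ContDiff ℝ ∞ v) (h0 : ∀ y, 1 ≤ ‖y‖ → v y = 0)
    (x : V) : curlT (lft v) x 2 = vz v (WithLp.toLp 2 (rd x)) := by
  unfold curlT vz pdT
  simp only [Matrix.cons_val]
  rw [L.fd v hv h0, L.fd v hv h0]
  rfl

lemma lft_add (v w : E3 → E3) (x : V) : lft v x + lft w x = lft (fun y => v y + w y) x := rfl

theorem assembly (hTBE : S_TBE) (hOE : S_OE) (hQE : S_QE) (hVE : S_VE) (hSME : S_SME)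
    (hLE : S_LE) (hUNT : S_UNT) (hENT : S_ENT) (hCPT : S_CPT) (L : Lift)
    (hSER1 : S_SER1) (hSER2 : S_SER2) (hSER3 : S_SER3) (hIPS : S_IPS) (R₀ : ℝ) :
    ∃ (R θ : ℝ) (P : V → V) (r : Fin 2 → V → V), R₀ ≤ R ∧ 1 < R ∧ 0 < θ ∧ θ < 1 ∧
      LocT P ∧ (∀ x, divT P x = 0) ∧ (∀ k, LocT (r k)) ∧
      ∀ (m : ℕ) (a : ℕ → ℝ), 0 < ∑ n ∈ Finset.range m, θ ^ n * a n →
        ∃ (T : ℝ) (u : ℝ → V → V), 0 < T ∧ SolT (fldT R r) T u ∧
        ContDiffOn ℝ ∞ (fun z : ℝ × V => u z.1 z.2) (Ico 0 T ×ˢ univ) ∧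
        (∀ x ∈ Q, u 0 x = ∑ n ∈ Finset.range m, a n • P (R ^ n • x)) ∧
        (∀ t ∈ Ico 0 T, ∀ x ∈ Q, 1 ≤ ∑ i, x i ^ 2 → u t x = 0) ∧
        (∀ t ∈ Ico 0 T, ∀ w, Continuous w → (∀ i, ipT w (fldT R r i) = 0) →
          ipT (resT T u t) w = 0) ∧
        (∀ (T' : ℝ) (v : ℝ → V → V), 0 < T' → SolT (fldT R r) T' v → v 0 = u 0 →
          T' ≤ T ∧ ∀ t ∈ Ico 0 T', v t = u t) ∧
        (∀ t ∈ Ico 0 T, ipT (u t) (u t) = ipT (u 0) (u 0)) ∧
        ∀ M : ℝ, ∃ t ∈ Ico 0 T, ∃ x i, M < |curlT (u t) x i| := by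
  obtain ⟨s₁, h1⟩ := hOE
  obtain ⟨s₂, h2⟩ := hTBE
  obtain ⟨s, hs⟩ : ∃ s, s = max (max s₁ s₂) (max 12 R₀) := ⟨_, rfl⟩
  have hss1 : s₁ ≤ s := by rw [hs]; exact (le_max_left _ _).trans (le_max_left _ _)
  have hss2 : s₂ ≤ s := by rw [hs]; exact (le_max_right _ _).trans (le_max_left _ _)
  have hs12 : 12 ≤ s := by rw [hs]; exact (le_max_left _ _).trans (le_max_right _ _)
  have hsR : R₀ ≤ s := by rw [hs]; exact (le_max_right _ _).trans (le_max_right _ _)
  have hs1 : 1 < s := by linarith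
  have hs0 : 0 < s := by linarith
  obtain ⟨θ, hθ0, hθ1, h1⟩ := h1 s hss1
  obtain ⟨κ, P, r, hT, hrk⟩ := h2 s hss2
  have hκ := hT.κ0
  have hPd : Differentiable ℝ P := hT.sm.differentiable (by simp)
  have hP1 : ∀ y, 1 ≤ ‖y‖ → P y = 0 := fun y hy => hT.out y (by linarith)
  obtain ⟨hS1, -, -, -⟩ := hSER1 s P hs1 hT.sm hT.out
  obtain ⟨N, hN0, hNo⟩ := hT.norm
  obtain ⟨h, hh1, hh2, hh3⟩ := hT.pot
  have hrs : ∀ k, ContDiff ℝ ∞ (r k) := by
    intro k
    have h3 := hT.rsm (k, 0)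
    have e : fm s r (k, 0) = r k := by
      ext1 y
      simp [fm]
    rw [e] at h3
    exact h3
  refine ⟨s ^ 2, θ / s ^ 3, dn P, fun k => dn (r k), by nlinarith, by nlinarith, by positivity, ?_,
    loc_of hT.sm hP1, ?_, fun k => loc_of (hrs k) (hrk k), ?_⟩
  · rw [div_lt_one (by positivity)]
    have : 1 ≤ s ^ 3 := one_le_pow₀ hs1.le
    linarith
  · intro x
    have h3 := hT.div (WithLp.toLp 2 x)
    rw [← h3]
    unfold divT divg
    refine Finset.sum_congr rfl fun i _ => ?_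
    have e : dn P = fun x : V => WithLp.ofLp (P (WithLp.toLp 2 x)) := rfl
    have h4 : HasFDerivAt (dn P) (((PiLp.continuousLinearEquiv 2 ℝ (fun _ : Fin 3 => ℝ)) :
        E3 →L[ℝ] V).comp ((fderiv ℝ P (WithLp.toLp 2 x)).comp
        ((PiLp.continuousLinearEquiv 2 ℝ (fun _ : Fin 3 => ℝ)).symm : V →L[ℝ] E3))) x := by
      have h5 := ((PiLp.continuousLinearEquiv 2 ℝ (fun _ : Fin 3 => ℝ)).symm :
        V →L[ℝ] E3).hasFDerivAt (x := x)
      have h6 := (hPd ((PiLp.continuousLinearEquiv 2 ℝ (fun _ : Fin 3 => ℝ)).symm x)).hasFDerivAt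
      exact ((PiLp.continuousLinearEquiv 2 ℝ (fun _ : Fin 3 => ℝ)) :
        E3 →L[ℝ] V).hasFDerivAt.comp x (h6.comp x h5)
    rw [h4.fderiv]
    rfl
  intro m a ha
  have hb : 0 < ∑ n ∈ Finset.range m, θ ^ n * (a n / s ^ (3 * n)) := by
    refine lt_of_lt_of_eq ha (Finset.sum_congr rfl fun n _ => ?_)
    rw [div_pow, pow_mul]
    field_simp
  obtain ⟨T₁, x, hT₁, hx0, hdx, hRx, hgr⟩ := h1 m (fun n => a n / s ^ (3 * n)) hb
  obtain ⟨T, hTT⟩ : ∃ T, T = T₁ / κ := ⟨_, rfl⟩
  have hT0 : 0 < T := by rw [hTT]; positivity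
  have hcT : κ * T = T₁ := by rw [hTT]; field_simp
  have hmap : ∀ t ∈ Ico 0 T, κ * t ∈ Ico 0 T₁ := by
    intro t ht
    refine ⟨mul_nonneg hκ.le ht.1, ?_⟩
    rw [← hcT]
    exact mul_lt_mul_of_pos_left ht.2 hκ
  obtain ⟨X, hX⟩ : ∃ X : ℕ → ℝ → ℝ, X = fun n t => x n (κ * t) := ⟨_, rfl⟩
  obtain ⟨X', hX'⟩ : ∃ X' : ℕ → ℝ → ℝ,
      X' = fun n t => κ * vqE s (fun m => x m (κ * t)) n := ⟨_, rfl⟩
  have hxc : ∀ n, ContinuousOn (x n) (Ico 0 T₁) := fun n t ht => (hdx n t ht).continuousWithinAt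
  obtain ⟨hv1, hv2⟩ := hVE s T₁ x hs1 hxc hRx
  have hcm : ContinuousOn (fun t : ℝ => κ * t) (Ico 0 T) := by fun_prop
  have hdl : ∀ t ∈ Ico 0 T, HasDerivWithinAt (fun t : ℝ => κ * t) κ (Ico 0 T) t := by
    intro t ht
    simpa using ((hasDerivAt_id t).const_mul κ).hasDerivWithinAt
  have hdX : ∀ n, ∀ t ∈ Ico 0 T, HasDerivWithinAt (X n) (X' n t) (Ico 0 T) t := by
    intro n t ht
    have h5 := (hdx n (κ * t) (hmap t ht)).comp t (hdl t ht) hmap
    rw [hX, hX']
    refine h5.congr_deriv ?_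
    ring
  have hcX' : ∀ n, ContinuousOn (X' n) (Ico 0 T) := by
    intro n
    rw [hX']
    exact continuousOn_const.mul ((hv1 n).comp hcm hmap)
  have hresc : ∀ (z : ℕ → ℝ → ℝ) (B : ℝ), RapT s T₁ z →
      RapT s T (fun n t => B * z n (κ * t)) := by
    intro z B hz k T' hT'
    obtain ⟨M, hM⟩ := hz k (κ * T') (by rw [← hcT]; exact mul_lt_mul_of_pos_left hT' hκ)
    refine ⟨|B| * M, fun t ht n => ?_⟩
    have h3 := hM (κ * t) ⟨mul_nonneg hκ.le ht.1, mul_le_mul_of_nonneg_left ht.2 hκ.le⟩ n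
    rw [abs_mul]
    calc s ^ (k * n) * (|B| * |z n (κ * t)|) = |B| * (s ^ (k * n) * |z n (κ * t)|) := by ring
      _ ≤ |B| * M := mul_le_mul_of_nonneg_left h3 (abs_nonneg _)
  have hRX : RapT s T X := by
    have := hresc x 1 hRx
    simp only [one_mul] at this
    rw [hX]
    exact this
  have hRX' : RapT s T X' := by
    rw [hX']
    exact hresc (fun n t => vqE s (fun m => x m t) n) κ hv2
  have hrap : ∀ (z : ℕ → ℝ → ℝ), RapT s T z → ∀ t ∈ Ico 0 T, Rap s (fun n => z n t) := by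
    intro z hz t ht k
    obtain ⟨M, hM⟩ := hz k t ht.2
    exact ⟨M, fun n => hM t ⟨ht.1, le_rfl⟩ n⟩
  obtain ⟨-, hder⟩ := hSER2 s P hs1 hT.sm hT.out T X X' hdX hcX' hRX hRX'
  obtain ⟨u, hu⟩ : ∃ u : ℝ → E3 → E3, u = fun t => ser s P (fun n => X n t) := ⟨_, rfl⟩
  have hdt : ∀ t ∈ Ico 0 T, dt T u t = ser s P (fun n => X' n t) := by
    intro t ht
    ext1 y
    unfold dt
    rw [hu]
    exact (hder t ht y).derivWithin (uniqueDiffOn_Ico 0 T t ht)
  have hout : ∀ t ∈ Ico 0 T, ∀ y, 1 / 2 ≤ ‖y‖ → u t y = 0 := by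
    intro t ht y hy
    rw [hu]
    exact (hS1 _ (hrap X hRX t ht)).2.2.2.2 y hy
  have hout1 : ∀ t ∈ Ico 0 T, ∀ y, 1 ≤ ‖y‖ → u t y = 0 := fun t ht y hy =>
    hout t ht y (by linarith)
  have hsu : ∀ t ∈ Ico 0 T, ContDiff ℝ ∞ (u t) := by
    intro t ht
    rw [hu]
    exact (hS1 _ (hrap X hRX t ht)).1
  have hSu : ∀ t ∈ Ico 0 T, Sm (u t) := fun t ht => Sm.of_out (hsu t ht) (hout t ht)
  have hSd : ∀ t ∈ Ico 0 T, Sm (dt T u t) := by
    intro t ht
    obtain ⟨a1, -, -, -, a5⟩ := hS1 _ (hrap X' hRX' t ht)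
    rw [hdt t ht]
    exact Sm.of_out a1 a5
  have hdo : ∀ t ∈ Ico 0 T, ∀ y, 1 ≤ ‖y‖ → dt T u t y = 0 := by
    intro t ht y hy
    rw [hdt t ht]
    exact (hS1 _ (hrap X' hRX' t ht)).2.2.2.2 y (by linarith)
  -- joint smoothness
  have hsm : ContDiffOn ℝ ∞ (fun z : ℝ × E3 => u z.1 z.2) (Ico 0 T ×ˢ univ) := by
    obtain ⟨Y, hY0, hYR, hYd⟩ := hSME s T₁ x hs1 hRx hdx
    have h3 := hSER3 s P hs1 hT.sm hT.out T (fun k n t => κ ^ k * Y k n (κ * t))
      (fun k => hresc (Y k) (κ ^ k) (hYR k)) (fun k n t ht => by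
        have h4 := hYd k n (κ * t) (hmap t ht)
        refine ((h4.comp t (hdl t ht) hmap).const_mul (κ ^ k)).congr_deriv ?_
        ring)
    have e : (fun z : ℝ × E3 => u z.1 z.2) = fun z : ℝ × E3 =>
        ser s P (fun n => κ ^ 0 * Y 0 n (κ * z.1)) z.2 := by
      rw [hu, hX, hY0]
      simp only [pow_zero, one_mul]
    rw [e]
    exact h3
  -- the residual on `ℝ³`
  have hres : ∀ t ∈ Ico 0 T, ∀ w, Continuous w → (∀ i, ip w (fm s r i) = 0) →
      ip w (fun y => dt T u t y + adv (u t) (u t) y) = 0 := by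
    intro t ht w hwc hcon
    have hrX := hrap X hRX t ht
    have q1 := hIPS s P hs1 hT.sm hT.out w hwc _ (hrap X' hRX' t ht)
    have q3 := hQE s κ P _ hs1 hT w hwc hcon _ hrX
    rw [ip_add hwc (hSd t ht) ((hSu t ht).adv (hsu t ht)), hdt t ht, hu]
    have q4 := q1.add q3
    have q5 : ∀ n, X' n t * ip w (pk s P n) + -(κ * vqE s (fun n => X n t) n *
        ip w (pk s P n)) = 0 := by
      intro n
      rw [hX', hX]
      ring
    simp only [q5] at q4
    exact q4.unique hasSum_zero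
  have hresT : ∀ t ∈ Ico 0 T, resT T (fun τ => lft (u τ)) t =
      lft (fun y => dt T u t y + adv (u t) (u t) y) := by
    intro t ht
    ext1 x
    unfold resT
    rw [L.dt T u hsm t ht, adv_lft L (hsu t ht) (hout1 t ht), lft_add]
  have hresV : ∀ t ∈ Ico 0 T, ∀ w : V → V, Continuous w →
      (∀ i, ipT w (fldT (s ^ 2) (fun k => dn (r k)) i) = 0) →
      ipT (resT T (fun τ => lft (u τ)) t) w = 0 := by
    intro t ht w hw hcon
    have hF : Sm (fun y => dt T u t y + adv (u t) (u t) y) :=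
      (hSd t ht).add ((hSu t ht).adv (hsu t ht))
    rw [hresT t ht, L.ip _ w hF.sm.continuous ?_ hw, ip_comm]
    · refine hres t ht _ ?_ ?_
      · exact (PiLp.continuousLinearEquiv 2 ℝ (fun _ : Fin 3 => ℝ)).symm.continuous.comp
          (hw.comp (PiLp.continuousLinearEquiv 2 ℝ (fun _ : Fin 3 => ℝ)).continuous)
      · intro i
        have h3 := hcon i
        rw [fld_eq, L.ipd _ w (hT.rsm i).continuous ?_ hw] at h3
        · exact h3
        · intro y hy
          unfold fm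
          apply hrk
          rw [norm_smul, Real.norm_eq_abs, abs_of_pos (by positivity)]
          have : 1 ≤ s ^ (2 * i.2) := one_le_pow₀ hs1.le
          nlinarith [norm_nonneg y]
    · intro y hy
      rw [hdo t ht y hy]
      unfold adv
      rw [hout1 t ht y hy]
      simp
  have hSol : SolT (fldT (s ^ 2) (fun k => dn (r k))) T (fun τ => lft (u τ)) := by
    refine ⟨(L.sm T u hsm hout1).of_le (by simp), fun t ht => L.per _, ?_, ?_,
      fun t ht w hw hc => hresV t ht w hw.c1.continuous hc⟩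
    · intro t ht x
      rw [div_lft L (hsu t ht) (hout1 t ht), hu]
      exact divg_ser hPd hT.div ((hS1 _ (hrap X hRX t ht)).2.2.1 _)
    · intro t ht i
      rw [fld_eq, L.ip _ _ (hsu t ht).continuous (hout1 t ht) ?_]
      · rw [up_dn]
        have h3 := hIPS s P hs1 hT.sm hT.out (fm s r i) (hT.rsm i).continuous _
          (hrap X hRX t ht)
        have h4 : ∀ n, X n t * ip (fm s r i) (pk s P n) = 0 := by
          intro n
          rw [ip_comm, hT.orth, mul_zero]
        simp only [h4] at h3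
        rw [hu, ip_comm]
        exact h3.unique hasSum_zero
      · refine (loc_of (hT.rsm i) ?_).1.continuous
        intro y hy
        unfold fm
        apply hrk
        rw [norm_smul, Real.norm_eq_abs, abs_of_pos (by positivity)]
        have : 1 ≤ s ^ (2 * i.2) := one_le_pow₀ hs1.le
        nlinarith [norm_nonneg y]
  have hrc : ∀ i, Continuous (fldT (s ^ 2) (fun k => dn (r k)) i) := by
    intro i
    rw [fld_eq]
    refine (loc_of (hT.rsm i) ?_).1.continuous
    intro y hy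
    unfold fm
    apply hrk
    rw [norm_smul, Real.norm_eq_abs, abs_of_pos (by positivity)]
    have : 1 ≤ s ^ (2 * i.2) := one_le_pow₀ hs1.le
    nlinarith [norm_nonneg y]
  have hblow : ∀ M : ℝ, ∃ t ∈ Ico 0 T, ∃ x i, M < |curlT (lft (u t)) x i| := by
    intro M
    by_contra hcon
    push Not at hcon
    obtain ⟨C, hC0, hC⟩ := hLE s N P h hs1 hh1 hh2 hh3 hN0 hNo
    have hM0 : 0 ≤ M := (abs_nonneg _).trans (hcon 0 ⟨le_rfl, hT0⟩ 0 2)
    obtain ⟨τ, hτ, n, hn⟩ := hgr (C * M)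
    obtain ⟨t, ht⟩ : ∃ t, t = τ / κ := ⟨_, rfl⟩
    have hct : κ * t = τ := by rw [ht]; field_simp
    have htm : t ∈ Ico 0 T := by
      refine ⟨by rw [ht]; exact div_nonneg hτ.1 hκ.le, ?_⟩
      rw [ht, hTT]
      exact div_lt_div_of_pos_right hτ.2 hκ
    have h4 := hC (fun n => X n t) M (hrap X hRX t htm) (fun y => by
      have hy1 : ∀ y : E3, |vz (u t) y| ≤ M := by
        intro y
        by_cases hy : ‖y‖ < 1
        · have h5 := hcon t htm (WithLp.ofLp y) 2
          rw [curl_lft L (hsu t htm) (hout1 t htm), rd_eq] at h5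
          · exact h5
          · intro i
            have h6 : |y i| ≤ ‖y‖ := PiLp.norm_apply_le y i
            have h7 := abs_lt.1 (h6.trans_lt hy)
            have := Real.pi_gt_three
            constructor <;> linarith [h7.1, h7.2]
        · push Not at hy
          have h5 : fderiv ℝ (u t) y = 0 := by
            have h6 : u t =ᶠ[𝓝 y] fun _ => 0 := by
              have h7 : {z : E3 | 1 / 2 < ‖z‖} ∈ 𝓝 y :=
                (isOpen_lt continuous_const continuous_norm).mem_nhds (by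
                  simp only [mem_ofPred_eq]; linarith)
              filter_upwards [h7] with z hz
              exact hout t htm z (le_of_lt hz)
            rw [h6.fderiv_eq, fderiv_fun_const]
            rfl
          unfold vz
          rw [h5]
          simpa using hM0
      have := hy1 y
      rw [hu] at this
      exact this) n
    have h5 : X n t = x n τ := by rw [hX]; simp only [hct]
    rw [h5] at h4
    linarith
  refine ⟨T, fun τ => lft (u τ), hT0, hSol, L.sm T u hsm hout1, ?_, ?_, hresV, ?_,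
    hENT _ T _ _ hSol, hblow⟩
  · intro y hy
    have key : ∀ z : E3, u 0 z = ∑ n ∈ Finset.range m, a n • P (s ^ (2 * n) • z) := by
      intro z
      rw [hu]
      simp only [ser]
      rw [tsum_eq_sum (s := Finset.range m)]
      · refine Finset.sum_congr rfl fun n hn => ?_
        rw [hX]
        simp only [mul_zero, hx0]
        rw [if_pos (Finset.mem_range.1 hn)]
        unfold pk
        rw [smul_smul]
        congr 1
        field_simp
      · intro n hn
        rw [hX]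
        simp only [mul_zero, hx0]
        rw [if_neg (fun hc => hn (Finset.mem_range.2 hc)), zero_smul]
    by_cases hq : ∀ i, y i < Real.pi
    · have e : rd y = y := rd_eq fun i => ⟨hy.1 i, hq i⟩
      ext i
      change lft (u 0) y i = _
      unfold lft
      rw [e, key]
      have e2 : (∑ n ∈ Finset.range m, a n • P (s ^ (2 * n) • (WithLp.toLp 2 y : E3))) i =
          ∑ n ∈ Finset.range m, (a n • P (s ^ (2 * n) • (WithLp.toLp 2 y : E3))) i :=
        map_sum (EuclideanSpace.proj i : E3 →L[ℝ] ℝ) _ _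
      rw [e2, Finset.sum_apply]
      refine Finset.sum_congr rfl fun n _ => ?_
      unfold dn
      rw [pow_mul]
      rfl
    · push Not at hq
      obtain ⟨j, hj⟩ := hq
      have hj' : y j = Real.pi := le_antisymm (hy.2 j) hj
      have hpi := Real.pi_gt_three
      have h5 : rd y j = -Real.pi := by
        unfold rd
        rw [hj']
        have : (Real.pi + Real.pi) / (2 * Real.pi) = 1 := by
          field_simp
          norm_num
        rw [this]
        simp
        ring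
      have h6 : 1 ≤ ‖(WithLp.toLp 2 (rd y) : E3)‖ := by
        have h7 : ‖(WithLp.toLp 2 (rd y) : E3) j‖ ≤ ‖(WithLp.toLp 2 (rd y) : E3)‖ :=
          PiLp.norm_apply_le (WithLp.toLp 2 (rd y) : E3) j
        have h8 : (WithLp.toLp 2 (rd y) : E3) j = -Real.pi := h5
        rw [Real.norm_eq_abs] at h7
        rw [h8, abs_neg, abs_of_pos (by linarith)] at h7
        linarith
      have h9 : lft (u 0) y = 0 := by
        ext i
        unfold lft
        rw [hout1 0 ⟨le_rfl, hT0⟩ _ h6]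
        rfl
      change lft (u 0) y = _
      rw [h9]
      symm
      apply Finset.sum_eq_zero
      intro n _
      rw [(loc_of hT.sm hP1).2, smul_zero]
      have h10 : ((s ^ 2) ^ n • y) j ^ 2 ≤ ∑ i, ((s ^ 2) ^ n • y) i ^ 2 :=
        Finset.single_le_sum (f := fun i => ((s ^ 2) ^ n • y) i ^ 2) (fun i _ => sq_nonneg _)
          (Finset.mem_univ j)
      refine le_trans ?_ h10
      rw [Pi.smul_apply, smul_eq_mul, hj']
      have h11 : 1 ≤ (s ^ 2) ^ n := one_le_pow₀ (by nlinarith)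
      have h12 : 1 ≤ (s ^ 2) ^ n * Real.pi := by nlinarith
      nlinarith
  · intro t ht y hy hy1
    by_cases hq : ∀ i, y i < Real.pi
    · have e : rd y = y := rd_eq fun i => ⟨hy.1 i, hq i⟩
      ext i
      change lft (u t) y i = _
      unfold lft
      rw [e, hout1 t ht]
      · rfl
      · rw [← sq_norm] at hy1
        by_contra hcon
        push Not at hcon
        have := norm_nonneg (WithLp.toLp 2 y : E3)
        nlinarith
    · push Not at hq
      obtain ⟨j, hj⟩ := hq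
      have hj' : y j = Real.pi := le_antisymm (hy.2 j) hj
      have hpi := Real.pi_gt_three
      have h5 : rd y j = -Real.pi := by
        unfold rd
        rw [hj']
        have : (Real.pi + Real.pi) / (2 * Real.pi) = 1 := by
          field_simp
          norm_num
        rw [this]
        simp
        ring
      have h6 : 1 ≤ ‖(WithLp.toLp 2 (rd y) : E3)‖ := by
        have h7 : ‖(WithLp.toLp 2 (rd y) : E3) j‖ ≤ ‖(WithLp.toLp 2 (rd y) : E3)‖ :=
          PiLp.norm_apply_le (WithLp.toLp 2 (rd y) : E3) j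
        have h8 : (WithLp.toLp 2 (rd y) : E3) j = -Real.pi := h5
        rw [Real.norm_eq_abs] at h7
        rw [h8, abs_neg, abs_of_pos (by linarith)] at h7
        linarith
      ext i
      change lft (u t) y i = _
      unfold lft
      rw [hout1 t ht _ h6]
      rfl
  · intro T' v hT' hv hv0
    have hTT' : T' ≤ T := by
      by_contra hcon
      push Not at hcon
      have e := hUNT _ T _ _ _ hrc hSol (SolT.mono hv hcon.le) hv0.symm
      obtain ⟨M, hM⟩ := hCPT _ T T' _ v hv hcon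
      obtain ⟨t, ht, y, i, hy⟩ := hblow M
      have h3 := hM t ⟨ht.1, ht.2.le⟩ y i
      rw [← e t ht] at h3
      linarith
    refine ⟨hTT', fun t ht => ?_⟩
    exact hUNT _ T' _ v _ hrc hv (SolT.mono hSol hTT') hv0 t ht

end U9

end Pool.Agent.N976.EC
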