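import Pool.Agent.N976.EC.U2
import Pool.Agent.N976.EC.Def2

/-! (W1) The interactions of the packets, also in pointwise form. -/

open Set Filter Topology MeasureTheory
open scoped ContDiff

set_option autoImplicit false

namespace Pool.Agent.N976.EC

open Pool.Agent.N976.SC

open U2 T4 in
/-- The table of the interactions, also in pointwise form. -/
theorem t_TBPE : S_PE → S_TBPE := by
  rintro ⟨f, g, a, h⟩
  have ha0 := h.a0
  refine ⟨2 + a⁻¹, fun s hs => ?_⟩
  have hainv : 0 < a⁻¹ := inv_pos.2 ha0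
  have hs1 : 1 < s := by linarith
  have hs0 : 0 < s := by linarith
  have ha : 1 / 2 < a * s ^ 2 := by
    have h1 : a⁻¹ ≤ s := by linarith
    have h2 : 1 ≤ a * s := by
      calc (1 : ℝ) = a * a⁻¹ := (mul_inv_cancel₀ ha0.ne').symm
        _ ≤ a * s := mul_le_mul_of_nonneg_left h1 ha0.le
    nlinarith
  set P := PF f g s with hP
  set N := ip P P with hN
  have hN0 : 0 < N := norm_pos h hs1 ha
  set κ := -(s ^ 5 * ip (adv (sf g) (sf g)) (sf f)) / N with hκ
  have hκ0 : 0 < κ := by
    have h1 := h.neg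
    have h2 : 0 < s ^ 5 := by positivity
    exact div_pos (by nlinarith) hN0
  have hκN : κ * N = -(s ^ 5 * ip (adv (sf g) (sf g)) (sf f)) := by
    rw [hκ]
    field_simp
  have hSP : Sm P := sP h hs1
  have hSn : ∀ n, Sm (pk s P n) := sPn h hs1
  set r0 : E3 → E3 := fun y => adv P P y + κ • pk s P 1 y with hr0
  set r1 : E3 → E3 := fun y => (adv P (pk s P 1) y + adv (pk s P 1) P y) - κ • P y with hr1
  have hS0 : Sm r0 := (hSP.adv hSP.sm).add ((hSn 1).smul κ)
  have hS1 : Sm r1 := ((hSP.adv (hSn 1).sm).add ((hSn 1).adv hSP.sm)).sub (hSP.smul κ)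
  set r : Fin 2 → E3 → E3 := ![r0, r1] with hr
  have hSr : ∀ k, Sm (r k) := by
    intro k
    fin_cases k
    · exact hS0
    · exact hS1
  have hSf : ∀ i, Sm (fm s r i) := fun i => (hSr i.1).dl hs0 i.2
  have hPP : ∀ n y, pk s P (n + 1) y = pk s (pk s P 1) n y := by
    intro n y
    rw [pk_pk]
  have hPP' : ∀ n, pk s P (n + 1) = pk s (pk s P 1) n := fun n => funext (hPP n)
  have key0 : ∀ n, (fun y => s ^ (8 * n) • fm s r (0, n) y) =
      fun y => adv (pk s P n) (pk s P n) y + (κ * s ^ (5 * n)) • pk s P (n + 1) y := by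
    intro n
    ext1 y
    rw [hPP, adv_pk hSP.diff]
    show s ^ (8 * n) • (adv P P (s ^ (2 * n) • y) + κ • pk s P 1 (s ^ (2 * n) • y)) =
      s ^ (8 * n) • adv P P (s ^ (2 * n) • y) +
        (κ * s ^ (5 * n)) • (s ^ (3 * n) • pk s P 1 (s ^ (2 * n) • y))
    rw [smul_add, smul_smul, smul_smul]
    congr 2
    ring
  have key1 : ∀ n, (fun y => s ^ (8 * n) • fm s r (1, n) y) =
      fun y => (adv (pk s P n) (pk s P (n + 1)) y + adv (pk s P (n + 1)) (pk s P n) y) -
        (κ * s ^ (5 * n)) • pk s P n y := by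
    intro n
    ext1 y
    rw [hPP', adv_pk hSP.diff, adv_pk (hSn 1).diff]
    show s ^ (8 * n) • ((adv P (pk s P 1) (s ^ (2 * n) • y) + adv (pk s P 1) P (s ^ (2 * n) • y))
        - κ • P (s ^ (2 * n) • y)) =
      (s ^ (8 * n) • adv P (pk s P 1) (s ^ (2 * n) • y) +
        s ^ (8 * n) • adv (pk s P 1) P (s ^ (2 * n) • y)) -
        (κ * s ^ (5 * n)) • (s ^ (3 * n) • P (s ^ (2 * n) • y))
    rw [smul_sub, smul_add, smul_smul, smul_smul]
    congr 2
    ring
  have e0 : ∀ w, Continuous w → ∀ n, s ^ (8 * n) * ip w (fm s r (0, n)) =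
      ip w (adv (pk s P n) (pk s P n)) + κ * s ^ (5 * n) * ip w (pk s P (n + 1)) := by
    intro w hw n
    rw [← ip_smul, key0, ip_add hw ((hSn n).adv (hSn n).sm) ((hSn (n + 1)).smul _), ip_smul]
  have e1 : ∀ w, Continuous w → ∀ n, s ^ (8 * n) * ip w (fm s r (1, n)) =
      (ip w (adv (pk s P n) (pk s P (n + 1))) + ip w (adv (pk s P (n + 1)) (pk s P n))) -
        κ * s ^ (5 * n) * ip w (pk s P n) := by
    intro w hw n
    rw [← ip_smul, key1, ip_sub hw (((hSn n).adv (hSn (n + 1)).sm).add
      ((hSn (n + 1)).adv (hSn n).sm)) ((hSn n).smul _), ip_smul,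
      ip_add hw ((hSn n).adv (hSn (n + 1)).sm) ((hSn (n + 1)).adv (hSn n).sm)]
  have hnorm : ∀ m n, ip (pk s P m) (pk s P n) = if m = n then N else 0 := by
    intro m n
    split_ifs with hmn
    · subst hmn
      exact ip_pk hs0 m P P
    · exact norm_ne h hs1 ha hmn
  -- the self-interactions
  have hself : ∀ m n, ip (pk s P m) (adv (pk s P n) (pk s P n)) =
      if m = n + 1 then -(κ * s ^ (5 * n) * N) else 0 := by
    intro m n
    rw [ip_comm]
    split_ifs with hmn
    · subst hmn
      rw [hP, tri_up h hs1 ha]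
      have : κ * s ^ (5 * n) * N = s ^ (5 * n) * (κ * N) := by ring
      rw [this, hκN]
      ring
    · rcases Nat.lt_trichotomy m n with q | q | q
      · by_cases hq : n = m + 1
        · subst hq
          exact tri_down h hs1 ha m
        · exact tri_zero h hs1 ha (by omega)
      · subst q
        have := anti h hs1 m m m
        rw [← hP] at this
        linarith
      · exact tri_zero h hs1 ha (by omega)
  have horth : ∀ m i, ip (pk s P m) (fm s r i) = 0 := by
    rintro m ⟨k, n⟩
    have hpow : s ^ (8 * n) ≠ 0 := by positivity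
    have hc : Continuous (pk s P m) := (hSn m).sm.continuous
    refine (mul_eq_zero.1 (?_ : s ^ (8 * n) * ip (pk s P m) (fm s r (k, n)) = 0)).resolve_left
      hpow
    fin_cases k
    · show s ^ (8 * n) * ip (pk s P m) (fm s r (0, n)) = 0
      rw [e0 _ hc, hself, hnorm]
      split_ifs <;> ring
    · show s ^ (8 * n) * ip (pk s P m) (fm s r (1, n)) = 0
      rw [e1 _ hc, hnorm, ip_comm _ (adv (pk s P n) (pk s P (n + 1))),
        ip_comm _ (adv (pk s P (n + 1)) (pk s P n))]
      by_cases h1 : m = n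
      · subst h1
        have a1 := anti h hs1 m (m + 1) m
        have a2 := anti h hs1 (m + 1) m m
        have a3 := hself (m + 1) m
        rw [← hP] at a1 a2
        rw [if_pos rfl, ip_comm] at a3
        rw [if_pos rfl]
        linarith
      · rw [if_neg h1]
        by_cases h2 : m = n + 1
        · subst h2
          have a1 := anti h hs1 n (n + 1) (n + 1)
          have a2 := anti h hs1 (n + 1) n (n + 1)
          have a3 := tri_down h hs1 ha n
          rw [← hP] at a1 a2 a3
          linarith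
        · have a1 := tri_zero h hs1 ha (k := n) (m := n + 1) (n := m) (by omega)
          have a2 := tri_zero h hs1 ha (k := n + 1) (m := n) (n := m) (by omega)
          rw [← hP] at a1 a2
          rw [a1, a2]
          ring
  refine ⟨κ, P, r, ⟨hκ0, hSP.sm, P_out' h hs1, div_P' h, ⟨_, pot_sm h, pot_out h hs1, P_pot h⟩,
    fun i => (hSf i).sm, fun i => (hSf i).cs, ⟨N, hN0, hnorm⟩, horth, ?_, ?_, ?_⟩,
    ⟨fun n y => ?_, fun n y => ?_⟩, ?_⟩
  · intro w hw hwr n
    have := e0 w hw n
    rw [hwr, mul_zero] at this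
    linarith
  · intro w hw hwr n
    have := e1 w hw n
    rw [hwr, mul_zero] at this
    linarith
  · intro m n y hmn
    unfold adv
    rcases of_or h hs1 ha hmn y with q | q
    · rw [← hP] at q
      rw [q.1, q.2]
      simp
    · rw [← hP] at q
      rw [q.1, q.2]
      simp
  · have := congrFun (key0 n) y
    beta_reduce at this
    rw [this, add_sub_cancel_right]
  · have := congrFun (key1 n) y
    beta_reduce at this
    rw [this, sub_add_cancel]
  · intro k y hy
    have hy' : 1 / 2 ≤ ‖y‖ := by linarith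
    have z0 : P y = 0 := P_out' h hs1 y hy'
    have z1 : pk s P 1 y = 0 := by
      refine pk_out (P_out' h hs1) hs1 1 y ?_
      have : 1 ≤ s ^ (2 * 1) := one_le_pow₀ hs1.le
      nlinarith [norm_nonneg y]
    fin_cases k
    · show adv P P y + κ • pk s P 1 y = 0
      unfold adv
      rw [z0, z1]
      simp
    · show (adv P (pk s P 1) y + adv (pk s P 1) P y) - κ • P y = 0
      unfold adv
      rw [z0, z1]
      simp

end Pool.Agent.N976.EC
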