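import Pool.Agent.N976.SC.T6
import Pool.Agent.N976.SC.T5a
import Pool.Agent.N976.EC.U4
import Pool.Agent.N976.EC.Def2

/-!
# Euler: the residual is the sum of the reaction forces
-/

open Set Filter Topology MeasureTheory
open scoped ContDiff

set_option autoImplicit false

namespace Pool.Agent.N976.EC

open Pool.Agent.N976.SC

namespace W2

/-- Series of vectors. -/
lemma vsum {s : ℝ} (hs : 1 < s) {b : ℕ → ℝ} (hb : Rap s b) {v : ℕ → E3}
    (hv : T6.Pol s (fun n => ‖v n‖)) : Summable (fun n => b n • v n) := by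
  have h1 := T6.Rap.summable hs (T6.Rap.mul_pol hs hb hv)
  refine Summable.of_norm (h1.congr fun n => ?_)
  rw [norm_smul, abs_mul, Real.norm_eq_abs, abs_norm]

/-- The double sum is tridiagonal. -/
lemma tri {a : ℕ → ℝ} {t : ℕ → ℕ → E3} (hf : ∀ m n, m + 2 ≤ n → t m n = 0 ∧ t n m = 0) (N : ℕ) :
    ∑ m ∈ Finset.range (N + 1), ∑ n ∈ Finset.range (N + 1), (a m * a n) • t m n =
      ∑ n ∈ Finset.range (N + 1), (a n ^ 2) • t n n +
      ∑ n ∈ Finset.range N, (a n * a (n + 1)) • (t n (n + 1) + t (n + 1) n) := by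
  induction N with
  | zero => simp [sq]
  | succ N ih =>
    have e1 : ∑ m ∈ Finset.range (N + 1), ∑ n ∈ Finset.range (N + 1 + 1), (a m * a n) • t m n =
        ∑ m ∈ Finset.range (N + 1), ∑ n ∈ Finset.range (N + 1), (a m * a n) • t m n +
        ∑ m ∈ Finset.range (N + 1), (a m * a (N + 1)) • t m (N + 1) := by
      rw [← Finset.sum_add_distrib]
      exact Finset.sum_congr rfl fun m _ => Finset.sum_range_succ _ _
    have e2 : ∑ m ∈ Finset.range (N + 1), (a m * a (N + 1)) • t m (N + 1) =
        (a N * a (N + 1)) • t N (N + 1) := by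
      rw [Finset.sum_range_succ, Finset.sum_eq_zero, zero_add]
      intro m hm
      have := Finset.mem_range.1 hm
      rw [(hf m (N + 1) (by omega)).1, smul_zero]
    have e3 : ∑ n ∈ Finset.range (N + 1), (a (N + 1) * a n) • t (N + 1) n =
        (a N * a (N + 1)) • t (N + 1) N := by
      rw [Finset.sum_range_succ, Finset.sum_eq_zero, zero_add, mul_comm]
      intro m hm
      have := Finset.mem_range.1 hm
      rw [(hf m (N + 1) (by omega)).2, smul_zero]
    rw [Finset.sum_range_succ, e1, e2, ih, Finset.sum_range_succ _ (N + 1), e3,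
      Finset.sum_range_succ (fun n => (a n ^ 2) • t n n) (N + 1),
      Finset.sum_range_succ (fun n => (a n * a (n + 1)) • (t n (n + 1) + t (n + 1) n)) N,
      smul_add, sq (a (N + 1))]
    abel

/-- Sums over `Fin 2 × ℕ`. -/
lemma two {f : Fin 2 × ℕ → E3} {A B : E3} (h0 : HasSum (fun n => f (0, n)) A)
    (h1 : HasSum (fun n => f (1, n)) B) : HasSum f (A + B) := by
  have i0 : Function.Injective (Prod.mk (0 : Fin 2) : ℕ → Fin 2 × ℕ) :=
    fun x y h => (Prod.mk.inj h).2
  have i1 : Function.Injective (Prod.mk (1 : Fin 2) : ℕ → Fin 2 × ℕ) :=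
    fun x y h => (Prod.mk.inj h).2
  have g0 : HasSum (fun x : range (Prod.mk (0 : Fin 2) : ℕ → Fin 2 × ℕ) => f x) A :=
    i0.hasSum_range_iff.2 h0
  have g1 : HasSum (fun x : range (Prod.mk (1 : Fin 2) : ℕ → Fin 2 × ℕ) => f x) B :=
    i1.hasSum_range_iff.2 h1
  refine HasSum.add_isCompl ?_ g0 g1
  rw [isCompl_iff]
  constructor
  · rw [Set.disjoint_left]
    rintro _ ⟨n, rfl⟩ ⟨m, hm⟩
    exact absurd (Prod.mk.inj hm).1 (by decide)
  · refine codisjoint_iff.2 (Set.eq_univ_iff_forall.2 ?_)
    rintro ⟨k, n⟩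
    fin_cases k
    · exact Or.inl ⟨n, rfl⟩
    · exact Or.inr ⟨n, rfl⟩

end W2

theorem t_REPE : S_REPE := by
  intro s κ P r hs hT hTP hr a a' ha ha' haa y
  have s0 : 0 < s := by linarith
  have hc : ContDiff ℝ ∞ P := hT.sm
  have hP := hT.out
  obtain ⟨-, hu, hDu, -, -⟩ := (t_SER1 s P hs hc hP).1 a ha
  obtain ⟨-, hu', -, -, -⟩ := (t_SER1 s P hs hc hP).1 a' ha'
  have h1 := hu y
  have h2 := hDu y
  have h3 := hu' y
  -- bounds
  have hpP : T6.Pol s (fun n => ‖pk s P n y‖) := by
    obtain ⟨C, -, hC⟩ := T6.pk_bd hs hc.continuous hP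
    exact ⟨3, C, fun n => by rw [abs_norm]; exact hC n y⟩
  have hrP : ∀ k, T6.Pol s (fun n => ‖fm s r (k, n) y‖) := by
    intro k
    have h4 : Continuous (r k) := by
      have h5 := (hT.rsm (k, 0)).continuous
      have h6 : fm s r (k, 0) = r k := by
        funext z
        simp [fm]
      rwa [h6] at h5
    obtain ⟨W, hW0, hW⟩ := T6.w_bd h4
    refine ⟨0, W, fun n => ?_⟩
    rw [abs_norm, zero_mul, pow_zero, mul_one]
    simp only [fm]
    rcases le_total ‖s ^ (2 * n) • y‖ 1 with h | h
    · exact hW _ h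
    · rw [hr k _ h, norm_zero]
      exact hW0
  -- coefficients
  have c0 : Rap s (fun n => lamE s a (0, n)) := by
    have := T6.Rap.mul_pol hs ha ((T6.Pol.pow hs 8).mul (T6.Rap.pol ha))
    refine (congrArg (Rap s) (funext fun n => ?_)).mp this
    simp only [lamE, Matrix.cons_val_zero]
    ring
  have c1 : Rap s (fun n => lamE s a (1, n)) := by
    have := T6.Rap.mul_pol hs ha ((T6.Pol.pow hs 8).mul (T6.Rap.pol ha).shift)
    refine (congrArg (Rap s) (funext fun n => ?_)).mp this
    simp only [lamE, Matrix.cons_val_one]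
    simp
    ring
  have cY : Rap s (fun n => s ^ (5 * n) * a n * a (n + 1)) := by
    have := T6.Rap.mul_pol hs ha ((T6.Pol.pow hs 5).mul (T6.Rap.pol ha).shift)
    refine (congrArg (Rap s) (funext fun n => ?_)).mp this
    ring
  have cB : Rap s (fun n => s ^ (5 * n) * a n ^ 2) := by
    have := T6.Rap.mul_pol hs ha ((T6.Pol.pow hs 5).mul (T6.Rap.pol ha))
    refine (congrArg (Rap s) (funext fun n => ?_)).mp this
    ring
  have hA0 := (W2.vsum hs c0 (hrP 0)).hasSum
  have hA1 := (W2.vsum hs c1 (hrP 1)).hasSum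
  have hY := (W2.vsum hs cY hpP).hasSum
  have hB := (W2.vsum hs cB (v := fun n => pk s P (n + 1) y) hpP.shift).hasSum
  set A0 := ∑' n, lamE s a (0, n) • fm s r (0, n) y
  set A1 := ∑' n, lamE s a (1, n) • fm s r (1, n) y
  set Y := ∑' n, (s ^ (5 * n) * a n * a (n + 1)) • pk s P n y
  set B := ∑' n, (s ^ (5 * n) * a n ^ 2) • pk s P (n + 1) y
  -- the nonlinear term
  have hadv : adv (ser s P a) (ser s P a) y = (A0 - κ • B) + (A1 + κ • Y) := by
    have q1 : Tendsto (fun N : ℕ => ∑ n ∈ Finset.range (N + 1), a n • fderiv ℝ (pk s P n) y)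
        atTop (𝓝 (fderiv ℝ (ser s P a) y)) :=
      h2.tendsto_sum_nat.comp (tendsto_add_atTop_nat 1)
    have q2 : Tendsto (fun N : ℕ => ∑ m ∈ Finset.range (N + 1), a m • pk s P m y)
        atTop (𝓝 (ser s P a y)) :=
      h1.tendsto_sum_nat.comp (tendsto_add_atTop_nat 1)
    have t1 : Tendsto (fun N : ℕ => (∑ n ∈ Finset.range (N + 1), a n • fderiv ℝ (pk s P n) y)
        (∑ m ∈ Finset.range (N + 1), a m • pk s P m y)) atTop
        (𝓝 (adv (ser s P a) (ser s P a) y)) :=
      ((isBoundedBilinearMap_apply (𝕜 := ℝ) (E := E3) (F := E3)).continuous.tendsto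
        (fderiv ℝ (ser s P a) y, ser s P a y)).comp (q1.prodMk_nhds q2)
    have t2 : ∀ N : ℕ, (∑ n ∈ Finset.range (N + 1), a n • fderiv ℝ (pk s P n) y)
        (∑ m ∈ Finset.range (N + 1), a m • pk s P m y) =
        (∑ n ∈ Finset.range (N + 1), lamE s a (0, n) • fm s r (0, n) y -
          κ • ∑ n ∈ Finset.range (N + 1), (s ^ (5 * n) * a n ^ 2) • pk s P (n + 1) y) +
        (∑ n ∈ Finset.range N, lamE s a (1, n) • fm s r (1, n) y +
          κ • ∑ n ∈ Finset.range N, (s ^ (5 * n) * a n * a (n + 1)) • pk s P n y) := by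
      intro N
      have e1 : (∑ n ∈ Finset.range (N + 1), a n • fderiv ℝ (pk s P n) y)
          (∑ m ∈ Finset.range (N + 1), a m • pk s P m y) =
          ∑ m ∈ Finset.range (N + 1), ∑ n ∈ Finset.range (N + 1),
            (a m * a n) • adv (pk s P m) (pk s P n) y := by
        rw [map_sum]
        refine Finset.sum_congr rfl fun m _ => ?_
        rw [sum_apply]
        refine Finset.sum_congr rfl fun n _ => ?_
        rw [smul_apply, map_smul, smul_smul, mul_comm]
        rfl
      rw [e1, W2.tri (fun m n hmn => hT.far m n y hmn) N, Finset.smul_sum, Finset.smul_sum,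
        ← Finset.sum_sub_distrib, ← Finset.sum_add_distrib]
      congr 1
      · refine Finset.sum_congr rfl fun n _ => ?_
        rw [hTP.pd n y, smul_sub, smul_smul, smul_smul, smul_smul]
        congr 2
        · simp only [lamE, Matrix.cons_val_zero]; ring
        · ring
      · refine Finset.sum_congr rfl fun n _ => ?_
        rw [hTP.pn n y, smul_add, smul_smul, smul_smul, smul_smul]
        congr 2
        · simp [lamE]; ring
        · ring
    have t3 : Tendsto (fun N : ℕ => (∑ n ∈ Finset.range (N + 1), lamE s a (0, n) •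
          fm s r (0, n) y -
          κ • ∑ n ∈ Finset.range (N + 1), (s ^ (5 * n) * a n ^ 2) • pk s P (n + 1) y) +
        (∑ n ∈ Finset.range N, lamE s a (1, n) • fm s r (1, n) y +
          κ • ∑ n ∈ Finset.range N, (s ^ (5 * n) * a n * a (n + 1)) • pk s P n y)) atTop
        (𝓝 ((A0 - κ • B) + (A1 + κ • Y))) :=
      ((hA0.tendsto_sum_nat.comp (tendsto_add_atTop_nat 1)).sub
        ((hB.tendsto_sum_nat.comp (tendsto_add_atTop_nat 1)).const_smul κ)).add
        (hA1.tendsto_sum_nat.add (hY.tendsto_sum_nat.const_smul κ))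
    exact tendsto_nhds_unique t1 (t3.congr fun N => (t2 N).symm)
  -- the linear term
  have hlin : ser s P a' y = κ • (B - Y) := by
    have hX : HasSum (fun n => (if n = 0 then 0 else s ^ (5 * (n - 1)) * a (n - 1) ^ 2) •
        pk s P n y) B := by
      have h4 := (hasSum_nat_add_iff (f := fun n => (if n = 0 then 0 else
        s ^ (5 * (n - 1)) * a (n - 1) ^ 2) • pk s P n y) (g := B) 1).1
      simp only [Finset.sum_range_one, if_true, zero_smul, add_zero] at h4
      refine h4 (hB.congr_fun fun n => ?_)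
      simp
    have h5 := (hX.sub hY).const_smul κ
    refine h3.unique (h5.congr_fun fun n => ?_)
    rw [haa n, vqE, ← sub_smul, smul_smul]
  have hfin := W2.two (f := fun p => lamE s a p • fm s r p y) hA0 hA1
  have : ser s P a' y + adv (ser s P a) (ser s P a) y = A0 + A1 := by
    rw [hadv, hlin, smul_sub]
    abel
  rw [this]
  exact hfin

end Pool.Agent.N976.EC
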